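import Mathlib

/-! # ALX: the metrics of the statement (definitions)

`meanCurv g ρ z` is the mean curvature (the divergence of the unit normal field `∇ρ / |∇ρ|`, i.e. the
trace of the shape operator) at `z` of the level set of `ρ` through `z`, for the Riemannian metric
`(u, v) ↦ ⟪g z u, v⟫` on an open subset of the Euclidean space `E`:
`(1 / √det g) * div (√det g * g⁻¹ ∇ρ / √⟪∇ρ, g⁻¹ ∇ρ⟫)`.
-/

set_option autoImplicit false
set_option linter.unusedSectionVars false
set_option linter.unusedVariables false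

namespace Pool.Agent.Helper41.ALX

section general

variable {E : Type*} [NormedAddCommGroup E] [InnerProductSpace ℝ E] [FiniteDimensional ℝ E]

/-- Euclidean divergence of a vector field -/
noncomputable def divg (v : E → E) (z : E) : ℝ :=
  LinearMap.trace ℝ E (fderiv ℝ v z : E →ₗ[ℝ] E)

/-- mean curvature of the level sets of `ρ` for the Riemannian metric `⟪g z u, v⟫` -/
noncomputable def meanCurv (g : E → E →L[ℝ] E) (ρ : E → ℝ) (z : E) : ℝ :=
  (√(LinearMap.det (g z : E →ₗ[ℝ] E)))⁻¹ *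
    divg (fun y => (√(LinearMap.det (g y : E →ₗ[ℝ] E)) /
      √(inner ℝ (gradient ρ y) ((g y).inverse (gradient ρ y)))) •
        (g y).inverse (gradient ρ y)) z

/-- the radial part: `v ↦ ⟪z, v⟫ z` -/
noncomputable def radial (z : E) : E →L[ℝ] E := (innerSL ℝ z).smulRight z

/-- the metric `|v|² / (1 - |z|²) + (⟪z, v⟫² + |z|² |P z v|²) / (1 - |z|²)²` on the unit ball, where `P z` is the
orthogonal projection onto the vertical space at `z` -/
noncomputable def ballMetric (P : E → E →L[ℝ] E) (z : E) : E →L[ℝ] E :=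
  (1 - ‖z‖ ^ 2)⁻¹ • ContinuousLinearMap.id ℝ E +
    ((1 - ‖z‖ ^ 2) ^ 2)⁻¹ • (radial z + ‖z‖ ^ 2 • P z)

/-- a field of orthogonal projections of rank `a` orthogonal to the radial direction -/
structure Vertical (a : ℕ) (P : E → E →L[ℝ] E) : Prop where
  symm : ∀ z u v, inner ℝ (P z u) v = inner ℝ u (P z v)
  idem : ∀ z u, P z (P z u) = P z u
  radial : ∀ z, P z z = 0
  rank : ∀ z, z ≠ 0 → Module.finrank ℝ (LinearMap.range (P z : E →ₗ[ℝ] E)) = a

end general

/-- the Bergman metric of the unit ball of `ℂ^n` (complex hyperbolic space, curvature between `-4` and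
`-1`): `v ↦ v / (1 - |z|²) + ⟪z, v⟫ z / (1 - |z|²)²`, with the complex inner product -/
noncomputable def bergman (n : ℕ) (z : EuclideanSpace ℂ (Fin n)) :
    EuclideanSpace ℂ (Fin n) →L[ℝ] EuclideanSpace ℂ (Fin n) :=
  (1 - ‖z‖ ^ 2)⁻¹ • ContinuousLinearMap.id ℝ (EuclideanSpace ℂ (Fin n)) +
    ((1 - ‖z‖ ^ 2) ^ 2)⁻¹ • ((innerSL ℂ z).smulRight z).restrictScalars ℝ

end Pool.Agent.Helper41.ALX
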