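import Pool.Agent.Helper41.ALX.Link
import Pool.Agent.Helper41.ALX.Metric

/-! # ALX, pieces G1, G2, G3, G4: the mean curvature in the ball -/

set_option autoImplicit false
set_option linter.unusedSectionVars false
set_option linter.unusedVariables false

namespace Pool.Agent.Helper41.ALX

open Filter Topology
open scoped ContDiff

variable {E : Type*} [NormedAddCommGroup E] [InnerProductSpace ℝ E] [FiniteDimensional ℝ E]

/-- piece `G1`: determinant of `(1 - Q) + t Q` for an orthogonal projection `Q`.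
Proof. Take an orthonormal (or any) basis adapted to `range Q ⊕ ker Q`
(`LinearMap.IsProj`/`Submodule.prodEquivOfIsCompl`, `LinearMap.det_conj`, `LinearMap.det_prodMap`), or any
other way. -/
theorem det_proj (Q : E →ₗ[ℝ] E) (hQ : ∀ u, Q (Q u) = Q u) (t : ℝ) :
    LinearMap.det (LinearMap.id + (t - 1) • Q) = t ^ Module.finrank ℝ (LinearMap.range Q) := by
  have hi : IsIdempotentElem Q := LinearMap.ext hQ
  have hc : IsCompl (LinearMap.range Q) (LinearMap.ker Q) := LinearMap.IsIdempotentElem.isCompl hi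
  obtain ⟨e, he⟩ : ∃ e : (LinearMap.range Q × LinearMap.ker Q) ≃ₗ[ℝ] E,
      ∀ x, e x = (x.1 : E) + x.2 :=
    ⟨(LinearMap.range Q).prodEquivOfIsCompl (LinearMap.ker Q) hc, fun x => by simp⟩
  have h1 : LinearMap.id + (t - 1) • Q =
      (e : (LinearMap.range Q × LinearMap.ker Q) →ₗ[ℝ] E) ∘ₗ
        (LinearMap.prodMap (t • LinearMap.id) LinearMap.id) ∘ₗ (e.symm : E →ₗ[ℝ] _) := by
    refine LinearMap.ext fun u => ?_
    obtain ⟨⟨⟨a, ha⟩, ⟨b, hb⟩⟩, rfl⟩ := e.surjective u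
    obtain ⟨c, rfl⟩ := ha
    have hb' : Q b = 0 := hb
    simp only [LinearMap.comp_apply, LinearEquiv.coe_coe, e.symm_apply_apply]
    simp only [he, LinearMap.add_apply, LinearMap.smul_apply, LinearMap.id_apply,
      LinearMap.sub_apply,
      LinearMap.prodMap_apply, map_add, hQ, hb', Submodule.coe_smul, smul_zero, sub_smul, one_smul]
    module
  rw [h1, LinearMap.det_conj, LinearMap.det_prodMap, LinearMap.det_smul]
  simp

/-- pairing of `z` with the vertical part -/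
private theorem G2_orth {a : ℕ} {P : E → E →L[ℝ] E} (hP : Vertical a P) (z u : E) :
    inner ℝ z (P z u) = 0 := by
  rw [← hP.symm, hP.radial, inner_zero_left]

private theorem G2_radial (z u : E) : radial z u = inner ℝ z u • z := by
  simp [radial]

private theorem G2_apply {a : ℕ} {P : E → E →L[ℝ] E} (hP : Vertical a P) (z v : E) :
    ballMetric P z v = (1 - ‖z‖ ^ 2)⁻¹ • v +
      ((1 - ‖z‖ ^ 2) ^ 2)⁻¹ • (inner ℝ z v • z + ‖z‖ ^ 2 • P z v) := by
  simp [ballMetric, G2_radial]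

/-- the projection on the line of `z` plus the vertical space -/
private noncomputable def G2_Q (P : E → E →L[ℝ] E) (z : E) : E →ₗ[ℝ] E :=
  (((‖z‖ ^ 2)⁻¹ • radial z + P z : E →L[ℝ] E) : E →ₗ[ℝ] E)

private theorem G2_Q_apply (P : E → E →L[ℝ] E) (z u : E) :
    G2_Q P z u = ((‖z‖ ^ 2)⁻¹ * inner ℝ z u) • z + P z u := by
  simp [G2_Q, G2_radial, smul_smul]

private theorem G2_Q_idem {a : ℕ} {P : E → E →L[ℝ] E} (hP : Vertical a P) {z : E} (hz0 : z ≠ 0)
    (u : E) : G2_Q P z (G2_Q P z u) = G2_Q P z u := by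
  have hz2 : ‖z‖ ^ 2 ≠ 0 := pow_ne_zero 2 (norm_ne_zero_iff.mpr hz0)
  rw [G2_Q_apply P z (G2_Q P z u), G2_Q_apply P z u]
  rw [map_add, map_smul, hP.radial, hP.idem, smul_zero, zero_add, inner_add_right, G2_orth hP,
    add_zero, inner_smul_right, real_inner_self_eq_norm_sq]
  congr 2
  field_simp

private theorem G2_Q_range {a : ℕ} {P : E → E →L[ℝ] E} (hP : Vertical a P) {z : E} (hz0 : z ≠ 0) :
    LinearMap.range (G2_Q P z) = Submodule.span ℝ {z} ⊔ LinearMap.range (P z : E →ₗ[ℝ] E) := by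
  have hz2 : ‖z‖ ^ 2 ≠ 0 := pow_ne_zero 2 (norm_ne_zero_iff.mpr hz0)
  apply le_antisymm
  · rintro _ ⟨u, rfl⟩
    rw [G2_Q_apply]
    exact Submodule.add_mem_sup (Submodule.smul_mem _ _ (Submodule.mem_span_singleton_self z))
      ⟨u, rfl⟩
  · refine sup_le ?_ ?_
    · rw [Submodule.span_singleton_le_iff_mem]
      refine ⟨z, ?_⟩
      rw [G2_Q_apply, hP.radial, add_zero, real_inner_self_eq_norm_sq, inv_mul_cancel₀ hz2, one_smul]
    · rintro _ ⟨u, rfl⟩
      refine ⟨P z u, ?_⟩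
      rw [G2_Q_apply, G2_orth hP, mul_zero, zero_smul, zero_add, hP.idem]
      rfl

private theorem G2_Q_rank {a : ℕ} {P : E → E →L[ℝ] E} (hP : Vertical a P) {z : E} (hz0 : z ≠ 0) :
    Module.finrank ℝ (LinearMap.range (G2_Q P z)) = a + 1 := by
  rw [G2_Q_range hP hz0]
  have hdisj : Submodule.span ℝ {z} ⊓ LinearMap.range (P z : E →ₗ[ℝ] E) = ⊥ := by
    rw [Submodule.eq_bot_iff]
    rintro x ⟨hx1, ⟨u, rfl⟩⟩
    obtain ⟨c, hc⟩ := Submodule.mem_span_singleton.mp hx1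
    have h1 : inner ℝ z (c • z) = 0 := by
      rw [hc]
      exact G2_orth hP z u
    rw [inner_smul_right, real_inner_self_eq_norm_sq] at h1
    have hz2 : ‖z‖ ^ 2 ≠ 0 := pow_ne_zero 2 (norm_ne_zero_iff.mpr hz0)
    have hc0 : c = 0 := by
      rcases mul_eq_zero.mp h1 with h | h
      · exact h
      · exact absurd h hz2
    rw [← hc, hc0, zero_smul]
  have h := Submodule.finrank_sup_add_finrank_inf_eq (Submodule.span ℝ {z})
    (LinearMap.range (P z : E →ₗ[ℝ] E))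
  rw [hdisj, finrank_bot, add_zero, finrank_span_singleton hz0, hP.rank z hz0] at h
  omega

private theorem G2_eq {a : ℕ} {P : E → E →L[ℝ] E} (hP : Vertical a P) {z : E} (hz : ‖z‖ < 1)
    (hz0 : z ≠ 0) :
    (ballMetric P z : E →ₗ[ℝ] E) =
      (1 - ‖z‖ ^ 2)⁻¹ • (LinearMap.id + ((1 - ‖z‖ ^ 2)⁻¹ - 1) • G2_Q P z) := by
  have hz2 : ‖z‖ ^ 2 ≠ 0 := pow_ne_zero 2 (norm_ne_zero_iff.mpr hz0)
  have hs : (1 - ‖z‖ ^ 2) ≠ 0 := by
    have := norm_nonneg z
    nlinarith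
  ext v
  change ballMetric P z v = (1 - ‖z‖ ^ 2)⁻¹ • (v + ((1 - ‖z‖ ^ 2)⁻¹ - 1) • G2_Q P z v)
  rw [G2_apply hP, G2_Q_apply, smul_add]
  have h1 : ((1 - ‖z‖ ^ 2) ^ 2)⁻¹ * inner ℝ z v =
      (1 - ‖z‖ ^ 2)⁻¹ * (((1 - ‖z‖ ^ 2)⁻¹ - 1) * ((‖z‖ ^ 2)⁻¹ * inner ℝ z v)) := by
    field_simp
    ring
  have h2 : ((1 - ‖z‖ ^ 2) ^ 2)⁻¹ * ‖z‖ ^ 2 =
      (1 - ‖z‖ ^ 2)⁻¹ * ((1 - ‖z‖ ^ 2)⁻¹ - 1) := by
    field_simp
    ring
  rw [smul_add, smul_add, smul_add, smul_smul, smul_smul, smul_smul, smul_smul, smul_smul,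
    h1, h2, mul_assoc]

/-- piece `G2`: determinant of the metric. Proof. For `z = 0` both sides are `1` (`‖z‖ = 0`). For `z ≠ 0` let
`Q = ‖z‖⁻² • radial z + P z`; it is idempotent (`P z z = 0`, `⟪z, P z u⟫ = ⟪P z z, u⟫ = 0`), of rank `a + 1`
(its range is `ℝ z ⊕ range (P z)`), and `ballMetric P z = s⁻¹ • (id + (s⁻¹ - 1) • Q)`, `s = 1 - ‖z‖ ^ 2`, because
`‖z‖ ^ 2 / s = s⁻¹ - 1`. `det_proj`, `LinearMap.det_smul`. -/
theorem det_ball {a : ℕ} {P : E → E →L[ℝ] E} (hP : Vertical a P) {z : E} (hz : ‖z‖ < 1) :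
    LinearMap.det (ballMetric P z : E →ₗ[ℝ] E) =
      ((1 - ‖z‖ ^ 2)⁻¹) ^ (Module.finrank ℝ E + 1 + a) := by
  by_cases hz0 : z = 0
  · subst hz0
    have h : (ballMetric P (0 : E) : E →ₗ[ℝ] E) = LinearMap.id := by
      ext v
      change ballMetric P (0 : E) v = v
      rw [G2_apply hP]
      simp
    rw [h, LinearMap.det_id]
    simp
  · rw [G2_eq hP hz hz0, LinearMap.det_smul, det_proj _ (G2_Q_idem hP hz0), G2_Q_rank hP hz0,
      ← pow_add]
    congr 1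
    omega

private theorem G2_inner {a : ℕ} {P : E → E →L[ℝ] E} (hP : Vertical a P) {z : E} (hz : ‖z‖ < 1)
    (v : E) : ‖v‖ ^ 2 ≤ inner ℝ (ballMetric P z v) v := by
  have hs : 0 < (1 - ‖z‖ ^ 2) := by
    have := norm_nonneg z
    nlinarith
  have hs1 : (1 - ‖z‖ ^ 2) ≤ 1 := by
    have := sq_nonneg ‖z‖
    linarith
  rw [G2_apply hP, inner_add_left, inner_smul_left, inner_smul_left, inner_add_left,
    inner_smul_left, inner_smul_left, real_inner_self_eq_norm_sq]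
  have h1 : inner ℝ (P z v) v = ‖P z v‖ ^ 2 := by
    rw [← hP.idem z v, hP.symm, hP.idem, real_inner_self_eq_norm_sq]
  rw [h1]
  simp only [conj_trivial]
  have h2 : (1 : ℝ) ≤ (1 - ‖z‖ ^ 2)⁻¹ := (one_le_inv₀ hs).mpr hs1
  have h3 : 0 ≤ ((1 - ‖z‖ ^ 2) ^ 2)⁻¹ * (inner ℝ z v * inner ℝ z v + ‖z‖ ^ 2 * ‖P z v‖ ^ 2) := by
    have := mul_self_nonneg (inner ℝ z v)
    positivity
  nlinarith [sq_nonneg ‖v‖]

/-- piece `G2`: the inverse metric on vectors without vertical part.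
Proof. `ballMetric P z` is injective (`⟪ballMetric P z v, v⟫ ≥ ‖v‖ ^ 2`), so invertible
(`ContinuousLinearMap.inverse` of an equivalence), and it maps `s • (p - ⟪z, p⟫ z)` to `p`
(`P z p = 0`, `P z z = 0`; `⟪z, p - ⟪z, p⟫ z⟫ = s ⟪z, p⟫`). -/
theorem inv_ball {a : ℕ} {P : E → E →L[ℝ] E} (hP : Vertical a P) {z : E} (hz : ‖z‖ < 1) {p : E}
    (hp : P z p = 0) :
    (ballMetric P z).inverse p = (1 - ‖z‖ ^ 2) • (p - inner ℝ z p • z) := by
  have hinj : Function.Injective (ballMetric P z : E →ₗ[ℝ] E) := by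
    rw [injective_iff_map_eq_zero]
    intro v hv
    have h := G2_inner hP hz v
    have hv' : ballMetric P z v = 0 := hv
    rw [hv', inner_zero_left] at h
    have h2 : ‖v‖ ^ 2 = 0 := le_antisymm h (sq_nonneg _)
    exact norm_eq_zero.mp (pow_eq_zero_iff (two_ne_zero) |>.mp h2)
  let e : E ≃L[ℝ] E := (LinearEquiv.ofInjectiveEndo (ballMetric P z : E →ₗ[ℝ] E)
    hinj).toContinuousLinearEquiv
  have he : (e : E →L[ℝ] E) = ballMetric P z := by
    ext v
    rfl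
  rw [← he, ContinuousLinearMap.inverse_equiv]
  change e.symm p = _
  rw [ContinuousLinearEquiv.symm_apply_eq]
  change p = ballMetric P z _
  have hs : (1 - ‖z‖ ^ 2) ≠ 0 := by
    have := norm_nonneg z
    nlinarith
  rw [G2_apply hP, map_smul, map_sub, map_smul, hP.radial, hp, inner_smul_right, inner_sub_right,
    inner_smul_right, real_inner_self_eq_norm_sq]
  rw [smul_zero, sub_zero, smul_zero, smul_zero, add_zero, smul_smul, smul_smul,
    inv_mul_cancel₀ hs, one_smul]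
  have h4 : ((1 - ‖z‖ ^ 2) ^ 2)⁻¹ * ((1 - ‖z‖ ^ 2) * (inner ℝ z p - inner ℝ z p * ‖z‖ ^ 2)) =
      inner ℝ z p := by
    field_simp
  rw [h4]
  abel

private theorem G3_grad_sum (ρ : E → ℝ) (y : E) :
    gradient ρ y = ∑ i, (fderiv ℝ ρ y (stdOrthonormalBasis ℝ E i)) • stdOrthonormalBasis ℝ E i := by
  conv_lhs => rw [← (stdOrthonormalBasis ℝ E).sum_repr' (gradient ρ y)]
  refine Finset.sum_congr rfl fun i _ => ?_
  rw [real_inner_comm, inner_gradient_left]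

/-- the derivative of the gradient -/
private noncomputable def G3_H (ρ : E → ℝ) (z : E) : E →L[ℝ] E :=
  ∑ i, ((S2 ρ z).flip (stdOrthonormalBasis ℝ E i)).smulRight (stdOrthonormalBasis ℝ E i)

private theorem G3_H_inner (ρ : E → ℝ) (z v w : E) : inner ℝ w (G3_H ρ z v) = S2 ρ z v w := by
  have h1 : G3_H ρ z v = ∑ i, (S2 ρ z v (stdOrthonormalBasis ℝ E i)) • stdOrthonormalBasis ℝ E i := by
    simp [G3_H]
  rw [h1, inner_sum]
  conv_rhs => rw [← (stdOrthonormalBasis ℝ E).sum_repr' w]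
  rw [map_sum]
  refine Finset.sum_congr rfl fun i _ => ?_
  rw [map_smul, inner_smul_right, smul_eq_mul, mul_comm, real_inner_comm]

private theorem G3_hasGrad {ρ : E → ℝ} {z : E} (h2 : HasFDerivAt (fun y => fderiv ℝ ρ y) (S2 ρ z) z) :
    HasFDerivAt (gradient ρ) (G3_H ρ z) z := by
  have h3 : gradient ρ = fun y => ∑ i, (fderiv ℝ ρ y (stdOrthonormalBasis ℝ E i)) •
      stdOrthonormalBasis ℝ E i := by
    funext y
    exact G3_grad_sum ρ y
  rw [h3]
  unfold G3_H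
  apply HasFDerivAt.fun_sum
  intro i _
  have h4 : HasFDerivAt (fun y => fderiv ℝ ρ y (stdOrthonormalBasis ℝ E i))
      ((S2 ρ z).flip (stdOrthonormalBasis ℝ E i)) z := by
    have := h2.clm_apply (hasFDerivAt_const (stdOrthonormalBasis ℝ E i) z)
    refine this.congr_fderiv ?_
    ext v
    simp
  exact h4.smul_const _

private theorem G3_u {ρ : E → ℝ} {z : E} (h2 : HasFDerivAt (fun y => fderiv ℝ ρ y) (S2 ρ z) z) :
    HasFDerivAt (fun y => fderiv ℝ ρ y y) ((S2 ρ z).flip z + fderiv ℝ ρ z) z := by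
  have := h2.clm_apply (hasFDerivAt_id z)
  refine this.congr_fderiv ?_
  ext v
  simp [add_comm]

private theorem G3_m {ρ : E → ℝ} {z : E} (h2 : HasFDerivAt (fun y => fderiv ℝ ρ y) (S2 ρ z) z) :
    HasFDerivAt (mb ρ) (G3_H ρ z - ((fderiv ℝ ρ z z) • ContinuousLinearMap.id ℝ E +
      ((S2 ρ z).flip z + fderiv ℝ ρ z).smulRight z)) z := by
  have h3 := (G3_hasGrad h2).sub ((G3_u h2).smul (hasFDerivAt_id z))
  exact h3

private theorem G3_div {ρ : E → ℝ} {z : E} :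
    LinearMap.trace ℝ E ((G3_H ρ z - ((fderiv ℝ ρ z z) • ContinuousLinearMap.id ℝ E +
      ((S2 ρ z).flip z + fderiv ℝ ρ z).smulRight z) : E →L[ℝ] E) : E →ₗ[ℝ] E) =
      (∑ i, S2 ρ z (stdOrthonormalBasis ℝ E i) (stdOrthonormalBasis ℝ E i)) - S2 ρ z z z
        - (Module.finrank ℝ E + 1) * fderiv ℝ ρ z z := by
  have h1 : LinearMap.trace ℝ E (G3_H ρ z : E →ₗ[ℝ] E) =
      ∑ i, S2 ρ z (stdOrthonormalBasis ℝ E i) (stdOrthonormalBasis ℝ E i) := by
    rw [LinearMap.trace_eq_sum_inner _ (stdOrthonormalBasis ℝ E)]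
    refine Finset.sum_congr rfl fun i _ => ?_
    exact G3_H_inner ρ z _ _
  have h2 : LinearMap.trace ℝ E ((((S2 ρ z).flip z + fderiv ℝ ρ z).smulRight z : E →L[ℝ] E) :
      E →ₗ[ℝ] E) = S2 ρ z z z + fderiv ℝ ρ z z := by
    have := LinearMap.trace_smulRight (((S2 ρ z).flip z + fderiv ℝ ρ z : E →L[ℝ] ℝ) : E →ₗ[ℝ] ℝ) z
    simp only [ContinuousLinearMap.coe_smulRight]
    exact this
  have h3 : LinearMap.trace ℝ E ((ContinuousLinearMap.id ℝ E : E →L[ℝ] E) : E →ₗ[ℝ] E) =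
      Module.finrank ℝ E := by
    rw [ContinuousLinearMap.coe_id]
    exact LinearMap.trace_id ℝ E
  rw [ContinuousLinearMap.toLinearMap_sub, ContinuousLinearMap.toLinearMap_add, ContinuousLinearMap.toLinearMap_smul,
    map_sub, map_add, map_smul, h1, h2, h3, smul_eq_mul]
  ring

private theorem G3_q {ρ : E → ℝ} {z : E} (h2 : HasFDerivAt (fun y => fderiv ℝ ρ y) (S2 ρ z) z) :
    HasFDerivAt (qb ρ) ((2 : ℝ) • ((S2 ρ z).flip (gradient ρ z)) -
      (2 * fderiv ℝ ρ z z) • ((S2 ρ z).flip z + fderiv ℝ ρ z)) z := by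
  have h3 := (G3_hasGrad h2).norm_sq.sub ((G3_u h2).pow 2)
  refine h3.congr_fderiv ?_
  ext v
  have h4 := G3_H_inner ρ z v (gradient ρ z)
  simp [h4]

private theorem G3_s (z : E) : HasFDerivAt (fun y : E => 1 - ‖y‖ ^ 2) (-((2 : ℝ) • innerSL ℝ z)) z := by
  have h3 := ((hasFDerivAt_id z).norm_sq).const_sub 1
  refine h3.congr_fderiv ?_
  ext v
  simp

/-- piece `G3`: the mean curvature of the level sets of a function without vertical derivative.
Proof. Near `z` the vector field is (by `det_ball`, `inv_ball`)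
`f • mb ρ y`, `f y = √((s⁻¹) ^ (N + 1 + a)) * s / √(s * qb ρ y)`, `s = 1 - ‖y‖ ^ 2`, `N = finrank E`;
`qb ρ z > 0` as `fderiv ρ z ≠ 0` (`qb ≥ ‖∇ρ‖ ^ 2 * (1 - ‖z‖ ^ 2)`). Divergence:
`div (f • m) = D f m + f * div m`; with `p = ∇ρ`, `u = ⟪p, y⟫`, `A = S2 ρ`: `D u v = A v y + ⟪p, v⟫`,
`D m v = A v - (D u v) y - u v`, so `div m = ∑ A b b - A y y - ⟪p, y⟫ - N u = ∑ A b b - A y y - (N + 1) u`;
`D s v = -2 ⟪y, v⟫`, `D (qb) v = 2 A v p - 2 u (A v y + ⟪p, v⟫)`. `⟪y, m⟫ = s u`, `D (qb) m =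
2 (A m m - u * qb)` (as `p - u y = m`, `⟪p, m⟫ = qb`). `f = s ^ (1/2 - c) * qb ^ (-1/2)`, `c = (N + 1 + a) / 2`, so
`D f m / f = (1/2 - c) * (-2 s u) / s - (A m m - u * qb) / qb = (2 c - 1) u - A m m / qb + u`.
Sum: `∑ A b b - A z z - A m m / qb + a u`, and `√(s⁻¹ ^ (N+1+a))⁻¹ * f = √(s / qb)`. (It may be convenient to
take the logarithmic derivative of `f ^ 2 = s⁻¹ ^ (N + a) * qb⁻¹ * ...` instead of real powers.) -/
theorem meanCurv_ball {a : ℕ} {P : E → E →L[ℝ] E} (hP : Vertical a P) {ρ : E → ℝ}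
    (hs : ContDiffOn ℝ 3 ρ (Metric.ball 0 1))
    (hv : ∀ y ∈ Metric.ball (0 : E) 1, P y (gradient ρ y) = 0) {z : E}
    (hz : z ∈ Metric.ball (0 : E) 1) (hne : fderiv ℝ ρ z ≠ 0) :
    meanCurv (ballMetric P) ρ z = Eball a ρ z := by
  have hz1 : ‖z‖ < 1 := by simpa using hz
  have hsp : ∀ y : E, ‖y‖ < 1 → 0 < 1 - ‖y‖ ^ 2 := by
    intro y hy
    have := norm_nonneg y
    nlinarith
  have h2 : HasFDerivAt (fun y => fderiv ℝ ρ y) (S2 ρ z) z := by
    have h3 : ContDiffAt ℝ 3 ρ z := hs.contDiffAt (Metric.isOpen_ball.mem_nhds hz)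
    have h4 : ContDiffAt ℝ 2 (fderiv ℝ ρ) z := h3.fderiv_right (by norm_num)
    exact (h4.differentiableAt (by norm_num)).hasFDerivAt
  set u := fderiv ℝ ρ z z with hu
  set q := qb ρ z with hq
  set m := mb ρ z with hm
  set s := 1 - ‖z‖ ^ 2 with hsdef
  have hs0 : 0 < s := hsp z hz1
  -- algebra at `z`
  have e1 : inner ℝ z (gradient ρ z) = u := by rw [real_inner_comm, inner_gradient_left]
  have e2 : inner ℝ z m = s * u := by
    rw [hm, mb, inner_sub_right, e1, inner_smul_right, real_inner_self_eq_norm_sq, hsdef]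
    ring
  have e3 : fderiv ℝ ρ z m = q := by
    rw [hm, mb, map_sub, map_smul, ← inner_gradient_left, real_inner_self_eq_norm_sq, hq, qb,
      smul_eq_mul]
    ring
  have hq0 : 0 < q := by
    have h3 : gradient ρ z ≠ 0 := by
      intro h
      apply hne
      ext v
      rw [← inner_gradient_left, h]
      simp
    have h4 : |inner ℝ z (gradient ρ z)| ≤ ‖z‖ * ‖gradient ρ z‖ := abs_real_inner_le_norm _ _
    rw [e1] at h4
    have h5 : 0 < ‖gradient ρ z‖ := norm_pos_iff.2 h3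
    have h6 : |u| < ‖gradient ρ z‖ := by nlinarith [norm_nonneg z]
    have h7 : u ^ 2 < ‖gradient ρ z‖ ^ 2 := by
      rw [← sq_abs]
      have := abs_nonneg u
      nlinarith
    rw [hq, qb, ← hu]
    linarith
  -- the field near `z`
  set K := Module.finrank ℝ E + a with hK
  have hfield : (fun y => (√(LinearMap.det (ballMetric P y : E →ₗ[ℝ] E)) /
      √(inner ℝ (gradient ρ y) ((ballMetric P y).inverse (gradient ρ y)))) •
        (ballMetric P y).inverse (gradient ρ y)) =ᶠ[𝓝 z]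
      fun y => (√((1 - ‖y‖ ^ 2) ^ K * qb ρ y))⁻¹ • mb ρ y := by
    filter_upwards [Metric.isOpen_ball.mem_nhds hz] with y hy
    have hy1 : ‖y‖ < 1 := by simpa using hy
    have hy0 := hsp y hy1
    have e4 : (ballMetric P y).inverse (gradient ρ y) = (1 - ‖y‖ ^ 2) • mb ρ y := by
      rw [inv_ball hP hy1 (hv y hy), real_inner_comm, inner_gradient_left, mb]
    have e5 : inner ℝ (gradient ρ y) (mb ρ y) = qb ρ y := by
      rw [inner_gradient_left, mb, map_sub, map_smul, ← inner_gradient_left,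
        real_inner_self_eq_norm_sq, qb, smul_eq_mul]
      ring
    rw [e4, inner_smul_right, e5, det_ball hP hy1, smul_smul]
    congr 1
    generalize 1 - ‖y‖ ^ 2 = t at hy0
    generalize qb ρ y = r
    have e6 : t⁻¹ ^ (Module.finrank ℝ E + 1 + a) = (t ^ K)⁻¹ * t⁻¹ := by
      rw [hK, ← inv_pow]
      ring
    rw [e6, Real.sqrt_mul (by positivity), Real.sqrt_mul hy0.le, Real.sqrt_mul (by positivity),
      Real.sqrt_inv, Real.sqrt_inv]
    have e7 : √t ≠ 0 := (Real.sqrt_pos.2 hy0).ne'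
    have e8 : √t * √t = t := Real.mul_self_sqrt hy0.le
    have e9 : √(t ^ K) ≠ 0 := (Real.sqrt_pos.2 (by positivity)).ne'
    clear e6
    generalize √(t ^ K) = W at e9 ⊢
    generalize √t = w at e7 e8 ⊢
    generalize √r = r'
    subst e8
    rcases eq_or_ne r' 0 with h0 | h0
    · rw [h0]
      simp
    · field_simp
  -- derivative of the factor
  have hG : HasFDerivAt (fun y : E => (1 - ‖y‖ ^ 2) ^ K * qb ρ y)
      (s ^ K • ((2 : ℝ) • ((S2 ρ z).flip (gradient ρ z)) -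
      (2 * fderiv ℝ ρ z z) • ((S2 ρ z).flip z + fderiv ℝ ρ z)) +
        q • ((K • s ^ (K - 1)) • -((2 : ℝ) • innerSL ℝ z))) z := by
    exact ((G3_s z).pow K).mul (G3_q h2)
  set G := s ^ K * q with hGd
  have hG0 : 0 < G := by positivity
  have hr0 : √G ≠ 0 := (Real.sqrt_pos.2 hG0).ne'
  have hphi : HasDerivAt (fun x : ℝ => (√x)⁻¹) (-(1 / (2 * √G)) / (√G) ^ 2) G :=
    (Real.hasDerivAt_sqrt hG0.ne').inv hr0
  have hf := hphi.comp_hasFDerivAt z hG
  have hfm := hf.smul (G3_m h2)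
  have hdiv : divg (fun y => (√((1 - ‖y‖ ^ 2) ^ K * qb ρ y))⁻¹ • mb ρ y) z =
      (√G)⁻¹ * ((∑ i, S2 ρ z (stdOrthonormalBasis ℝ E i) (stdOrthonormalBasis ℝ E i)) - S2 ρ z z z
        - (Module.finrank ℝ E + 1) * u) +
      (-(1 / (2 * √G)) / (√G) ^ 2) * (s ^ K * (2 * S2 ρ z m (gradient ρ z) -
        2 * u * (S2 ρ z m z + q)) + q * (K * s ^ (K - 1) * -(2 * (s * u)))) := by
    unfold divg
    have h3 : fderiv ℝ (fun y => (√((1 - ‖y‖ ^ 2) ^ K * qb ρ y))⁻¹ • mb ρ y) z = _ :=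
      HasFDerivAt.fderiv hfm
    rw [h3, ContinuousLinearMap.toLinearMap_add, ContinuousLinearMap.toLinearMap_smul, map_add, map_smul, G3_div,
      smul_eq_mul]
    congr 1
    rw [ContinuousLinearMap.coe_smulRight, LinearMap.trace_smulRight]
    simp only [ContinuousLinearMap.coe_coe, smul_apply, add_apply, sub_apply, neg_apply,
      ContinuousLinearMap.flip_apply, smul_eq_mul, nsmul_eq_mul, innerSL_apply_apply]
    rw [e2, e3]
  rw [meanCurv]
  have h5 : divg (fun y => (√(LinearMap.det (ballMetric P y : E →ₗ[ℝ] E)) /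
      √(inner ℝ (gradient ρ y) ((ballMetric P y).inverse (gradient ρ y)))) •
        (ballMetric P y).inverse (gradient ρ y)) z =
      divg (fun y => (√((1 - ‖y‖ ^ 2) ^ K * qb ρ y))⁻¹ • mb ρ y) z := by
    unfold divg
    rw [hfield.fderiv_eq]
  rw [h5, hdiv, det_ball hP hz1]
  have e10 : S2 ρ z m m = S2 ρ z m (gradient ρ z) - u * S2 ρ z m z := by
    have h6 : S2 ρ z m (mb ρ z) = S2 ρ z m (gradient ρ z) - u * S2 ρ z m z := by
      rw [mb, map_sub, map_smul, smul_eq_mul]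
    exact h6
  unfold Eball
  rw [← hu, ← hq, ← hm, ← hsdef]
  generalize (∑ i, S2 ρ z (stdOrthonormalBasis ℝ E i) (stdOrthonormalBasis ℝ E i)) = T
  generalize S2 ρ z z z = Z
  have e11 : 2 * S2 ρ z m (gradient ρ z) - 2 * u * (S2 ρ z m z + q) =
      2 * (S2 ρ z m m - u * q) := by
    rw [e10]
    ring
  rw [e11]
  generalize S2 ρ z m m = M
  have e12 : s ^ K * (2 * (M - u * q)) + q * (K * s ^ (K - 1) * -(2 * (s * u))) =
      2 * s ^ K * (M - u * q - K * q * u) := by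
    rcases Nat.eq_zero_or_pos K with h0 | h0
    · rw [h0]
      simp
    · obtain ⟨k, hk⟩ : ∃ k, K = k + 1 := ⟨K - 1, by omega⟩
      rw [hk, Nat.add_sub_cancel, pow_succ]
      ring
  rw [e12]
  have e13 : √G ^ 2 = G := Real.sq_sqrt hG0.le
  have e14 : -(1 / (2 * √G)) / √G ^ 2 * (2 * s ^ K * (M - u * q - K * q * u)) =
      (√G)⁻¹ * (-(M / q) + u + K * u) := by
    rw [e13, hGd]
    have : √(s ^ K * q) ≠ 0 := hr0
    generalize √(s ^ K * q) = w at this ⊢
    field_simp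
    ring
  rw [e14, ← mul_add]
  have e15 : (√(s⁻¹ ^ (Module.finrank ℝ E + 1 + a)))⁻¹ * (√G)⁻¹ = √(s / q) := by
    have e16 : s⁻¹ ^ (Module.finrank ℝ E + 1 + a) = (s ^ K)⁻¹ * s⁻¹ := by
      rw [hK, ← inv_pow]
      ring
    rw [e16, hGd, ← Real.sqrt_inv, ← Real.sqrt_inv, ← Real.sqrt_mul (by positivity)]
    congr 1
    field_simp
  rw [← mul_assoc, e15]
  congr 1
  rw [hK]
  push_cast
  ring

/-- the general theorem -/
theorem general [Nontrivial E] {a : ℕ} (ha : 0 < a) {P : E → E →L[ℝ] E} (hP : Vertical a P)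
    {H : ℝ} {ρ : E → ℝ} (hs : ContDiffOn ℝ 3 ρ (Metric.ball 0 1))
    (hv : ∀ y ∈ Metric.ball (0 : E) 1, P y (gradient ρ y) = 0)
    (hbd : ∃ R : ℝ, R < 1 ∧ ∀ z ∈ Metric.ball (0 : E) 1, ρ z ≤ 0 → ‖z‖ ≤ R)
    (hne : ∃ z ∈ Metric.ball (0 : E) 1, ρ z < 0)
    (hreg : ∀ z ∈ Metric.ball (0 : E) 1, ρ z = 0 → fderiv ℝ ρ z ≠ 0)
    (heq : ∀ z ∈ Metric.ball (0 : E) 1, ρ z = 0 → meanCurv (ballMetric P) ρ z = H) :
    ∃ R : ℝ, 0 < R ∧ R < 1 ∧ ∀ z ∈ Metric.ball (0 : E) 1,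
      (ρ z < 0 ↔ ‖z‖ < R) ∧ (ρ z = 0 ↔ ‖z‖ = R) := by
  refine round_ball (a := (a : ℝ)) (by exact_mod_cast ha) hs hbd hne hreg ?_ (H := H)
  intro z hz h0
  rw [← meanCurv_ball hP hs hv hz (hreg z hz h0)]
  exact heq z hz h0

/-- the vertical projection of complex hyperbolic space: `v ↦ ‖z‖⁻² ⟪i z, v⟫ i z` (real inner product) -/
noncomputable def PC (n : ℕ) (z : EuclideanSpace ℂ (Fin n)) :
    EuclideanSpace ℂ (Fin n) →L[ℝ] EuclideanSpace ℂ (Fin n) :=
  (‖z‖ ^ 2)⁻¹ • radial (Complex.I • z)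

private theorem G4_inner {n : ℕ} (x y : EuclideanSpace ℂ (Fin n)) :
    inner ℝ x y = (inner ℂ x y).re := by
  simp [PiLp.inner_apply]

private theorem G4_apply {n : ℕ} (z v : EuclideanSpace ℂ (Fin n)) :
    PC n z v = ((‖z‖ ^ 2)⁻¹ * inner ℝ (Complex.I • z) v) • (Complex.I • z) := by
  show (‖z‖ ^ 2)⁻¹ • (inner ℝ (Complex.I • z) v • (Complex.I • z)) = _
  rw [smul_smul]

private theorem G4_inner_I {n : ℕ} (z v : EuclideanSpace ℂ (Fin n)) :
    inner ℝ (Complex.I • z) v = (inner ℂ z v).im := by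
  rw [G4_inner, inner_smul_left]
  simp

private theorem G4_norm_I {n : ℕ} (z : EuclideanSpace ℂ (Fin n)) :
    inner ℝ (Complex.I • z) (Complex.I • z) = ‖z‖ ^ 2 := by
  rw [real_inner_self_eq_norm_sq, norm_smul, Complex.norm_I, one_mul]

/-- piece `G4` -/
theorem vertical_PC (n : ℕ) : Vertical 1 (PC n) := by
  constructor
  · intro z u v
    rw [G4_apply, G4_apply, real_inner_smul_left, real_inner_smul_right,
      real_inner_comm u (Complex.I • z)]
    ring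
  · intro z u
    rw [G4_apply z u, map_smul, G4_apply z (Complex.I • z), G4_norm_I, smul_smul]
    by_cases hz : z = 0
    · rw [hz]
      simp
    · have h1 : ‖z‖ ^ 2 ≠ 0 := by
        have := norm_pos_iff.2 hz
        positivity
      congr 1
      field_simp
  · intro z
    have h1 : (inner ℂ z z).im = 0 := inner_self_im (𝕜 := ℂ) z
    rw [G4_apply, G4_inner_I, h1, mul_zero, zero_smul]
  · intro z hz
    have h1 : LinearMap.range (PC n z : EuclideanSpace ℂ (Fin n) →ₗ[ℝ] EuclideanSpace ℂ (Fin n)) =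
        Submodule.span ℝ {Complex.I • z} := by
      apply le_antisymm
      · rintro _ ⟨v, rfl⟩
        rw [ContinuousLinearMap.coe_coe, G4_apply]
        exact Submodule.smul_mem _ _ (Submodule.mem_span_singleton_self _)
      · rw [Submodule.span_le, Set.singleton_subset_iff]
        refine ⟨Complex.I • z, ?_⟩
        rw [ContinuousLinearMap.coe_coe, G4_apply, G4_norm_I]
        have h1 : ‖z‖ ^ 2 ≠ 0 := by
          have := norm_pos_iff.2 hz
          positivity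
        rw [inv_mul_cancel₀ h1, one_smul]
    rw [h1]
    exact finrank_span_singleton (smul_ne_zero Complex.I_ne_zero hz)

/-- piece `G4`: `⟪z, v⟫_ℂ z = ⟪z, v⟫ z + ⟪i z, v⟫ i z` -/
theorem bergman_eq (n : ℕ) : bergman n = ballMetric (PC n) := by
  funext z
  ext1 v
  have h1 : bergman n z v = (1 - ‖z‖ ^ 2)⁻¹ • v + ((1 - ‖z‖ ^ 2) ^ 2)⁻¹ • ((inner ℂ z v) • z) := rfl
  have h2 : ballMetric (PC n) z v = (1 - ‖z‖ ^ 2)⁻¹ • v +
    ((1 - ‖z‖ ^ 2) ^ 2)⁻¹ • (inner ℝ z v • z + ‖z‖ ^ 2 • PC n z v) := rfl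
  rw [h1, h2, G4_apply, G4_inner_I, G4_inner]
  congr 2
  by_cases hz : z = 0
  · rw [hz]
    simp
  · have h3 : ‖z‖ ^ 2 ≠ 0 := by
      have := norm_pos_iff.2 hz
      positivity
    rw [smul_smul, ← mul_assoc, mul_inv_cancel₀ h3, one_mul]
    conv_lhs => rw [← Complex.re_add_im (inner ℂ z v)]
    rw [add_smul, mul_smul]
    rfl

/-- piece `G4`: a circle invariant function has no vertical derivative: differentiate
`ρ (e^{iθ} z) = ρ z` at `θ = 0`: `⟪∇ρ, i z⟫ = 0`. -/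
theorem circle_vertical {n : ℕ} {ρ : EuclideanSpace ℂ (Fin n) → ℝ}
    (hs : ContDiffOn ℝ 3 ρ (Metric.ball 0 1))
    (hc : ∀ z ∈ Metric.ball (0 : EuclideanSpace ℂ (Fin n)) 1, ∀ θ : ℝ,
      ρ (Complex.exp (θ * Complex.I) • z) = ρ z) :
    ∀ y ∈ Metric.ball (0 : EuclideanSpace ℂ (Fin n)) 1, PC n y (gradient ρ y) = 0 := by
  intro y hy
  have hd : DifferentiableAt ℝ ρ y :=
    (hs.contDiffAt (Metric.isOpen_ball.mem_nhds hy)).differentiableAt (by norm_num)
  have h1 : HasDerivAt (fun θ : ℝ => Complex.exp (θ * Complex.I) • y) (Complex.I • y) 0 := by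
    have h2 : HasDerivAt (fun θ : ℝ => Complex.exp (θ * Complex.I)) Complex.I 0 := by
      have h3 : HasDerivAt (fun θ : ℝ => (θ : ℂ) * Complex.I) (1 * Complex.I) 0 :=
        (Complex.ofRealCLM.hasDerivAt).mul_const Complex.I
      have h4 := h3.cexp
      simpa using h4
    exact h2.smul_const y
  have h5 : HasFDerivAt ρ (fderiv ℝ ρ y) (Complex.exp ((0 : ℝ) * Complex.I) • y) := by
    simpa using hd.hasFDerivAt
  have h6 := h5.comp_hasDerivAt (0 : ℝ) h1
  have h7 : (ρ ∘ fun θ : ℝ => Complex.exp (θ * Complex.I) • y) = fun _ => ρ y := by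
    funext θ
    exact hc y hy θ
  rw [h7] at h6
  have h8 : fderiv ℝ ρ y (Complex.I • y) = 0 := h6.unique (hasDerivAt_const (0 : ℝ) (ρ y))
  have h9 : inner ℝ (Complex.I • y) (gradient ρ y) = 0 := by
    rw [real_inner_comm, gradient, InnerProductSpace.toDual_symm_apply]
    exact h8
  rw [G4_apply, h9, mul_zero, zero_smul]

end Pool.Agent.Helper41.ALX
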