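import Pool.Agent.Helper41.ALX.Frame

/-! # ALX, pieces K1, K2: calculus on the cone -/

set_option autoImplicit false
set_option linter.unusedSectionVars false
set_option linter.unusedVariables false

namespace Pool.Agent.Helper41.ALX

open Filter Topology
open scoped ContDiff

variable {E : Type*} [NormedAddCommGroup E] [InnerProductSpace ℝ E] [FiniteDimensional ℝ E]

variable {F : ℝ × E → ℝ} (hs : ContDiffOn ℝ 3 F (Cone E))

include hs

omit hs [FiniteDimensional ℝ E] in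
private theorem K1_open : IsOpen (Cone E) := by
  unfold Cone
  exact isOpen_lt (by fun_prop) (by fun_prop)

omit [FiniteDimensional ℝ E] in
private theorem K1_at {X : ℝ × E} (hX : X ∈ Cone E) : ContDiffAt ℝ 3 F X :=
  hs.contDiffAt (K1_open.mem_nhds hX)

omit hs [FiniteDimensional ℝ E] in
private theorem K1_gen2 {G : Type*} [NormedAddCommGroup G] [NormedSpace ℝ G] {f : G → ℝ} {X : G}
    (h : ContDiffAt ℝ 3 f X) :
    HasFDerivAt (fun Y => fderiv ℝ f Y) (fderiv ℝ (fun Y => fderiv ℝ f Y) X) X := by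
  have h1 : ContDiffAt ℝ 2 (fun Y => fderiv ℝ f Y) X := h.fderiv_right (m := 2) (by norm_num)
  exact (h1.differentiableAt (by norm_num)).hasFDerivAt

omit hs [FiniteDimensional ℝ E] in
private theorem K1_gen3 {G : Type*} [NormedAddCommGroup G] [NormedSpace ℝ G] {f : G → ℝ} {X : G}
    (h : ContDiffAt ℝ 3 f X) :
    HasFDerivAt (fun Y => fderiv ℝ (fun Z => fderiv ℝ f Z) Y)
      (fderiv ℝ (fun Y => fderiv ℝ (fun Z => fderiv ℝ f Z) Y) X) X := by
  have h1 : ContDiffAt ℝ 2 (fun Y => fderiv ℝ f Y) X := h.fderiv_right (m := 2) (by norm_num)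
  have h2 : ContDiffAt ℝ 1 (fun Y => fderiv ℝ (fun Z => fderiv ℝ f Z) Y) X :=
    h1.fderiv_right (m := 1) (by norm_num)
  exact (h2.differentiableAt (by norm_num)).hasFDerivAt

omit hs [FiniteDimensional ℝ E] in
private theorem K1_gen4 {G : Type*} [NormedAddCommGroup G] [NormedSpace ℝ G] {f : G → ℝ} {X : G}
    (h : ContDiffAt ℝ 3 f X) (u v : G) :
    fderiv ℝ (fun Y => fderiv ℝ f Y) X u v = fderiv ℝ (fun Y => fderiv ℝ f Y) X v u := by
  have h1 : minSmoothness ℝ 2 ≤ (3 : WithTop ℕ∞) := by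
    rw [minSmoothness_of_isRCLikeNormedField]
    norm_num
  exact (h.isSymmSndFDerivAt h1) u v

omit hs [FiniteDimensional ℝ E] in
private theorem K1_gen5 {G : Type*} [NormedAddCommGroup G] [NormedSpace ℝ G] {f : G → ℝ} {X : G}
    (h : ContDiffAt ℝ 3 f X) (u v w : G) :
    fderiv ℝ (fun Y => fderiv ℝ (fun Z => fderiv ℝ f Z) Y) X u v w =
      fderiv ℝ (fun Y => fderiv ℝ (fun Z => fderiv ℝ f Z) Y) X v u w := by
  have h1 : ContDiffAt ℝ 2 (fun Y => fderiv ℝ f Y) X := h.fderiv_right (m := 2) (by norm_num)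
  have h2 := (h1.isSymmSndFDerivAt (by
    rw [minSmoothness_of_isRCLikeNormedField])) u v
  exact congrArg (fun l : G →L[ℝ] ℝ => l w) h2

omit hs [FiniteDimensional ℝ E] in
private theorem K1_gen6 {G : Type*} [NormedAddCommGroup G] [NormedSpace ℝ G] {f : G → ℝ}
    {s : Set G} (ho : IsOpen s) (h : ContDiffOn ℝ 3 f s) {X : G} (hX : X ∈ s) (u v w : G) :
    fderiv ℝ (fun Y => fderiv ℝ (fun Z => fderiv ℝ f Z) Y) X u v w =
      fderiv ℝ (fun Y => fderiv ℝ (fun Z => fderiv ℝ f Z) Y) X u w v := by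
  have h0 := K1_gen3 (h.contDiffAt (ho.mem_nhds hX))
  have h1 := (h0.clm_apply (hasFDerivAt_const v X)).clm_apply (hasFDerivAt_const w X)
  have h1' := (h0.clm_apply (hasFDerivAt_const w X)).clm_apply (hasFDerivAt_const v X)
  have h2 : (fun Y => fderiv ℝ (fun Z => fderiv ℝ f Z) Y v w) =ᶠ[𝓝 X]
      fun Y => fderiv ℝ (fun Z => fderiv ℝ f Z) Y w v := by
    filter_upwards [ho.mem_nhds hX] with Y hY
    exact K1_gen4 (h.contDiffAt (ho.mem_nhds hY)) v w
  have h3 := h1.unique (h1'.congr_of_eventuallyEq h2)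
  have h4 := congrArg (fun l : G →L[ℝ] ℝ => l u) h3
  simpa using h4

/-- piece `K1` -/
theorem hasD1 {X : ℝ × E} (hX : X ∈ Cone E) : HasFDerivAt F (D1 F X) X :=
  ((K1_at hs hX).differentiableAt (by norm_num)).hasFDerivAt

/-- piece `K1` -/
theorem hasD2 {X : ℝ × E} (hX : X ∈ Cone E) : HasFDerivAt (fun Y => D1 F Y) (D2 F X) X :=
  K1_gen2 (K1_at hs hX)

/-- piece `K1` -/
theorem hasD3 {X : ℝ × E} (hX : X ∈ Cone E) : HasFDerivAt (fun Y => D2 F Y) (D3 F X) X :=
  K1_gen3 (K1_at hs hX)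

/-- piece `K1` (`second_derivative_symmetric` or `ContDiffAt.isSymmSndFDerivAt`) -/
theorem D2_symm {X : ℝ × E} (hX : X ∈ Cone E) (u v : ℝ × E) : D2 F X u v = D2 F X v u :=
  K1_gen4 (K1_at hs hX) u v

/-- piece `K1`: symmetry of the second derivative of `D1 F` -/
theorem D3_symm12 {X : ℝ × E} (hX : X ∈ Cone E) (u v w : ℝ × E) :
    D3 F X u v w = D3 F X v u w :=
  K1_gen5 (K1_at hs hX) u v w

/-- piece `K1`: differentiate `D2_symm` -/
theorem D3_symm23 {X : ℝ × E} (hX : X ∈ Cone E) (u v w : ℝ × E) :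
    D3 F X u v w = D3 F X u w v :=
  K1_gen6 K1_open hs hX u v w

variable (hh : ∀ X ∈ Cone E, ∀ t : ℝ, 0 < t → F (t • X) = F X)

include hh

/-- piece `K2`: differentiate `F (t • X) = F X` at `t = 1` -/
theorem D1_self {X : ℝ × E} (hX : X ∈ Cone E) : D1 F X X = 0 := by
  have h1 : HasDerivAt (fun t : ℝ => t • X) X 1 := by
    simpa using (hasDerivAt_id (1 : ℝ)).smul_const X
  have h2 : HasFDerivAt F (D1 F X) ((1 : ℝ) • X) := by
    rw [one_smul]
    exact hasD1 hs hX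
  have h3 : HasDerivAt (fun t : ℝ => F (t • X)) (D1 F X X) 1 := h2.comp_hasDerivAt (1 : ℝ) h1
  have h4 : (fun t : ℝ => F (t • X)) =ᶠ[𝓝 1] fun _ => F X := by
    filter_upwards [lt_mem_nhds (zero_lt_one (α := ℝ))] with t ht
    exact hh X hX t ht
  exact h3.unique ((hasDerivAt_const (1 : ℝ) (F X)).congr_of_eventuallyEq h4)

/-- piece `K2`: differentiate `D1 F Y Y = 0` in the direction `v` -/
theorem D2_self {X : ℝ × E} (hX : X ∈ Cone E) (v : ℝ × E) : D2 F X v X = -D1 F X v := by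
  have h1 := (hasD2 hs hX).clm_apply (hasFDerivAt_id X)
  have h2 : (fun Y => (D1 F Y) (id Y)) =ᶠ[𝓝 X] fun _ => (0 : ℝ) := by
    filter_upwards [isOpen_Cone.mem_nhds hX] with Y hY
    exact D1_self hs hh hY
  have h3 := h1.unique ((hasFDerivAt_const (0 : ℝ) X).congr_of_eventuallyEq h2)
  have h4 := DFunLike.congr_fun h3 v
  simp only [_root_.add_apply, ContinuousLinearMap.comp_apply,
    ContinuousLinearMap.flip_apply, _root_.zero_apply, id_eq,
    ContinuousLinearMap.coe_id'] at h4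
  linarith

/-- piece `K2`: differentiate `D2 F Y Y Y = 0` (it is `-D1 F Y Y = 0`) in the direction `v`:
`D3 F X v X X + 2 * D2 F X v X = 0`, and `D2 F X v X = - D1 F X v`. -/
theorem D3_self {X : ℝ × E} (hX : X ∈ Cone E) (v : ℝ × E) :
    D3 F X v X X = 2 * D1 F X v := by
  have h0 := hasD3 hs hX
  have h1' := HasFDerivAt.clm_apply (𝕜 := ℝ) (E := ℝ × E) (G := ℝ × E)
    (H := (ℝ × E) →L[ℝ] ℝ) (c := fun Y => D2 F Y) (u := id) h0 (hasFDerivAt_id X)
  have h1 := h1'.clm_apply (hasFDerivAt_id X)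
  have h2 : (fun Y => (D2 F Y) (id Y) (id Y)) =ᶠ[𝓝 X] fun _ => (0 : ℝ) := by
    filter_upwards [isOpen_Cone.mem_nhds hX] with Y hY
    change D2 F Y Y Y = 0
    rw [D2_self hs hh hY Y, D1_self hs hh hY, neg_zero]
  have h3 := h1.unique ((hasFDerivAt_const (0 : ℝ) X).congr_of_eventuallyEq h2)
  have h4 := DFunLike.congr_fun h3 v
  simp only [_root_.add_apply, ContinuousLinearMap.comp_apply,
    ContinuousLinearMap.flip_apply, _root_.zero_apply, id_eq,
    ContinuousLinearMap.coe_id'] at h4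
  have h5 := D2_self hs hh hX v
  have h6 := D2_symm hs hX X v
  linarith

/-- piece `K2`: the derivatives are homogeneous: `D1 F (t • X) = t⁻¹ • D1 F X` -/
theorem D1_smul {X : ℝ × E} (hX : X ∈ Cone E) {t : ℝ} (ht : 0 < t) :
    D1 F (t • X) = t⁻¹ • D1 F X := by
  have h1 : HasFDerivAt (fun Y : ℝ × E => t • Y) (t • ContinuousLinearMap.id ℝ (ℝ × E)) X :=
    (hasFDerivAt_id X).const_smul t
  have h2 : HasFDerivAt (fun Y : ℝ × E => F (t • Y))
      ((D1 F (t • X)).comp (t • ContinuousLinearMap.id ℝ (ℝ × E))) X :=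
    (hasD1 hs (cone_smul hX ht)).comp X h1
  have h3 : (fun Y : ℝ × E => F (t • Y)) =ᶠ[𝓝 X] F := by
    filter_upwards [isOpen_Cone.mem_nhds hX] with Y hY
    exact hh Y hY t ht
  have h4 := h2.unique ((hasD1 hs hX).congr_of_eventuallyEq h3)
  refine ContinuousLinearMap.ext fun v => ?_
  have h5 : D1 F (t • X) (t • v) = D1 F X v := DFunLike.congr_fun h4 v
  rw [map_smul, smul_eq_mul] at h5
  change D1 F (t • X) v = t⁻¹ * D1 F X v
  rw [← h5, ← mul_assoc, inv_mul_cancel₀ ht.ne', one_mul]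

end Pool.Agent.Helper41.ALX
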