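import Pool.Agent.Helper41.ALX.Cal

/-! # ALX, pieces V1, V2, V3: signs along curves -/

set_option autoImplicit false
set_option linter.unusedSectionVars false
set_option linter.unusedVariables false

namespace Pool.Agent.Helper41.ALX

open Filter Topology
open scoped ContDiff

/-- piece `V1`: if `f 0 = 0`, `f' 0 < 0` then `f < 0` on a right neighbourhood -/
theorem sign1 {f : ℝ → ℝ} {c : ℝ} (h0 : f 0 = 0) (h : HasDerivAt f c 0) (hc : c < 0) :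
    ∀ᶠ ε in 𝓝[>] (0:ℝ), f ε < 0 := by
  have h1 := (hasDerivAt_iff_tendsto_slope_zero.mp h).eventually (gt_mem_nhds hc)
  have h2 : ∀ᶠ t in 𝓝[>] (0:ℝ), t⁻¹ • (f (0 + t) - f 0) < 0 :=
    h1.filter_mono (nhdsWithin_mono _ (fun t ht => ne_of_gt ht))
  filter_upwards [h2, self_mem_nhdsWithin] with t ht ht0
  have ht1 : (0:ℝ) < t := ht0
  rw [h0, zero_add, sub_zero, smul_eq_mul] at ht
  by_contra hcon
  push Not at hcon
  have := mul_nonneg (inv_nonneg.mpr ht1.le) hcon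
  linarith

/-- piece `V1`: if `f' < 0` on a right neighbourhood and `f 0 = 0` then `f < 0` there
(mean value theorem / `strictAntiOn_of_deriv_neg`) -/
theorem sign_int {f f' : ℝ → ℝ} (h0 : f 0 = 0) (h : ∀ᶠ ε in 𝓝 (0:ℝ), HasDerivAt f (f' ε) ε)
    (hc : ∀ᶠ ε in 𝓝[>] (0:ℝ), f' ε < 0) : ∀ᶠ ε in 𝓝[>] (0:ℝ), f ε < 0 := by
  obtain ⟨d, hd, hd1⟩ := Metric.eventually_nhds_iff.mp h
  obtain ⟨e, he, he1⟩ := mem_nhdsGT_iff_exists_Ioo_subset.mp hc
  have he0 : (0:ℝ) < e := he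
  have hmem : Set.Ioo (0:ℝ) (min d e) ∈ 𝓝[>] (0:ℝ) := Ioo_mem_nhdsGT (lt_min hd he0)
  filter_upwards [hmem] with t ht
  have hD : ∀ x ∈ Set.Icc (0:ℝ) t, HasDerivAt f (f' x) x := by
    intro x hx
    apply hd1
    rw [Real.dist_eq, sub_zero, abs_of_nonneg hx.1]
    exact lt_of_le_of_lt hx.2 (lt_of_lt_of_le ht.2 (min_le_left _ _))
  obtain ⟨x, hx, hx1⟩ := exists_hasDerivAt_eq_slope f f' ht.1
    (fun x hx => (hD x hx).continuousAt.continuousWithinAt)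
    (fun x hx => hD x ⟨hx.1.le, hx.2.le⟩)
  have hx2 : f' x < 0 := he1 ⟨hx.1, lt_trans hx.2 (lt_of_lt_of_le ht.2 (min_le_right _ _))⟩
  rw [hx1, h0, sub_zero, sub_zero] at hx2
  by_contra hcon
  push Not at hcon
  have := div_nonneg hcon ht.1.le
  linarith

variable {E : Type*} [NormedAddCommGroup E] [InnerProductSpace ℝ E] [FiniteDimensional ℝ E]

/-- a polynomial curve through `X` -/
def crv (X v w z y : ℝ × E) (ε : ℝ) : ℝ × E := X + ε • v + ε ^ 2 • w + ε ^ 3 • z + ε ^ 4 • y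

theorem crv_zero (X v w z y : ℝ × E) : crv X v w z y 0 = X := by
  simp [crv]

theorem crv_cont (X v w z y : ℝ × E) : Continuous (crv X v w z y) := by
  unfold crv
  fun_prop

theorem crv_cone {X : ℝ × E} (hX : X ∈ Cone E) (v w z y : ℝ × E) :
    ∀ᶠ ε in 𝓝 (0:ℝ), crv X v w z y ε ∈ Cone E := by
  have h := (crv_cont X v w z y).continuousAt (x := 0)
  have h2 : crv X v w z y 0 ∈ Cone E := by rw [crv_zero]; exact hX
  exact h.eventually_mem (isOpen_Cone.mem_nhds h2)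

/-- first derivative of `crv` -/
private def V2_c1 (v w z y : ℝ × E) (ε : ℝ) : ℝ × E :=
  v + (2 * ε) • w + (3 * ε ^ 2) • z + (4 * ε ^ 3) • y

/-- second derivative of `crv` -/
private def V2_c2 (w z y : ℝ × E) (ε : ℝ) : ℝ × E := (2 : ℝ) • w + (6 * ε) • z + (12 * ε ^ 2) • y

omit [FiniteDimensional ℝ E] in
private theorem V2_deriv0 (X v w z y : ℝ × E) (ε : ℝ) :
    HasDerivAt (crv X v w z y) (V2_c1 v w z y ε) ε := by
  have h1 : HasDerivAt (fun t : ℝ => t • v) ((1 : ℝ) • v) ε := (hasDerivAt_id ε).smul_const v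
  have h2 : HasDerivAt (fun t : ℝ => t ^ 2 • w) ((2 * ε) • w) ε := by
    have := (hasDerivAt_pow 2 ε).smul_const w
    simpa using this
  have h3 : HasDerivAt (fun t : ℝ => t ^ 3 • z) ((3 * ε ^ 2) • z) ε := by
    have := (hasDerivAt_pow 3 ε).smul_const z
    simpa using this
  have h4 : HasDerivAt (fun t : ℝ => t ^ 4 • y) ((4 * ε ^ 3) • y) ε := by
    have := (hasDerivAt_pow 4 ε).smul_const y
    simpa using this
  have h5 := (((hasDerivAt_const ε X).add h1).add h2).add h3 |>.add h4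
  refine h5.congr_deriv ?_
  unfold V2_c1
  rw [zero_add, one_smul]

omit [FiniteDimensional ℝ E] in
private theorem V2_deriv1 (v w z y : ℝ × E) (ε : ℝ) :
    HasDerivAt (V2_c1 v w z y) (V2_c2 w z y ε) ε := by
  have h2 : HasDerivAt (fun t : ℝ => (2 * t) • w) ((2 : ℝ) • w) ε := by
    have := ((hasDerivAt_id ε).const_mul 2).smul_const w
    simpa using this
  have h3 : HasDerivAt (fun t : ℝ => (3 * t ^ 2) • z) ((6 * ε) • z) ε := by
    have := ((hasDerivAt_pow 2 ε).const_mul 3).smul_const z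
    refine this.congr_deriv ?_
    congr 1
    norm_num
    ring
  have h4 : HasDerivAt (fun t : ℝ => (4 * t ^ 3) • y) ((12 * ε ^ 2) • y) ε := by
    have := ((hasDerivAt_pow 3 ε).const_mul 4).smul_const y
    refine this.congr_deriv ?_
    congr 1
    norm_num
    ring
  have h5 := (((hasDerivAt_const ε v).add h2).add h3).add h4
  refine h5.congr_deriv ?_
  unfold V2_c2
  rw [zero_add]

omit [FiniteDimensional ℝ E] in
private theorem V2_deriv2 (w z y : ℝ × E) :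
    HasDerivAt (V2_c2 w z y) ((6 : ℝ) • z) 0 := by
  have h3 : HasDerivAt (fun t : ℝ => (6 * t) • z) ((6 : ℝ) • z) 0 := by
    have := ((hasDerivAt_id (0 : ℝ)).const_mul 6).smul_const z
    simpa using this
  have h4 : HasDerivAt (fun t : ℝ => (12 * t ^ 2) • y) ((0 : ℝ) • y) 0 := by
    have := ((hasDerivAt_pow 2 (0 : ℝ)).const_mul 12).smul_const y
    simpa using this
  have h5 := ((hasDerivAt_const (0 : ℝ) ((2 : ℝ) • w)).add h3).add h4
  refine h5.congr_deriv ?_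
  rw [zero_add, zero_smul, add_zero]

private theorem V2_comp {V W : Type*} [NormedAddCommGroup V] [NormedSpace ℝ V]
    [NormedAddCommGroup W] [NormedSpace ℝ W] {G : V → W} {c : ℝ → V} {c' : V} {G' : V →L[ℝ] W}
    {t : ℝ} (h : HasFDerivAt G G' (c t)) (hc : HasDerivAt c c' t) :
    HasDerivAt (fun s => G (c s)) (G' c') t := h.comp_hasDerivAt t hc

private theorem V2_gen {V : Type*} [NormedAddCommGroup V] [NormedSpace ℝ V] {F : V → ℝ}
    {c c1 c2 : ℝ → V} {c3 : V} (h1 : ∀ ε, HasDerivAt c (c1 ε) ε)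
    (h2 : ∀ ε, HasDerivAt c1 (c2 ε) ε) (h3 : HasDerivAt c2 c3 0)
    (k1 : ∀ᶠ ε in 𝓝 (0:ℝ), HasFDerivAt F (fderiv ℝ F (c ε)) (c ε))
    (k2 : ∀ᶠ ε in 𝓝 (0:ℝ), HasFDerivAt (fun Y => fderiv ℝ F Y)
      (fderiv ℝ (fun Y => fderiv ℝ F Y) (c ε)) (c ε))
    (k3 : HasFDerivAt (fun Y => fderiv ℝ (fun Z => fderiv ℝ F Z) Y)
      (fderiv ℝ (fun Y => fderiv ℝ (fun Z => fderiv ℝ F Z) Y) (c 0)) (c 0)) :
    (∀ᶠ ε in 𝓝 (0:ℝ), HasDerivAt (fun t => F (c t)) ((fun ε => fderiv ℝ F (c ε) (c1 ε)) ε) ε) ∧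
    (∀ᶠ ε in 𝓝 (0:ℝ), HasDerivAt (fun ε => fderiv ℝ F (c ε) (c1 ε))
      ((fun ε => fderiv ℝ (fun Y => fderiv ℝ F Y) (c ε) (c1 ε) (c1 ε) +
        fderiv ℝ F (c ε) (c2 ε)) ε) ε) ∧
    HasDerivAt (fun ε => fderiv ℝ (fun Y => fderiv ℝ F Y) (c ε) (c1 ε) (c1 ε) +
        fderiv ℝ F (c ε) (c2 ε))
      (fderiv ℝ (fun Y => fderiv ℝ (fun Z => fderiv ℝ F Z) Y) (c 0) (c1 0) (c1 0) (c1 0) +
        fderiv ℝ (fun Y => fderiv ℝ F Y) (c 0) (c2 0) (c1 0) +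
        fderiv ℝ (fun Y => fderiv ℝ F Y) (c 0) (c1 0) (c2 0) +
        (fderiv ℝ (fun Y => fderiv ℝ F Y) (c 0) (c1 0) (c2 0) + fderiv ℝ F (c 0) c3)) 0 := by
  refine ⟨?_, ?_, ?_⟩
  · filter_upwards [k1] with ε hε
    exact hε.comp_hasDerivAt ε (h1 ε)
  · filter_upwards [k2] with ε hε
    exact (hε.comp_hasDerivAt ε (h1 ε)).clm_apply (h2 ε)
  · have h4 := k2.self_of_nhds.comp_hasDerivAt 0 (h1 0)
    have h5 : HasDerivAt (fun t => fderiv ℝ (fun Y => fderiv ℝ F Y) (c t))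
        (fderiv ℝ (fun Y => fderiv ℝ (fun Z => fderiv ℝ F Z) Y) (c 0) (c1 0)) 0 :=
      V2_comp (V := V) (W := V →L[ℝ] V →L[ℝ] ℝ) (G := fun Y => fderiv ℝ (fun Z => fderiv ℝ F Z) Y)
        k3 (h1 0)
    have h6 := ((h5.clm_apply (h2 0)).clm_apply (h2 0)).add (h4.clm_apply h3)
    refine HasDerivAt.congr_deriv (f := fun ε => fderiv ℝ (fun Y => fderiv ℝ F Y) (c ε) (c1 ε)
      (c1 ε) + fderiv ℝ F (c ε) (c2 ε)) h6 ?_
    simp only [Function.comp_apply, _root_.add_apply]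

variable {F : ℝ × E → ℝ} (hs : ContDiffOn ℝ 3 F (Cone E))

include hs

/-- piece `V2`: with `c = crv X v w z y`, `c' = v + 2 ε w + 3 ε² z + 4 ε³ y`, `c'' = 2 w + 6 ε z + 12 ε² y`,
`f = F ∘ c` has `f' = D1 F c c'`, `f'' = D2 F c c' c' + D1 F c c''` near `0`, and `f''` has the derivative
`D3 F X v v v + 6 D2 F X v w + 6 D1 F X z` at `0` (chain rule, `hasD1`, `hasD2`, `hasD3`, `D2_symm`). -/
theorem crv_derivs {X : ℝ × E} (hX : X ∈ Cone E) (v w z y : ℝ × E) :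
    ∃ f1 f2 : ℝ → ℝ, (∀ᶠ ε in 𝓝 (0:ℝ), HasDerivAt (fun t => F (crv X v w z y t)) (f1 ε) ε) ∧
      (∀ᶠ ε in 𝓝 (0:ℝ), HasDerivAt f1 (f2 ε) ε) ∧
      HasDerivAt f2 (D3 F X v v v + 6 * D2 F X v w + 6 * D1 F X z) 0 ∧
      f1 0 = D1 F X v ∧ f2 0 = D2 F X v v + 2 * D1 F X w := by
  have hc0 : crv X v w z y 0 = X := crv_zero X v w z y
  have h1 : ∀ ε : ℝ, HasDerivAt (crv X v w z y) (V2_c1 v w z y ε) ε := V2_deriv0 X v w z y
  have h2 : ∀ ε : ℝ, HasDerivAt (V2_c1 v w z y) (V2_c2 w z y ε) ε := V2_deriv1 v w z y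
  have h3 : HasDerivAt (V2_c2 w z y) ((6 : ℝ) • z) 0 := V2_deriv2 w z y
  have e1 : V2_c1 v w z y 0 = v := by simp [V2_c1]
  have e2 : V2_c2 w z y 0 = (2 : ℝ) • w := by simp [V2_c2]
  have hcone := crv_cone hX v w z y
  have hX0 : crv X v w z y 0 ∈ Cone E := by rw [hc0]; exact hX
  obtain ⟨g1, g2, g3⟩ := V2_gen (V := ℝ × E) (F := F) h1 h2 h3
    (by filter_upwards [hcone] with ε hε; exact hasD1 hs hε)
    (by filter_upwards [hcone] with ε hε; exact hasD2 hs hε) (hasD3 hs hX0)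
  refine ⟨_, _, g1, g2, ?_, ?_, ?_⟩
  · rw [hc0, e1, e2] at g3
    refine g3.congr_deriv ?_
    have hsym := D2_symm hs hX v w
    simp only [map_smul, _root_.smul_apply, smul_eq_mul]
    rw [hsym]
    ring
  · simp only [hc0, e1]
  · simp only [hc0, e1, e2, map_smul, smul_eq_mul]

/-- piece `V3` (`sign_int` and `sign1` for `s * f`) -/
theorem crv_sign1 {X : ℝ × E} (hX : X ∈ Cone E) (hF : F X = 0) {v : ℝ × E} (w z y : ℝ × E) {s : ℝ}
    (h : s * D1 F X v < 0) : ∀ᶠ ε in 𝓝[>] (0:ℝ), s * F (crv X v w z y ε) < 0 := by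
  obtain ⟨f1, f2, e1, -, -, h4, -⟩ := crv_derivs hs hX v w z y
  have h0 : s * F (crv X v w z y 0) = 0 := by rw [crv_zero, hF, mul_zero]
  have hd : HasDerivAt (fun t => s * F (crv X v w z y t)) (s * f1 0) 0 :=
    (e1.self_of_nhds).const_mul s
  exact sign1 (f := fun t => s * F (crv X v w z y t)) h0 hd (by rw [h4]; exact h)

/-- piece `V3` -/
theorem crv_sign2 {X : ℝ × E} (hX : X ∈ Cone E) (hF : F X = 0) {v w : ℝ × E} (z y : ℝ × E) {s : ℝ}
    (h1 : D1 F X v = 0) (h : s * (D2 F X v v + 2 * D1 F X w) < 0) :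
    ∀ᶠ ε in 𝓝[>] (0:ℝ), s * F (crv X v w z y ε) < 0 := by
  obtain ⟨f1, f2, e1, e2, -, h4, h5⟩ := crv_derivs hs hX v w z y
  have h0 : s * F (crv X v w z y 0) = 0 := by rw [crv_zero, hF, mul_zero]
  have g0 : s * f1 0 = 0 := by rw [h4, h1, mul_zero]
  have gd : HasDerivAt (fun t => s * f1 t) (s * f2 0) 0 := (e2.self_of_nhds).const_mul s
  have g : ∀ᶠ ε in 𝓝[>] (0:ℝ), s * f1 ε < 0 :=
    sign1 (f := fun t => s * f1 t) g0 gd (by rw [h5]; exact h)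
  exact sign_int (f := fun t => s * F (crv X v w z y t)) (f' := fun t => s * f1 t) h0
    (e1.mono fun ε hε => hε.const_mul s) g

/-- piece `V3` -/
theorem crv_sign3 {X : ℝ × E} (hX : X ∈ Cone E) (hF : F X = 0) {v w z : ℝ × E} (y : ℝ × E) {s : ℝ}
    (h1 : D1 F X v = 0) (h2 : D2 F X v v + 2 * D1 F X w = 0)
    (h : s * (D3 F X v v v + 6 * D2 F X v w + 6 * D1 F X z) < 0) :
    ∀ᶠ ε in 𝓝[>] (0:ℝ), s * F (crv X v w z y ε) < 0 := by
  obtain ⟨f1, f2, e1, e2, e3, h4, h5⟩ := crv_derivs hs hX v w z y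
  have h0 : s * F (crv X v w z y 0) = 0 := by rw [crv_zero, hF, mul_zero]
  have g0 : s * f1 0 = 0 := by rw [h4, h1, mul_zero]
  have k0 : s * f2 0 = 0 := by rw [h5, h2, mul_zero]
  have k : ∀ᶠ ε in 𝓝[>] (0:ℝ), s * f2 ε < 0 :=
    sign1 (f := fun t => s * f2 t) k0 (e3.const_mul s) h
  have g : ∀ᶠ ε in 𝓝[>] (0:ℝ), s * f1 ε < 0 :=
    sign_int (f := fun t => s * f1 t) (f' := fun t => s * f2 t) g0
      (e2.mono fun ε hε => hε.const_mul s) k
  exact sign_int (f := fun t => s * F (crv X v w z y t)) (f' := fun t => s * f1 t) h0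
    (e1.mono fun ε hε => hε.const_mul s) g

end Pool.Agent.Helper41.ALX
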