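import Mathlib

/-!
# Project ALX (MP_b769bb_gt): definitions

`E` is a finite dimensional real inner product space, `ℝ × E` carries the Lorentz form `B`.
Hyperbolic space is `{X | B X X = -1, 0 < X.1}`; `F` is a function on the future cone `Cone` which is
homogeneous of degree `0`. `{F < 0}` is a domain, `{F = 0}` its boundary, `Emean a F X` (at points with
`B X X = -1`) the mean curvature of `{F = 0}` plus `a` times the normal derivative of `log X.1`
(`X.1` is the hyperbolic cosine of the distance to the base point `(1, 0)`).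
-/

set_option autoImplicit false

namespace Pool.Agent.Helper41.ALX

open scoped ContDiff

variable {E : Type*} [NormedAddCommGroup E] [InnerProductSpace ℝ E]

/-- Lorentz form on `ℝ × E` -/
noncomputable def B (X Y : ℝ × E) : ℝ := inner ℝ X.2 Y.2 - X.1 * Y.1

/-- the future cone -/
def Cone (E : Type*) [NormedAddCommGroup E] [InnerProductSpace ℝ E] : Set (ℝ × E) :=
  {X | ‖X.2‖ < X.1}

/-- reflection in the hyperplane orthogonal to `n` (for `B n n = 1`) -/
noncomputable def refl (n X : ℝ × E) : ℝ × E := X - (2 * B X n) • n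

/-- Lorentz gradient of a linear functional: `B (gradL l) v = l v` -/
noncomputable def gradL [CompleteSpace E] (l : (ℝ × E) →L[ℝ] ℝ) : ℝ × E :=
  (-l (1, 0), (InnerProductSpace.toDual ℝ E).symm (l.comp (ContinuousLinearMap.inr ℝ ℝ E)))

/-- first derivative -/
noncomputable abbrev D1 (F : ℝ × E → ℝ) (X : ℝ × E) : (ℝ × E) →L[ℝ] ℝ := fderiv ℝ F X

/-- second derivative -/
noncomputable abbrev D2 (F : ℝ × E → ℝ) (X : ℝ × E) : (ℝ × E) →L[ℝ] (ℝ × E) →L[ℝ] ℝ :=
  fderiv ℝ (fun Y => fderiv ℝ F Y) X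

/-- third derivative -/
noncomputable abbrev D3 (F : ℝ × E → ℝ) (X : ℝ × E) :
    (ℝ × E) →L[ℝ] (ℝ × E) →L[ℝ] (ℝ × E) →L[ℝ] ℝ :=
  fderiv ℝ (fun Y => fderiv ℝ (fun Z => fderiv ℝ F Z) Y) X

/-- Lorentz trace of a bilinear form -/
noncomputable def trB [FiniteDimensional ℝ E] (Q : (ℝ × E) →L[ℝ] (ℝ × E) →L[ℝ] ℝ) : ℝ :=
  (∑ i, Q (0, stdOrthonormalBasis ℝ E i) (0, stdOrthonormalBasis ℝ E i)) - Q (1, 0) (1, 0)

variable [FiniteDimensional ℝ E]

/-- square of the norm of the Lorentz gradient -/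
noncomputable def qq (F : ℝ × E → ℝ) (X : ℝ × E) : ℝ := B (gradL (D1 F X)) (gradL (D1 F X))

/-- mean curvature of the level set (for `F` homogeneous of degree `0`) -/
noncomputable def Mm (F : ℝ × E → ℝ) (X : ℝ × E) : ℝ :=
  (trB (D2 F X) - D2 F X (gradL (D1 F X)) (gradL (D1 F X)) / qq F X) / √(qq F X)

/-- mean curvature with respect to the density `X.1 ^ a` -/
noncomputable def Emean (a : ℝ) (F : ℝ × E → ℝ) (X : ℝ × E) : ℝ :=
  Mm F X - a * (D1 F X (1, 0)) / (X.1 * √(qq F X))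

/-- the hypotheses on the domain `{F < 0}` -/
structure Dom (a H : ℝ) (F : ℝ × E → ℝ) : Prop where
  sm : ContDiffOn ℝ 3 F (Cone E)
  hom : ∀ X ∈ Cone E, ∀ t : ℝ, 0 < t → F (t • X) = F X
  bd : ∃ R : ℝ, R < 1 ∧ ∀ X ∈ Cone E, F X ≤ 0 → ‖X.2‖ ≤ R * X.1
  reg : ∀ X ∈ Cone E, F X = 0 → D1 F X ≠ 0
  eq : ∀ X ∈ Cone E, F X = 0 → √(-B X X) * Emean a F X = H

/-- the hypersurface crosses the hyperplane `n` with positive angle -/
def PP (F : ℝ × E → ℝ) (n : ℝ × E) : Prop :=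
  ∀ X ∈ Cone E, F X = 0 → B X n = 0 → 0 < D1 F X n

/-- the reflected cap lies in the domain -/
def QQ (F : ℝ × E → ℝ) (n : ℝ × E) : Prop :=
  ∀ X ∈ Cone E, F X ≤ 0 → 0 < B X n → F (refl n X) < 0

/-- weak form of `QQ` -/
def WW (F : ℝ × E → ℝ) (n : ℝ × E) : Prop :=
  ∀ X ∈ Cone E, F X ≤ 0 → 0 < B X n → F (refl n X) ≤ 0

end Pool.Agent.Helper41.ALX
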