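import Pool.Agent.Helper41.ALX.Ball

/-!
# Alexandrov's theorem for Hopf symmetric hypersurfaces of rank one symmetric spaces

The unit ball of `E` with the metric `ballMetric P` is
* the complex hyperbolic space `ℂH^m` for `E = ℂ^m`, `P z v = ‖z‖⁻² ⟪i z, v⟫ i z` (the Bergman metric),
* the quaternionic hyperbolic space for `E = ℍ^m`, `P z` = projection on `span (i z, j z, k z)`,
* the Cayley hyperbolic plane for `E = 𝕆²`, `P z` = projection on the tangent space of the fibre of the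
  octonionic Hopf fibration through `z`.
-/

set_option autoImplicit false

namespace Pool.Agent.Helper41.ALX.Final

open Pool.Agent.Helper41.ALX

theorem result (E : Type) [NormedAddCommGroup E] [InnerProductSpace ℝ E] [FiniteDimensional ℝ E]
    [Nontrivial E] (a : ℕ) (ha : 0 < a) (P : E → E →L[ℝ] E) (hP : Vertical a P)
    (ρ : E → ℝ) (H : ℝ)
    (hs : ContDiffOn ℝ 3 ρ (Metric.ball 0 1))
    (hv : ∀ y ∈ Metric.ball (0 : E) 1, P y (gradient ρ y) = 0)
    (hbd : ∃ R : ℝ, R < 1 ∧ ∀ z ∈ Metric.ball (0 : E) 1, ρ z ≤ 0 → ‖z‖ ≤ R)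
    (hne : ∃ z ∈ Metric.ball (0 : E) 1, ρ z < 0)
    (hreg : ∀ z ∈ Metric.ball (0 : E) 1, ρ z = 0 → gradient ρ z ≠ 0)
    (heq : ∀ z ∈ Metric.ball (0 : E) 1, ρ z = 0 → meanCurv (ballMetric P) ρ z = H) :
    ∃ R : ℝ, 0 < R ∧ R < 1 ∧
      {z ∈ Metric.ball (0 : E) 1 | ρ z < 0} = Metric.ball 0 R ∧
      {z ∈ Metric.ball (0 : E) 1 | ρ z = 0} = Metric.sphere 0 R := by
  obtain ⟨R, h0, h1, h2⟩ := general ha hP hs hv hbd hne (fun z hz hz0 hc => hreg z hz hz0 (by
    rw [gradient, hc, map_zero])) heq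
  refine ⟨R, h0, h1, ?_, ?_⟩
  · ext z
    simp only [Set.mem_sep_iff, Metric.mem_ball, dist_zero_right]
    constructor
    · rintro ⟨hz, hz2⟩
      exact (h2 z (by simpa using hz)).1.1 hz2
    · intro hz
      have hz1 : ‖z‖ < 1 := hz.trans h1
      exact ⟨hz1, (h2 z (by simpa using hz1)).1.2 hz⟩
  · ext z
    simp only [Set.mem_sep_iff, Metric.mem_ball, dist_zero_right, mem_sphere_iff_norm, sub_zero]
    constructor
    · rintro ⟨hz, hz2⟩
      exact (h2 z (by simpa using hz)).2.1 hz2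
    · intro hz
      have hz1 : ‖z‖ < 1 := by rw [hz]; exact h1
      exact ⟨hz1, (h2 z (by simpa using hz1)).2.2 hz⟩

end Pool.Agent.Helper41.ALX.Final
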