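import Pool.Agent.Helper41.ALX.Lor

/-! # ALX, pieces F1, F2: adapted frames and the trace -/

set_option autoImplicit false
set_option linter.unusedSectionVars false
set_option linter.unusedVariables false

namespace Pool.Agent.Helper41.ALX

variable {E : Type*} [NormedAddCommGroup E] [InnerProductSpace ℝ E] [FiniteDimensional ℝ E]

/-- piece `F1`: the isometry of `E` onto the orthogonal complement of `X`, and the trace.
Proof. `L v = (⟪x, v⟫, v + ((1 + x₀)⁻¹ * ⟪x, v⟫) • x)` for `X = (x₀, x)`, `‖x‖ ^ 2 = x₀ ^ 2 - 1`. Then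
`B (L v) (L w) = ⟪v, w⟫`, `B X (L v) = ⟪x, v⟫ * (1 + (x₀ ^ 2 - 1) / (1 + x₀) - x₀) = 0`; if `B X v = 0` then
`v = L (v.2 - ((1 + x₀)⁻¹ * v.1) • x)`. Trace: with `c = (1 + x₀)⁻¹` and `w = (1, c • x)` we have
`L b = ⟪x, b⟫ • w + (0, b)`; for an orthonormal basis `b i` of `E` one has `∑ ⟪x, b i⟫ ^ 2 = ‖x‖ ^ 2`,
`∑ ⟪x, b i⟫ • b i = x`, hence
`∑ Q (L (b i)) (L (b i)) = ‖x‖ ^ 2 * Q w w + 2 * Q w (0, x) + ∑ Q (0, b i) (0, b i)`, and
`‖x‖ ^ 2 * Q w w + 2 * Q w (0, x) = Q X X - Q (1, 0) (1, 0)` (expand `w` and `X` in `(1, 0)`, `(0, x)`;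
`c * ‖x‖ ^ 2 = x₀ - 1`). Finally `∑ Q (0, b i) (0, b i)` is the same for all orthonormal bases
(expand `b i` in the standard basis, or write it as a trace, `LinearMap.trace_eq_sum_inner`). -/
theorem exists_L {X : ℝ × E} (hX : X ∈ Cone E) (h1 : B X X = -1) :
    ∃ L : E →ₗ[ℝ] ℝ × E, (∀ v w, B (L v) (L w) = inner ℝ v w) ∧ (∀ v, B X (L v) = 0) ∧
      (∀ v, B X v = 0 → ∃ u, L u = v) ∧
      ∀ (ι : Type) [Fintype ι] (b : OrthonormalBasis ι ℝ E) (Q : (ℝ × E) →L[ℝ] (ℝ × E) →L[ℝ] ℝ),
        (∀ u v, Q u v = Q v u) → ∑ i, Q (L (b i)) (L (b i)) = Q X X + trB Q := by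
  obtain ⟨x₀, x⟩ := X
  have h0 : 0 < x₀ := fst_pos hX
  have hn : inner ℝ x x = x₀ ^ 2 - 1 := by
    have h2 : inner ℝ x x - x₀ * x₀ = -1 := h1
    linarith
  have hne : (1 + x₀) ≠ 0 := by positivity
  set c : ℝ := (1 + x₀)⁻¹ with hc
  have hc1 : c * (x₀ ^ 2 - 1) = x₀ - 1 := by
    rw [hc]
    field_simp
    ring
  have hc2 : 2 * c + c ^ 2 * (x₀ ^ 2 - 1) = 1 := by
    have h3 : c * (1 + x₀) = 1 := inv_mul_cancel₀ hne
    have h4 : c ^ 2 * (x₀ ^ 2 - 1) = c * (c * (x₀ ^ 2 - 1)) := by ring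
    rw [h4, hc1]
    linarith
  let L : E →ₗ[ℝ] ℝ × E :=
    { toFun := fun v => (inner ℝ x v, v + (c * inner ℝ x v) • x)
      map_add' := fun v w => by
        refine Prod.ext ?_ ?_
        · simp only [Prod.fst_add, inner_add_right]
        · simp only [Prod.snd_add, inner_add_right]
          module
      map_smul' := fun r v => by
        refine Prod.ext ?_ ?_
        · simp only [Prod.smul_fst, real_inner_smul_right, smul_eq_mul, RingHom.id_apply]
        · simp only [Prod.smul_snd, real_inner_smul_right, RingHom.id_apply]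
          module }
  have hL : ∀ v, L v = (inner ℝ x v, v + (c * inner ℝ x v) • x) := fun v => rfl
  refine ⟨L, ?_, ?_, ?_, ?_⟩
  · intro v w
    rw [hL, hL]
    unfold B
    simp only [inner_add_left, inner_add_right, real_inner_smul_left, real_inner_smul_right, hn]
    rw [real_inner_comm x v]
    linear_combination (inner ℝ x v * inner ℝ x w) * hc2
  · intro v
    rw [hL]
    unfold B
    simp only [inner_add_right, real_inner_smul_right, hn]
    linear_combination (inner ℝ x v) * hc1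
  · rintro ⟨v₀, v⟩ hv
    have h2 : inner ℝ x v = x₀ * v₀ := by
      have h3 : inner ℝ x v - x₀ * v₀ = 0 := hv
      linarith
    refine ⟨v - (c * v₀) • x, ?_⟩
    have h4 : inner ℝ x (v - (c * v₀) • x) = v₀ := by
      rw [inner_sub_right, real_inner_smul_right, hn, h2]
      linear_combination (-v₀) * hc1
    rw [hL, h4]
    refine Prod.ext rfl ?_
    simp only
    module
  · intro ι _ b Q hQ
    have hdec : ∀ v, L v = (inner ℝ x v) • ((1 : ℝ), c • x) + ((0 : ℝ), v) := by
      intro v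
      rw [hL]
      refine Prod.ext ?_ ?_
      · simp
      · simp only [Prod.snd_add, Prod.smul_snd]
        module
    have hterm : ∀ i, Q (L (b i)) (L (b i)) =
        inner ℝ x (b i) * inner ℝ (b i) x * Q ((1 : ℝ), c • x) ((1 : ℝ), c • x) +
        2 * Q ((1 : ℝ), c • x) (inner ℝ (b i) x • ((0 : ℝ), b i)) +
        Q ((0 : ℝ), b i) ((0 : ℝ), b i) := by
      intro i
      rw [hdec, real_inner_comm x (b i)]
      simp only [map_add, map_smul, ContinuousLinearMap.add_apply, ContinuousLinearMap.smul_apply,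
        smul_eq_mul]
      rw [hQ ((0 : ℝ), b i) ((1 : ℝ), c • x)]
      ring
    have hsum : ∑ i, Q (L (b i)) (L (b i)) =
        inner ℝ x x * Q ((1 : ℝ), c • x) ((1 : ℝ), c • x) +
        2 * Q ((1 : ℝ), c • x) ((0 : ℝ), x) + ∑ i, Q ((0 : ℝ), b i) ((0 : ℝ), b i) := by
      rw [Finset.sum_congr rfl fun i _ => hterm i, Finset.sum_add_distrib,
        Finset.sum_add_distrib, ← Finset.sum_mul, b.sum_inner_mul_inner, ← Finset.mul_sum,
        ← map_sum]
      have h5 : ∑ i, inner ℝ (b i) x • ((0 : ℝ), b i) = ((0 : ℝ), x) := by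
        have h6 : ∀ i, inner ℝ (b i) x • ((0 : ℝ), b i) =
            LinearMap.inr ℝ ℝ E (inner ℝ (b i) x • b i) := by
          intro i
          rw [map_smul]
          rfl
        rw [Finset.sum_congr rfl fun i _ => h6 i, ← map_sum, b.sum_repr']
        rfl
      rw [h5]
    have htr : ∀ (κ : Type) [Fintype κ] (b' : OrthonormalBasis κ ℝ E) (T : E →ₗ[ℝ] E),
        (∀ u v, inner ℝ v (T u) = Q ((0 : ℝ), u) ((0 : ℝ), v)) →
        ∑ i, Q ((0 : ℝ), b' i) ((0 : ℝ), b' i) = LinearMap.trace ℝ E T := by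
      intro κ _ b' T hT
      rw [LinearMap.trace_eq_sum_inner T b']
      exact Finset.sum_congr rfl fun i _ => (hT _ _).symm
    have hinr : ∀ u v : E, ((0 : ℝ), u + v) = ((0 : ℝ), u) + ((0 : ℝ), v) := by
      intro u v
      refine Prod.ext ?_ ?_
      · simp
      · simp
    have hinr' : ∀ (r : ℝ) (v : E), ((0 : ℝ), r • v) = r • ((0 : ℝ), v) := by
      intro r v
      refine Prod.ext ?_ ?_
      · simp
      · simp
    have hA : ∀ u v : E, inner ℝ v ((InnerProductSpace.toDual ℝ E).symm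
        ((Q ((0 : ℝ), u)).comp (ContinuousLinearMap.inr ℝ ℝ E))) = Q ((0 : ℝ), u) ((0 : ℝ), v) := by
      intro u v
      rw [real_inner_comm, InnerProductSpace.toDual_symm_apply]
      rfl
    let T : E →ₗ[ℝ] E :=
      { toFun := fun u => (InnerProductSpace.toDual ℝ E).symm
          ((Q ((0 : ℝ), u)).comp (ContinuousLinearMap.inr ℝ ℝ E))
        map_add' := fun u w => by
          refine ext_inner_left ℝ fun v => ?_
          rw [inner_add_right, hA, hA, hA, hinr, map_add]
          rfl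
        map_smul' := fun r u => by
          refine ext_inner_left ℝ fun v => ?_
          rw [RingHom.id_apply, real_inner_smul_right, hA, hA, hinr', map_smul]
          rfl }
    have hT : ∀ u v, inner ℝ v (T u) = Q ((0 : ℝ), u) ((0 : ℝ), v) := hA
    have hX' : Q (x₀, x) (x₀, x) = x₀ ^ 2 * Q ((1 : ℝ), (0 : E)) ((1 : ℝ), (0 : E)) +
        2 * x₀ * Q ((1 : ℝ), (0 : E)) ((0 : ℝ), x) + Q ((0 : ℝ), x) ((0 : ℝ), x) := by
      have h7 : ((x₀, x) : ℝ × E) = x₀ • ((1 : ℝ), (0 : E)) + ((0 : ℝ), x) := by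
        refine Prod.ext ?_ ?_
        · simp
        · simp
      rw [h7]
      simp only [map_add, map_smul, ContinuousLinearMap.add_apply, ContinuousLinearMap.smul_apply,
        smul_eq_mul]
      rw [hQ ((0 : ℝ), x) ((1 : ℝ), (0 : E))]
      ring
    have hw : (((1 : ℝ), c • x) : ℝ × E) = ((1 : ℝ), (0 : E)) + c • ((0 : ℝ), x) := by
      refine Prod.ext ?_ ?_
      · simp
      · simp
    rw [hsum, htr ι b T hT]
    unfold trB
    rw [htr _ (stdOrthonormalBasis ℝ E) T hT, hX', hn, hw]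
    simp only [map_add, map_smul, ContinuousLinearMap.add_apply, ContinuousLinearMap.smul_apply,
      smul_eq_mul]
    rw [hQ ((0 : ℝ), x) ((1 : ℝ), (0 : E))]
    linear_combination (2 * Q ((1 : ℝ), (0 : E)) ((0 : ℝ), x)) * hc1 +
      (Q ((0 : ℝ), x) ((0 : ℝ), x)) * hc2

/-- frame adapted to `X`, `N` -/
structure Frame1 (X N : ℝ × E) {m : ℕ} (e : Fin m → ℝ × E) : Prop where
  oX : ∀ i, B X (e i) = 0
  oN : ∀ i, B N (e i) = 0
  un : ∀ i, B (e i) (e i) = 1
  tr : ∀ Q : (ℝ × E) →L[ℝ] (ℝ × E) →L[ℝ] ℝ, (∀ u v, Q u v = Q v u) →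
    trB Q = -Q X X + Q N N + ∑ i, Q (e i) (e i)

/-- frame adapted to `X`, `N`, `n` -/
structure Frame2 (X N n : ℝ × E) {m : ℕ} (e : Fin m → ℝ × E) : Prop where
  oX : ∀ i, B X (e i) = 0
  oN : ∀ i, B N (e i) = 0
  on : ∀ i, B n (e i) = 0
  un : ∀ i, B (e i) (e i) = 1
  ex : ∀ v, v = -(B v X) • X + (B v N) • N + (B v n) • n + ∑ i, (B v (e i)) • e i
  tr : ∀ Q : (ℝ × E) →L[ℝ] (ℝ × E) →L[ℝ] ℝ, (∀ u v, Q u v = Q v u) →
    trB Q = -Q X X + Q N N + Q n n + ∑ i, Q (e i) (e i)

/-- an orthonormal basis with a prescribed vector -/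
private lemma F2_basis1 {u : E} (hu : inner ℝ u u = 1) :
    ∃ (m : ℕ) (b : OrthonormalBasis (Option (Fin m)) ℝ E), b none = u := by
  have hu1 : ‖u‖ = 1 := by
    rw [real_inner_self_eq_norm_sq] at hu
    have h0 := norm_nonneg u
    nlinarith
  have hpos : 0 < Module.finrank ℝ E := by
    rw [Module.finrank_pos_iff]
    refine ⟨⟨u, 0, ?_⟩⟩
    intro h
    rw [h, norm_zero] at hu1
    exact zero_ne_one hu1
  obtain ⟨m, hm⟩ : ∃ m, Module.finrank ℝ E = m + 1 := ⟨Module.finrank ℝ E - 1, by omega⟩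
  have hcard : Module.finrank ℝ E = Fintype.card (Option (Fin m)) := by
    rw [hm, Fintype.card_option, Fintype.card_fin]
  have hv : Orthonormal ℝ (({none} : Set (Option (Fin m))).domRestrict (fun _ => u)) := by
    refine ⟨fun i => hu1, ?_⟩
    intro i j hij
    exfalso
    apply hij
    obtain ⟨i, hi⟩ := i
    obtain ⟨j, hj⟩ := j
    rw [Set.mem_singleton_iff] at hi hj
    subst hi hj
    rfl
  obtain ⟨b, hb⟩ := hv.exists_orthonormalBasis_extension_of_card_eq hcard
  exact ⟨m, b, hb none rfl⟩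

/-- an orthonormal basis with two prescribed vectors -/
private lemma F2_basis2 {u u' : E} (hu : inner ℝ u u = 1) (hu' : inner ℝ u' u' = 1)
    (huu : inner ℝ u u' = 0) :
    ∃ (m : ℕ) (b : OrthonormalBasis (Option (Option (Fin m))) ℝ E),
      b none = u ∧ b (some none) = u' := by
  have hu1 : ‖u‖ = 1 := by
    rw [real_inner_self_eq_norm_sq] at hu
    have h0 := norm_nonneg u
    nlinarith
  have hu2 : ‖u'‖ = 1 := by
    rw [real_inner_self_eq_norm_sq] at hu'
    have h0 := norm_nonneg u'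
    nlinarith
  have huu' : inner ℝ u' u = 0 := by rw [real_inner_comm]; exact huu
  have hon : Orthonormal ℝ (fun i : Bool => if i then u else u') := by
    refine ⟨?_, ?_⟩
    · intro i
      cases i
      · exact hu2
      · exact hu1
    · intro i j hij
      cases i <;> cases j
      · exact absurd rfl hij
      · exact huu'
      · exact huu
      · exact absurd rfl hij
  have hpos : 2 ≤ Module.finrank ℝ E := by
    have h1 := hon.linearIndependent.fintype_card_le_finrank
    rwa [Fintype.card_bool] at h1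
  obtain ⟨m, hm⟩ : ∃ m, Module.finrank ℝ E = m + 1 + 1 := ⟨Module.finrank ℝ E - 2, by omega⟩
  have hcard : Module.finrank ℝ E = Fintype.card (Option (Option (Fin m))) := by
    rw [hm, Fintype.card_option, Fintype.card_option, Fintype.card_fin]
  have hv : Orthonormal ℝ (({none, some none} : Set (Option (Option (Fin m)))).domRestrict
      (fun i => if i = none then u else u')) := by
    refine ⟨?_, ?_⟩
    · rintro ⟨i, hi⟩
      rcases hi with hi | hi
      · subst hi
        exact hu1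
      · rw [Set.mem_singleton_iff] at hi
        subst hi
        exact hu2
    · rintro ⟨i, hi⟩ ⟨j, hj⟩ hij
      rcases hi with hi | hi <;> rcases hj with hj | hj
      · subst hi hj
        exact absurd rfl hij
      · rw [Set.mem_singleton_iff] at hj
        subst hi hj
        exact huu
      · rw [Set.mem_singleton_iff] at hi
        subst hi hj
        exact huu'
      · rw [Set.mem_singleton_iff] at hi hj
        subst hi hj
        exact absurd rfl hij
  obtain ⟨b, hb⟩ := hv.exists_orthonormalBasis_extension_of_card_eq hcard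
  refine ⟨m, b, ?_, ?_⟩
  · rw [hb none (by simp)]
    simp
  · rw [hb (some none) (by simp)]
    simp

/-- piece `F2`. Proof. `exists_L`; let `L u = N`, `‖u‖ = 1`; extend `{u}` to an orthonormal basis of `E`
(`Orthonormal.exists_orthonormalBasis_extension` or a similar lemma) and let `e` be `L` of the other basis
vectors. -/
theorem exists_frame1 {X N : ℝ × E} (hX : X ∈ Cone E) (h1 : B X X = -1) (hN : B N N = 1)
    (h : B X N = 0) : ∃ (m : ℕ) (e : Fin m → ℝ × E), Frame1 X N e := by
  obtain ⟨L, hL1, hL2, hL3, hL4⟩ := exists_L hX h1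
  obtain ⟨u, hu⟩ := hL3 N h
  have huu : inner ℝ u u = 1 := by rw [← hL1, hu, hN]
  obtain ⟨m, b, hb⟩ := F2_basis1 huu
  have hon := b.orthonormal
  have h0 : ∀ i : Fin m, inner ℝ u (b (some i)) = 0 := by
    intro i
    rw [← hb]
    exact hon.2 (by simp)
  refine ⟨m, fun i => L (b (some i)), ⟨fun i => hL2 _, ?_, ?_, ?_⟩⟩
  · intro i
    rw [← hu, hL1]
    exact h0 i
  · intro i
    rw [hL1, real_inner_self_eq_norm_sq, hon.1]
    norm_num
  · intro Q hQ
    have h2 := hL4 _ b Q hQ
    rw [Fintype.sum_option, hb, hu] at h2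
    linarith

/-- piece `F2`. Proof. The same with the orthonormal pair `u, u'`, `L u = N`, `L u' = n`. For `ex`: the
difference of both sides is orthogonal (for `B`) to `X` and to all `L (b i)`, so it is `L` of a vector
orthogonal to all `b i`, which is `0`. -/
theorem exists_frame2 {X N n : ℝ × E} (hX : X ∈ Cone E) (h1 : B X X = -1) (hN : B N N = 1)
    (h : B X N = 0) (hn : B n n = 1) (hXn : B X n = 0) (hNn : B N n = 0) :
    ∃ (m : ℕ) (e : Fin m → ℝ × E), Frame2 X N n e := by
  obtain ⟨L, hL1, hL2, hL3, hL4⟩ := exists_L hX h1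
  obtain ⟨u, hu⟩ := hL3 N h
  obtain ⟨u', hu'⟩ := hL3 n hXn
  have huu : inner ℝ u u = 1 := by rw [← hL1, hu, hN]
  have huu1 : inner ℝ u' u' = 1 := by rw [← hL1, hu', hn]
  have huu2 : inner ℝ u u' = 0 := by rw [← hL1, hu, hu', hNn]
  obtain ⟨m, b, hb, hb'⟩ := F2_basis2 huu huu1 huu2
  have hon := b.orthonormal
  have h0 : ∀ i : Fin m, inner ℝ u (b (some (some i))) = 0 := by
    intro i
    rw [← hb]
    exact hon.2 (by simp)
  have h0' : ∀ i : Fin m, inner ℝ u' (b (some (some i))) = 0 := by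
    intro i
    rw [← hb']
    exact hon.2 (by simp)
  have hNe : ∀ i : Fin m, B N (L (b (some (some i)))) = 0 := by
    intro i
    rw [← hu, hL1]
    exact h0 i
  have hne : ∀ i : Fin m, B n (L (b (some (some i)))) = 0 := by
    intro i
    rw [← hu', hL1]
    exact h0' i
  have hee : ∀ i j : Fin m, B (L (b (some (some i)))) (L (b (some (some j)))) =
      if i = j then 1 else 0 := by
    intro i j
    rw [hL1]
    have h2 := (orthonormal_iff_ite.1 hon) (some (some i)) (some (some j))
    rw [h2]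
    simp
  have hnN : B n N = 0 := by rw [B_comm]; exact hNn
  have hNX : B N X = 0 := by rw [B_comm]; exact h
  have hnX : B n X = 0 := by rw [B_comm]; exact hXn
  refine ⟨m, fun i => L (b (some (some i))), ⟨fun i => hL2 _, hNe, hne, ?_, ?_, ?_⟩⟩
  · intro i
    rw [hee, if_pos rfl]
  · intro v
    have key : v - (-(B v X) • X + (B v N) • N + (B v n) • n +
        ∑ i, (B v (L (b (some (some i))))) • L (b (some (some i)))) = 0 := by
      obtain ⟨w, hw⟩ : ∃ w, w = v - (-(B v X) • X + (B v N) • N + (B v n) • n +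
        ∑ i, (B v (L (b (some (some i))))) • L (b (some (some i)))) := ⟨_, rfl⟩
      rw [← hw]
      have hexp : ∀ y : ℝ × E, B y w = B y v - (-(B v X) * B y X + B v N * B y N +
          B v n * B y n + ∑ i, B v (L (b (some (some i)))) * B y (L (b (some (some i))))) := by
        intro y
        rw [hw, B_sub_right, B_add_right, B_add_right, B_add_right, B_smul_right, B_smul_right,
          B_smul_right, B_sum_right]
        simp only [B_smul_right]
      have hwX : B X w = 0 := by
        rw [hexp, h1, h, hXn, B_comm v X]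
        simp only [hL2]
        simp
      obtain ⟨y, hy⟩ := hL3 w hwX
      have hwN : B N w = 0 := by
        rw [hexp, hNX, hN, hNn, B_comm v N]
        simp only [hNe]
        simp
      have hwn : B n w = 0 := by
        rw [hexp, hnX, hnN, hn, B_comm v n]
        simp only [hne]
        simp
      have hwe : ∀ j : Fin m, B (L (b (some (some j)))) w = 0 := by
        intro j
        have e1 : B (L (b (some (some j)))) X = 0 := by rw [B_comm]; exact hL2 _
        have e2 : B (L (b (some (some j)))) N = 0 := by rw [B_comm]; exact hNe j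
        have e3 : B (L (b (some (some j)))) n = 0 := by rw [B_comm]; exact hne j
        rw [hexp, e1, e2, e3]
        simp only [hee]
        rw [B_comm _ v]
        simp
      have hy0 : y = 0 := by
        rw [← b.sum_repr' y]
        apply Finset.sum_eq_zero
        intro i _
        have e4 : inner ℝ (b i) y = 0 := by
          rw [← hL1, hy]
          rcases i with _ | _ | i
          · rw [hb, hu, hwN]
          · rw [hb', hu', hwn]
          · exact hwe i
        rw [e4, zero_smul]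
      rw [← hy, hy0, map_zero]
    exact sub_eq_zero.1 key
  · intro Q hQ
    have h2 := hL4 _ b Q hQ
    rw [Fintype.sum_option, Fintype.sum_option, hb, hb', hu, hu'] at h2
    linarith

private lemma F3_expand {n : ℝ × E} (Q : (ℝ × E) →L[ℝ] (ℝ × E) →L[ℝ] ℝ)
    (hQ : ∀ u v, Q u v = Q v u) (u : ℝ × E) :
    Q (refl n u) (refl n u) = Q u u - 4 * (B u n * Q u n) + 4 * (B u n ^ 2 * Q n n) := by
  unfold refl
  simp only [map_sub, map_smul, ContinuousLinearMap.sub_apply, ContinuousLinearMap.smul_apply,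
    smul_eq_mul]
  rw [hQ n u]
  ring

/-- piece `F3`: the trace is invariant under reflections.
Proof. `Q (refl n u) (refl n u) = Q u u - 4 * B u n * Q u n + 4 * (B u n) ^ 2 * Q n n`; with the basis
`b i` of `E` and `e₀ = (1, 0)` we have `∑ B (0, b i) n • (0, b i) - B e₀ n • e₀ = n` and
`∑ (B (0, b i) n) ^ 2 - (B e₀ n) ^ 2 = B n n = 1`, so the trace of the right side is
`trB Q - 4 * Q n n + 4 * Q n n`. -/
theorem trB_refl {n : ℝ × E} (hn : B n n = 1) (Q Q' : (ℝ × E) →L[ℝ] (ℝ × E) →L[ℝ] ℝ)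
    (hQ : ∀ u v, Q u v = Q v u) (h : ∀ u v, Q' u v = Q (refl n u) (refl n v)) :
    trB Q' = trB Q := by
  unfold trB
  have hb : ∀ i, B ((0 : ℝ), (stdOrthonormalBasis ℝ E) i) n
      = inner ℝ ((stdOrthonormalBasis ℝ E) i) n.2 := by
    intro i
    simp [B]
  have h0 : B ((1 : ℝ), (0 : E)) n = -n.1 := by simp [B]
  have s1 : ∑ i, inner ℝ ((stdOrthonormalBasis ℝ E) i) n.2 •
      ((0 : ℝ), (stdOrthonormalBasis ℝ E) i) = ((0 : ℝ), n.2) := by
    have h1 := (stdOrthonormalBasis ℝ E).sum_repr' n.2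
    ext
    · simp [Prod.fst_sum]
    · simp only [Prod.snd_sum, Prod.smul_snd]
      exact h1
  have s2 : ∑ i, inner ℝ ((stdOrthonormalBasis ℝ E) i) n.2 ^ 2 = inner ℝ n.2 n.2 := by
    have h1 := congrArg (fun v : E => inner ℝ v n.2) ((stdOrthonormalBasis ℝ E).sum_repr' n.2)
    simp only [sum_inner, real_inner_smul_left] at h1
    rw [← h1]
    exact Finset.sum_congr rfl fun i _ => by ring
  have s3 : ∑ i, inner ℝ ((stdOrthonormalBasis ℝ E) i) n.2 *
      Q ((0 : ℝ), (stdOrthonormalBasis ℝ E) i) n = Q ((0 : ℝ), n.2) n := by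
    rw [← s1]
    simp only [map_sum, map_smul, ContinuousLinearMap.sum_apply, ContinuousLinearMap.smul_apply,
      smul_eq_mul]
  have s4 : Q n n = n.1 * Q (1, 0) n + Q ((0 : ℝ), n.2) n := by
    have h1 : n = n.1 • ((1 : ℝ), (0 : E)) + ((0 : ℝ), n.2) := by ext <;> simp
    have h2 : Q n = n.1 • Q ((1 : ℝ), (0 : E)) + Q ((0 : ℝ), n.2) := by
      conv_lhs => rw [h1]
      rw [map_add, map_smul]
    calc Q n n = (n.1 • Q ((1 : ℝ), (0 : E)) + Q ((0 : ℝ), n.2)) n := by rw [← h2]
      _ = _ := by simp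
  have hn' : inner ℝ n.2 n.2 - n.1 ^ 2 = 1 := by
    unfold B at hn
    rw [← hn]
    ring
  have e1 : ∀ u, Q' u u = Q u u - 4 * (B u n * Q u n) + 4 * (B u n ^ 2 * Q n n) := fun u => by
    rw [h, F3_expand Q hQ]
  simp only [e1, hb, h0, Finset.sum_add_distrib, Finset.sum_sub_distrib, ← Finset.mul_sum,
    ← Finset.sum_mul, s2, s3]
  linear_combination 4 * s4 + 4 * Q n n * hn'

end Pool.Agent.Helper41.ALX
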