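import Pool.Agent.Helper75.ROT.Crisp
import Pool.Agent.Helper41.ALX.Ball

/-! # ALX: functions on the ball of `ℍⁿ⁺¹` that are invariant under the right multiplications by unit quaternions -/

set_option autoImplicit false

namespace Pool.Agent.Helper41.ALX

open Filter Topology Quaternion
open Pool.Agent.Helper75.ROT

/-- a function that is invariant under `z ↦ z q`, `|q| = 1`, has no vertical derivative -/
theorem sphere_vertical {n : ℕ} {ρ : HV n → ℝ} (hs : ContDiffOn ℝ 3 ρ (Metric.ball 0 1))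
    (hinv : ∀ z ∈ Metric.ball (0 : HV n) 1, ∀ q : ℍ[ℝ], ‖q‖ = 1 →
      ρ (WithLp.toLp 2 (fun i => z i * q)) = ρ z) :
    ∀ y ∈ Metric.ball (0 : HV n) 1, PH n y (gradient ρ y) = 0 := by
  intro y hy
  have hd : DifferentiableAt ℝ ρ y :=
    (hs.contDiffAt (Metric.isOpen_ball.mem_nhds hy)).differentiableAt (by norm_num)
  have hunit : ∀ r : ℍ[ℝ], r.re = 0 → ‖r‖ = 1 → fderiv ℝ ρ y (RH n r y) = 0 := by
    intro r hr hr1
    have h1 : HasDerivAt (fun θ : ℝ => RH n (Real.cos θ • 1 + Real.sin θ • r) y) (RH n r y) 0 := by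
      have h2 : HasDerivAt (fun θ : ℝ => Real.cos θ • (1 : ℍ[ℝ]) + Real.sin θ • r)
          ((-Real.sin 0) • (1 : ℍ[ℝ]) + Real.cos 0 • r) 0 :=
        ((Real.hasDerivAt_cos 0).smul_const _).add ((Real.hasDerivAt_sin 0).smul_const _)
      have h3 : (-Real.sin 0) • (1 : ℍ[ℝ]) + Real.cos 0 • r = r := by
        simp
      rw [h3] at h2
      exact (((RH n).flip y).hasFDerivAt (x := Real.cos 0 • (1 : ℍ[ℝ]) +
        Real.sin 0 • r)).comp_hasDerivAt (0 : ℝ) h2
    have h5 : HasFDerivAt ρ (fderiv ℝ ρ y) (RH n (Real.cos 0 • 1 + Real.sin 0 • r) y) := by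
      have h7 : RH n (Real.cos 0 • 1 + Real.sin 0 • r) y = y := by
        ext i : 1
        rw [RH_apply]
        simp
      rw [h7]
      exact hd.hasFDerivAt
    have h6 := h5.comp_hasDerivAt (0 : ℝ) h1
    have h7 : (ρ ∘ fun θ : ℝ => RH n (Real.cos θ • 1 + Real.sin θ • r) y) = fun _ => ρ y := by
      funext θ
      refine hinv y hy _ ?_
      have h8 : ‖Real.cos θ • (1 : ℍ[ℝ]) + Real.sin θ • r‖ ^ 2 = 1 := by
        have h9 : inner ℝ (1 : ℍ[ℝ]) r = 0 := by
          rw [inner_H]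
          simp [hr]
        rw [← real_inner_self_eq_norm_sq, inner_add_left, inner_add_right, inner_add_right,
          real_inner_smul_left, real_inner_smul_left, real_inner_smul_left, real_inner_smul_left,
          real_inner_smul_right, real_inner_smul_right, real_inner_smul_right,
          real_inner_smul_right, real_inner_comm (1 : ℍ[ℝ]) r, h9, real_inner_self_eq_norm_sq,
          real_inner_self_eq_norm_sq, hr1, norm_one]
        have := Real.cos_sq_add_sin_sq θ
        nlinarith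
      have h10 := norm_nonneg (Real.cos θ • (1 : ℍ[ℝ]) + Real.sin θ • r)
      nlinarith
    rw [h7] at h6
    exact h6.unique (hasDerivAt_const (0 : ℝ) (ρ y))
  have hall : ∀ q : ℍ[ℝ], q.re = 0 → fderiv ℝ ρ y (RH n q y) = 0 := by
    intro q hqr
    by_cases h : q = 0
    · rw [h, map_zero, zero_apply, map_zero]
    · have h1 : ‖q‖ ≠ 0 := norm_ne_zero_iff.2 h
      have h2 := hunit (‖q‖⁻¹ • q) (by simp [hqr]) (by
        rw [norm_smul, norm_inv, norm_norm, inv_mul_cancel₀ h1])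
      rw [map_smul, smul_apply, map_smul, smul_eq_mul] at h2
      rcases mul_eq_zero.1 h2 with h3 | h3
      · exact absurd (inv_eq_zero.1 h3) h1
      · exact h3
  -- the imaginary part of the hermitian product of `y` and the gradient
  set m := (hH n y (gradient ρ y)).im with hm
  have h1 : inner ℝ (RH n m y) (gradient ρ y) = 0 := by
    rw [real_inner_comm, gradient, InnerProductSpace.toDual_symm_apply]
    exact hall m rfl
  rw [inner_RH, hm, inner_im, ← hm, real_inner_self_eq_norm_sq] at h1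
  have h2 : m = 0 := by
    have h3 : ‖m‖ = 0 := by
      have := pow_eq_zero_iff (n := 2) (by norm_num) |>.1 h1
      exact this
    exact norm_eq_zero.1 h3
  rw [PH_apply, ← hm, h2, map_zero, zero_apply, smul_zero]

/-- the vertical projection of quaternionic hyperbolic space, by its formula -/
theorem isPH_eq {n : ℕ} {P : HV n → HV n →L[ℝ] HV n} (hP : IsPH P) : P = PH n := by
  funext z
  ext v i : 2
  rw [hP, PH_apply]
  rfl

/-- The theorem with the data of the metric and the surface given one by one. -/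
theorem hopf_general {E : Type} [NormedAddCommGroup E] [InnerProductSpace ℝ E]
    [FiniteDimensional ℝ E] [Nontrivial E] {a : ℕ} (ha : 0 < a) {P : E → E →L[ℝ] E}
    (hP : Vertical a P) {g : E → E →L[ℝ] E} (hg : g = ballMetric P) {ρ : E → ℝ} {H : ℝ}
    (hs : ContDiffOn ℝ 3 ρ (Metric.ball 0 1))
    (hbd : ∃ R : ℝ, R < 1 ∧ ∀ z ∈ Metric.ball (0 : E) 1, ρ z ≤ 0 → ‖z‖ ≤ R)
    (hne : ∃ z ∈ Metric.ball (0 : E) 1, ρ z < 0)
    (hreg : ∀ z ∈ Metric.ball (0 : E) 1, ρ z = 0 → gradient ρ z ≠ 0)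
    (heq : ∀ z ∈ Metric.ball (0 : E) 1, ρ z = 0 → meanCurv g ρ z = H)
    (hv : ∀ y ∈ Metric.ball (0 : E) 1, P y (gradient ρ y) = 0) :
    ∃ R : ℝ, 0 < R ∧ R < 1 ∧ {z ∈ Metric.ball (0 : E) 1 | ρ z < 0} = Metric.ball 0 R ∧
      {z ∈ Metric.ball (0 : E) 1 | ρ z = 0} = Metric.sphere 0 R := by
  subst hg
  obtain ⟨R, h0, h1, h2⟩ := general ha hP hs hv hbd hne
    (fun z hz hz0 hcon => hreg z hz hz0 (by rw [gradient, hcon, map_zero])) heq
  refine ⟨R, h0, h1, ?_, ?_⟩
  · ext z
    simp only [Set.mem_sep_iff, Metric.mem_ball, dist_zero_right]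
    constructor
    · rintro ⟨hz, hz2⟩
      exact (h2 z (by simpa using hz)).1.1 hz2
    · intro hz
      have hz1 : ‖z‖ < 1 := hz.trans h1
      exact ⟨hz1, (h2 z (by simpa using hz1)).1.2 hz⟩
  · ext z
    simp only [Set.mem_sep_iff, Metric.mem_ball, dist_zero_right, mem_sphere_iff_norm, sub_zero]
    constructor
    · rintro ⟨hz, hz2⟩
      exact (h2 z (by simpa using hz)).2.1 hz2
    · intro hz
      have hz1 : ‖z‖ < 1 := by rw [hz]; exact h1
      exact ⟨hz1, (h2 z (by simpa using hz1)).2.2 hz⟩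

/-- The metric, by its formula. -/
theorem ballMetric_eq {E : Type} [NormedAddCommGroup E] [InnerProductSpace ℝ E]
    {P g : E → E →L[ℝ] E} (hg : ∀ z v, g z v = (1 - ‖z‖ ^ 2)⁻¹ • v +
      ((1 - ‖z‖ ^ 2) ^ 2)⁻¹ • (inner ℝ z v • z + ‖z‖ ^ 2 • P z v)) : g = ballMetric P := by
  funext z
  ext1 v
  exact hg z v

/-- The Bergman metric, by its formula. -/
theorem bergman_metric {n : ℕ}
    {g : EuclideanSpace ℂ (Fin n) → EuclideanSpace ℂ (Fin n) →L[ℝ] EuclideanSpace ℂ (Fin n)}
    (hg : ∀ z v, g z v = (1 - ‖z‖ ^ 2)⁻¹ • v + ((1 - ‖z‖ ^ 2) ^ 2)⁻¹ • (inner ℂ z v • z)) :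
    g = ballMetric (PC n) := by
  rw [← bergman_eq]
  funext z
  ext1 v
  exact hg z v

end Pool.Agent.Helper41.ALX
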