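import Pool.Agent.Helper41.ALX.Main1

/-! # ALX, pieces L1, L2: from the ball to the cone -/

set_option autoImplicit false
set_option linter.unusedSectionVars false
set_option linter.unusedVariables false

namespace Pool.Agent.Helper41.ALX

open Filter Topology
open scoped ContDiff

variable {E : Type*} [NormedAddCommGroup E] [InnerProductSpace ℝ E] [FiniteDimensional ℝ E]

/-- second derivative on `E` -/
noncomputable abbrev S2 (ρ : E → ℝ) (z : E) : E →L[ℝ] E →L[ℝ] ℝ := fderiv ℝ (fun y => fderiv ℝ ρ y) z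

/-- square of the hyperbolic norm of the gradient, divided by `1 - ‖z‖ ^ 2` -/
noncomputable def qb (ρ : E → ℝ) (z : E) : ℝ := ‖gradient ρ z‖ ^ 2 - (fderiv ℝ ρ z z) ^ 2

/-- `∇ρ - ⟪∇ρ, z⟫ z` -/
noncomputable def mb (ρ : E → ℝ) (z : E) : E := gradient ρ z - (fderiv ℝ ρ z z) • z

/-- explicit formula for the mean curvature of the level sets of `ρ` in the projective ball model of
hyperbolic space with density `(1 - ‖z‖ ^ 2) ^ (-a / 2)` -/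
noncomputable def Eball (a : ℝ) (ρ : E → ℝ) (z : E) : ℝ :=
  √((1 - ‖z‖ ^ 2) / qb ρ z) *
    ((∑ i, S2 ρ z (stdOrthonormalBasis ℝ E i) (stdOrthonormalBasis ℝ E i)) - S2 ρ z z z
      - S2 ρ z (mb ρ z) (mb ρ z) / qb ρ z + a * fderiv ℝ ρ z z)

private theorem L1_pos {X : ℝ × E} (hX : X ∈ Cone E) : 0 < X.1 :=
  lt_of_le_of_lt (norm_nonneg _) hX

private theorem L1_open : IsOpen (Cone E) := isOpen_lt continuous_snd.norm continuous_fst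

private theorem L1_maps {X : ℝ × E} (hX : X ∈ Cone E) : X.1⁻¹ • X.2 ∈ Metric.ball (0 : E) 1 := by
  have h0 := L1_pos hX
  have hX' : ‖X.2‖ < X.1 := hX
  rw [mem_ball_zero_iff, norm_smul, norm_inv, Real.norm_of_nonneg h0.le, inv_mul_lt_iff₀ h0]
  simpa using hX'

private noncomputable def L1_L (X : ℝ × E) : (ℝ × E) →L[ℝ] E :=
  X.1⁻¹ • (ContinuousLinearMap.snd ℝ ℝ E -
    (ContinuousLinearMap.fst ℝ ℝ E).smulRight (X.1⁻¹ • X.2))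

private theorem L1_L_apply (X v : ℝ × E) :
    L1_L X v = X.1⁻¹ • (v.2 - v.1 • (X.1⁻¹ • X.2)) := by
  simp [L1_L]

private theorem L1_inv {X : ℝ × E} (h0 : X.1 ≠ 0) :
    HasFDerivAt (fun Y : ℝ × E => Y.1⁻¹) (-(X.1 ^ 2)⁻¹ • ContinuousLinearMap.fst ℝ ℝ E) X := by
  have h := (hasDerivAt_inv h0).comp_hasFDerivAt X
    (ContinuousLinearMap.fst ℝ ℝ E).hasFDerivAt
  exact h

private theorem L1_g {X : ℝ × E} (h0 : X.1 ≠ 0) :
    HasFDerivAt (fun Y : ℝ × E => Y.1⁻¹ • Y.2) (L1_L X) X := by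
  have h := (L1_inv (E := E) h0).smul (ContinuousLinearMap.snd ℝ ℝ E).hasFDerivAt (x := X)
  refine h.congr_fderiv (ContinuousLinearMap.ext fun v => ?_)
  rw [L1_L_apply]
  simp only [add_apply, smul_apply,
    ContinuousLinearMap.smulRight_apply, ContinuousLinearMap.coe_snd', ContinuousLinearMap.coe_fst',
    smul_eq_mul, smul_sub, smul_smul]
  rw [sub_eq_add_neg, ← neg_smul]
  congr 2
  ring

/-- piece `L1`: derivatives of `F X = ρ (X.1⁻¹ • X.2)` on the cone; `z = X.1⁻¹ • X.2`, `‖z‖ < 1`.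
Proof. The derivative of `X ↦ X.1⁻¹ • X.2` in the direction `v` is `X.1⁻¹ • (v.2 - v.1 • z)`; chain rule, twice. -/
theorem cone_derivs {ρ : E → ℝ} (hs : ContDiffOn ℝ 3 ρ (Metric.ball 0 1)) :
    ContDiffOn ℝ 3 (fun X : ℝ × E => ρ (X.1⁻¹ • X.2)) (Cone E) ∧
    (∀ X ∈ Cone E, ∀ v, D1 (fun X : ℝ × E => ρ (X.1⁻¹ • X.2)) X v =
      X.1⁻¹ * fderiv ℝ ρ (X.1⁻¹ • X.2) (v.2 - v.1 • (X.1⁻¹ • X.2))) ∧
    (∀ X ∈ Cone E, ∀ u v, D2 (fun X : ℝ × E => ρ (X.1⁻¹ • X.2)) X u v =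
      (X.1⁻¹) ^ 2 * (S2 ρ (X.1⁻¹ • X.2) (u.2 - u.1 • (X.1⁻¹ • X.2)) (v.2 - v.1 • (X.1⁻¹ • X.2))
        - u.1 * fderiv ℝ ρ (X.1⁻¹ • X.2) (v.2 - v.1 • (X.1⁻¹ • X.2))
        - v.1 * fderiv ℝ ρ (X.1⁻¹ • X.2) (u.2 - u.1 • (X.1⁻¹ • X.2)))) := by
  have hc : ContDiffOn ℝ 3 (fun X : ℝ × E => ρ (X.1⁻¹ • X.2)) (Cone E) := by
    refine hs.comp (t := Metric.ball 0 1) ?_ (fun X hX => L1_maps hX)
    refine ContDiffOn.smul ?_ contDiffOn_snd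
    exact contDiffOn_fst.inv (fun X hX => (L1_pos hX).ne')
  have hat : ∀ z ∈ Metric.ball (0 : E) 1, ContDiffAt ℝ 3 ρ z := fun z hz =>
    hs.contDiffAt (Metric.isOpen_ball.mem_nhds hz)
  have hd : ∀ z ∈ Metric.ball (0 : E) 1, HasFDerivAt ρ (fderiv ℝ ρ z) z := fun z hz =>
    ((hat z hz).differentiableAt (by norm_num)).hasFDerivAt
  have hd2 : ∀ z ∈ Metric.ball (0 : E) 1, HasFDerivAt (fun y => fderiv ℝ ρ y) (S2 ρ z) z := by
    intro z hz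
    have h1 : ContDiffAt ℝ 2 (fun y => fderiv ℝ ρ y) z :=
      (hat z hz).fderiv_right (m := 2) (by norm_num)
    exact (h1.differentiableAt (by norm_num)).hasFDerivAt
  have hF : ∀ X ∈ Cone E, HasFDerivAt (fun X : ℝ × E => ρ (X.1⁻¹ • X.2))
      ((fderiv ℝ ρ (X.1⁻¹ • X.2)).comp (L1_L X)) X := by
    intro X hX
    exact (hd _ (L1_maps hX)).comp X (L1_g (L1_pos hX).ne')
  have h1 : ∀ X ∈ Cone E, ∀ v, D1 (fun X : ℝ × E => ρ (X.1⁻¹ • X.2)) X v =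
      X.1⁻¹ * fderiv ℝ ρ (X.1⁻¹ • X.2) (v.2 - v.1 • (X.1⁻¹ • X.2)) := by
    intro X hX v
    rw [D1, (hF X hX).fderiv, ContinuousLinearMap.comp_apply, L1_L_apply, map_smul, smul_eq_mul]
  refine ⟨hc, h1, ?_⟩
  intro X hX u v
  have hFd : DifferentiableAt ℝ (fun Y => fderiv ℝ (fun X : ℝ × E => ρ (X.1⁻¹ • X.2)) Y) X := by
    have h2 : ContDiffAt ℝ 3 (fun X : ℝ × E => ρ (X.1⁻¹ • X.2)) X :=
      hc.contDiffAt (L1_open.mem_nhds hX)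
    exact (h2.fderiv_right (m := 2) (by norm_num)).differentiableAt (by norm_num)
  have e1 : D2 (fun X : ℝ × E => ρ (X.1⁻¹ • X.2)) X u v =
      fderiv ℝ (fun Y => fderiv ℝ (fun X : ℝ × E => ρ (X.1⁻¹ • X.2)) Y v) X u := by
    rw [D2, fderiv_clm_apply hFd (differentiableAt_const v)]
    simp
  have e2 : (fun Y => fderiv ℝ (fun X : ℝ × E => ρ (X.1⁻¹ • X.2)) Y v) =ᶠ[𝓝 X]
      fun Y => Y.1⁻¹ * fderiv ℝ ρ (Y.1⁻¹ • Y.2) (v.2 - v.1 • (Y.1⁻¹ • Y.2)) := by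
    filter_upwards [L1_open.mem_nhds hX] with Y hY
    exact h1 Y hY v
  rw [e1, e2.fderiv_eq]
  have h0 := (L1_pos hX).ne'
  have hg := L1_g (E := E) h0
  have a1 : HasFDerivAt (fun Y : ℝ × E => fderiv ℝ ρ (Y.1⁻¹ • Y.2))
      ((S2 ρ (X.1⁻¹ • X.2)).comp (L1_L X)) X := (hd2 _ (L1_maps hX)).comp X hg
  have a2 : HasFDerivAt (fun Y : ℝ × E => v.2 - v.1 • (Y.1⁻¹ • Y.2))
      (-(v.1 • L1_L X)) X := by
    have := (hasFDerivAt_const v.2 X).sub (hg.const_smul v.1)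
    rwa [zero_sub] at this
  have a3 := a1.clm_apply a2
  have a4 : HasFDerivAt (fun Y : ℝ × E =>
      Y.1⁻¹ * fderiv ℝ ρ (Y.1⁻¹ • Y.2) (v.2 - v.1 • (Y.1⁻¹ • Y.2))) _ X :=
    (L1_inv (E := E) h0).mul a3
  rw [a4.fderiv]
  simp only [add_apply, smul_apply,
    ContinuousLinearMap.comp_apply, ContinuousLinearMap.coe_fst', smul_eq_mul,
    neg_apply, ContinuousLinearMap.flip_apply, L1_L_apply, map_neg, map_smul]
  field_simp
  ring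

private theorem L2_alg {x c q u σ Z m a : ℝ} (hx : 0 < x) (hc : 0 ≤ c) (hq : 0 < q) :
    √(x ^ 2 * c) * ((((x⁻¹) ^ 2 * (σ - Z - 2 * u)) -
      ((x⁻¹) ^ 2 * ((x⁻¹) ^ 2 * (m - 2 * u * q))) / ((x⁻¹) ^ 2 * q)) / √((x⁻¹) ^ 2 * q) -
      a * (-(x⁻¹ * u)) / (x * √((x⁻¹) ^ 2 * q))) =
    √(c / q) * (σ - Z - m / q + a * u) := by
  have hx1 : (0 : ℝ) < x⁻¹ := inv_pos.2 hx
  have h1 : √(x ^ 2 * c) = x * √c := by
    rw [Real.sqrt_mul (by positivity), Real.sqrt_sq hx.le]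
  have h2 : √((x⁻¹) ^ 2 * q) = x⁻¹ * √q := by
    rw [Real.sqrt_mul (by positivity), Real.sqrt_sq hx1.le]
  have hs : 0 < √q := Real.sqrt_pos.2 hq
  rw [h1, h2, Real.sqrt_div hc]
  field_simp
  ring

private theorem L2_grad {ρ : E → ℝ} {z : E} (w : E) :
    inner ℝ (gradient ρ z) w = fderiv ℝ ρ z w := by
  unfold gradient
  rw [InnerProductSpace.toDual_symm_apply]

private theorem L2_q {ρ : E → ℝ} {z : E} (hz : ‖z‖ < 1) (hne : fderiv ℝ ρ z ≠ 0) :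
    0 < qb ρ z := by
  have h0 : gradient ρ z ≠ 0 := by
    intro h
    apply hne
    ext w
    rw [← L2_grad w, h]
    simp
  have hp : 0 < ‖gradient ρ z‖ := norm_pos_iff.2 h0
  have h1 : |fderiv ℝ ρ z z| ≤ ‖gradient ρ z‖ * ‖z‖ := by
    rw [← L2_grad z]
    exact abs_real_inner_le_norm _ _
  have h2 : ‖gradient ρ z‖ * ‖z‖ < ‖gradient ρ z‖ := by nlinarith
  have h3 : |fderiv ℝ ρ z z| < ‖gradient ρ z‖ := lt_of_le_of_lt h1 h2
  have h4 : (fderiv ℝ ρ z z) ^ 2 < ‖gradient ρ z‖ ^ 2 := by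
    rw [← sq_abs (fderiv ℝ ρ z z)]
    exact pow_lt_pow_left₀ h3 (abs_nonneg _) two_ne_zero
  unfold qb
  linarith

/-- piece `L2`: the mean curvature.
Proof. `x₀ = X.1`, `z = x₀⁻¹ • X.2`, `p = gradient ρ z`, `u = ⟪p, z⟫ = fderiv ρ z z`, `A = S2 ρ z`, `m = mb ρ z`,
`q = qb ρ z > 0` (`(fderiv ρ z z) ^ 2 ≤ ‖p‖ ^ 2 ‖z‖ ^ 2`, `p ≠ 0`). By `cone_derivs`:
`gradL (D1 F X) = (u / x₀, p / x₀)`, `qq F X = q / x₀ ^ 2`,
`trB (D2 F X) = x₀⁻² (∑ A b b - A z z - 2 u)`,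
`D2 F X g g = x₀⁻⁴ (A m m - 2 u q)` (`⟪p, m⟫ = q`), so
`D2 F X g g / qq F X = x₀⁻² (A m m / q - 2 u)`; `D1 F X (1, 0) = - x₀⁻¹ u`. Hence
`Emean a F X = x₀⁻¹ (∑ A b b - A z z - A m m / q + a u) / √q`, and `-B X X = x₀ ^ 2 (1 - ‖z‖ ^ 2)`. -/
theorem Emean_cone {a : ℝ} {ρ : E → ℝ} (hs : ContDiffOn ℝ 3 ρ (Metric.ball 0 1)) {X : ℝ × E}
    (hX : X ∈ Cone E) (hne : fderiv ℝ ρ (X.1⁻¹ • X.2) ≠ 0) :
    √(-B X X) * Emean a (fun X : ℝ × E => ρ (X.1⁻¹ • X.2)) X = Eball a ρ (X.1⁻¹ • X.2) := by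
  obtain ⟨-, hd1, hd2⟩ := cone_derivs hs
  have hx : 0 < X.1 := L1_pos hX
  have hz : ‖X.1⁻¹ • X.2‖ < 1 := mem_ball_zero_iff.1 (L1_maps hX)
  have hq := L2_q hz hne
  have hBX : -B X X = X.1 ^ 2 * (1 - ‖X.1⁻¹ • X.2‖ ^ 2) := by
    unfold B
    rw [real_inner_self_eq_norm_sq, norm_smul, norm_inv, Real.norm_of_nonneg hx.le]
    field_simp
    ring
  have d1 := hd1 X hX
  have d2 := hd2 X hX
  unfold Emean Mm qq trB Eball
  generalize hFd : D1 (fun X : ℝ × E => ρ (X.1⁻¹ • X.2)) X = D at d1 ⊢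
  generalize hFd2 : D2 (fun X : ℝ × E => ρ (X.1⁻¹ • X.2)) X = Q at d2 ⊢
  rw [hBX]
  generalize hzz : X.1⁻¹ • X.2 = z at d1 d2 hz hq hne ⊢
  generalize hx0 : X.1 = x at d1 d2 hx ⊢
  have g1 : D (1, 0) = -(x⁻¹ * fderiv ℝ ρ z z) := by
    rw [d1]
    simp
  have g2 : gradL D = (x⁻¹ * fderiv ℝ ρ z z, x⁻¹ • gradient ρ z) := by
    unfold gradL
    rw [g1, neg_neg]
    congr 1
    have h1 : D.comp (ContinuousLinearMap.inr ℝ ℝ E) = x⁻¹ • fderiv ℝ ρ z := by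
      ext w
      simp [d1]
    rw [h1, map_smul]
    rfl
  have hpp : fderiv ℝ ρ z (gradient ρ z) = ‖gradient ρ z‖ ^ 2 := by
    rw [← L2_grad, real_inner_self_eq_norm_sq]
  have gq : B (gradL D) (gradL D) = (x⁻¹) ^ 2 * qb ρ z := by
    rw [g2]
    unfold B qb
    simp only [inner_smul_left, inner_smul_right, real_inner_self_eq_norm_sq]
    simp
    ring
  have gm : (gradL D).2 - (gradL D).1 • z = x⁻¹ • mb ρ z := by
    rw [g2]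
    unfold mb
    simp only [smul_sub, smul_smul]
  have fm : fderiv ℝ ρ z (mb ρ z) = qb ρ z := by
    unfold mb qb
    rw [map_sub, map_smul, hpp, smul_eq_mul]
    ring
  have gQ : Q (gradL D) (gradL D) =
      (x⁻¹) ^ 2 * ((x⁻¹) ^ 2 * (S2 ρ z (mb ρ z) (mb ρ z) - 2 * fderiv ℝ ρ z z * qb ρ z)) := by
    rw [d2, gm]
    simp only [map_smul, smul_apply, smul_eq_mul, fm]
    rw [g2]
    ring
  have gt : (∑ i, Q (0, stdOrthonormalBasis ℝ E i) (0, stdOrthonormalBasis ℝ E i)) -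
      Q (1, 0) (1, 0) = (x⁻¹) ^ 2 *
        ((∑ i, S2 ρ z (stdOrthonormalBasis ℝ E i) (stdOrthonormalBasis ℝ E i)) - S2 ρ z z z -
          2 * fderiv ℝ ρ z z) := by
    have h1 : ∀ w : E, Q (0, w) (0, w) = (x⁻¹) ^ 2 * S2 ρ z w w := by
      intro w
      rw [d2]
      simp
    have h2 : Q (1, 0) (1, 0) = (x⁻¹) ^ 2 * (S2 ρ z z z + 2 * fderiv ℝ ρ z z) := by
      rw [d2]
      simp only [one_smul, zero_sub, map_neg, neg_apply, neg_neg, one_mul, mul_neg]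
      ring
    simp only [h1, h2]
    rw [← Finset.mul_sum]
    ring
  rw [gt, gQ, gq, g1]
  exact L2_alg hx (by nlinarith [norm_nonneg z]) hq

private theorem L3_norm {X : ℝ × E} (hX : X ∈ Cone E) : ‖X.1⁻¹ • X.2‖ = ‖X.2‖ / X.1 := by
  rw [norm_smul, norm_inv, Real.norm_of_nonneg (fst_pos hX).le, div_eq_inv_mul]

private theorem L3_mem {X : ℝ × E} (hX : X ∈ Cone E) : X.1⁻¹ • X.2 ∈ Metric.ball (0 : E) 1 := by
  rw [mem_ball_zero_iff, L3_norm hX, div_lt_one (fst_pos hX)]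
  exact hX

/-- piece `L3`. -/
theorem dom_of_ball {a H : ℝ} {ρ : E → ℝ} (hs : ContDiffOn ℝ 3 ρ (Metric.ball 0 1))
    (hbd : ∃ R : ℝ, R < 1 ∧ ∀ z ∈ Metric.ball (0 : E) 1, ρ z ≤ 0 → ‖z‖ ≤ R)
    (hreg : ∀ z ∈ Metric.ball (0 : E) 1, ρ z = 0 → fderiv ℝ ρ z ≠ 0)
    (heq : ∀ z ∈ Metric.ball (0 : E) 1, ρ z = 0 → Eball a ρ z = H) :
    Dom a H (fun X : ℝ × E => ρ (X.1⁻¹ • X.2)) := by
  have hz : ∀ X ∈ Cone E, X.1⁻¹ • X.2 ∈ Metric.ball (0 : E) 1 := fun X hX => L3_mem hX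
  refine ⟨(cone_derivs hs).1, ?_, ?_, ?_, ?_⟩
  · intro X hX t ht
    have h0 := fst_pos hX
    change ρ ((t • X).1⁻¹ • (t • X).2) = ρ (X.1⁻¹ • X.2)
    congr 1
    rw [Prod.smul_fst, Prod.smul_snd, smul_smul, smul_eq_mul, mul_inv, mul_right_comm,
      inv_mul_cancel₀ ht.ne', one_mul]
  · obtain ⟨R, hR, h⟩ := hbd
    refine ⟨R, hR, fun X hX hF => ?_⟩
    have h0 := fst_pos hX
    have h1 := h _ (hz X hX) hF
    rw [L3_norm hX, div_le_iff₀ h0] at h1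
    exact h1
  · intro X hX hF hD
    have h0 := fst_pos hX
    apply hreg _ (hz X hX) hF
    ext w
    have h1 := (cone_derivs hs).2.1 X hX (0, w)
    rw [hD] at h1
    simp only [zero_apply, zero_smul, sub_zero] at h1 ⊢
    rcases mul_eq_zero.1 h1.symm with h2 | h2
    · exact absurd (inv_eq_zero.1 h2) h0.ne'
    · exact h2
  · intro X hX hF
    rw [Emean_cone hs hX (hreg _ (hz X hX) hF)]
    exact heq _ (hz X hX) hF

/-- piece `L3`: the round conclusion in the ball: `round` and `X = (1, z)`. -/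
theorem round_ball [Nontrivial E] {a H : ℝ} (ha : 0 < a) {ρ : E → ℝ}
    (hs : ContDiffOn ℝ 3 ρ (Metric.ball 0 1))
    (hbd : ∃ R : ℝ, R < 1 ∧ ∀ z ∈ Metric.ball (0 : E) 1, ρ z ≤ 0 → ‖z‖ ≤ R)
    (hne : ∃ z ∈ Metric.ball (0 : E) 1, ρ z < 0)
    (hreg : ∀ z ∈ Metric.ball (0 : E) 1, ρ z = 0 → fderiv ℝ ρ z ≠ 0)
    (heq : ∀ z ∈ Metric.ball (0 : E) 1, ρ z = 0 → Eball a ρ z = H) :
    ∃ R : ℝ, 0 < R ∧ R < 1 ∧ ∀ z ∈ Metric.ball (0 : E) 1,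
      (ρ z < 0 ↔ ‖z‖ < R) ∧ (ρ z = 0 ↔ ‖z‖ = R) := by
  have hD := dom_of_ball hs hbd hreg heq
  have hmem : ∀ z ∈ Metric.ball (0 : E) 1, ((1 : ℝ), z) ∈ Cone E := by
    intro z hz
    have h := mem_ball_zero_iff.1 hz
    exact h
  obtain ⟨R, h0, h1, h2⟩ := round hD ha (by
    obtain ⟨z, hz, h⟩ := hne
    refine ⟨(1, z), hmem z hz, ?_⟩
    simpa using h)
  refine ⟨R, h0, h1, fun z hz => ?_⟩
  have h3 := h2 (1, z) (hmem z hz)
  simpa using h3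

end Pool.Agent.Helper41.ALX
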