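import Pool.Agent.Helper41.ALX.Defs

/-! # ALX: Lorentz algebra -/

set_option autoImplicit false
set_option linter.unusedSectionVars false
set_option linter.unusedVariables false

namespace Pool.Agent.Helper41.ALX

open scoped ContDiff

variable {E : Type*} [NormedAddCommGroup E] [InnerProductSpace ℝ E]

theorem B_comm (X Y : ℝ × E) : B X Y = B Y X := by
  unfold B
  rw [real_inner_comm, mul_comm]

theorem B_add_left (X Y Z : ℝ × E) : B (X + Y) Z = B X Z + B Y Z := by
  unfold B
  simp only [Prod.snd_add, Prod.fst_add, inner_add_left]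
  ring

theorem B_add_right (X Y Z : ℝ × E) : B X (Y + Z) = B X Y + B X Z := by
  rw [B_comm, B_add_left, B_comm Y, B_comm Z]

theorem B_smul_left (c : ℝ) (X Y : ℝ × E) : B (c • X) Y = c * B X Y := by
  unfold B
  simp only [Prod.smul_snd, Prod.smul_fst, real_inner_smul_left, smul_eq_mul]
  ring

theorem B_smul_right (c : ℝ) (X Y : ℝ × E) : B X (c • Y) = c * B X Y := by
  rw [B_comm, B_smul_left, B_comm]

theorem B_neg_left (X Y : ℝ × E) : B (-X) Y = -B X Y := by
  rw [← neg_one_smul ℝ X, B_smul_left]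
  ring

theorem B_neg_right (X Y : ℝ × E) : B X (-Y) = -B X Y := by
  rw [B_comm, B_neg_left, B_comm]

theorem B_sub_left (X Y Z : ℝ × E) : B (X - Y) Z = B X Z - B Y Z := by
  rw [sub_eq_add_neg, B_add_left, B_neg_left]
  ring

theorem B_sub_right (X Y Z : ℝ × E) : B X (Y - Z) = B X Y - B X Z := by
  rw [B_comm, B_sub_left, B_comm Y, B_comm Z]

@[simp] theorem B_zero_left (X : ℝ × E) : B 0 X = 0 := by
  simp [B]

@[simp] theorem B_zero_right (X : ℝ × E) : B X 0 = 0 := by
  simp [B]

theorem B_sum_right {ι : Type*} (s : Finset ι) (X : ℝ × E) (f : ι → ℝ × E) :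
    B X (∑ i ∈ s, f i) = ∑ i ∈ s, B X (f i) := by
  classical
  induction s using Finset.induction_on with
  | empty => simp
  | insert i s hi ih => rw [Finset.sum_insert hi, Finset.sum_insert hi, B_add_right, ih]

theorem B_origin (X : ℝ × E) : B X (1, 0) = -X.1 := by
  simp [B]

theorem continuous_B : Continuous (fun p : (ℝ × E) × (ℝ × E) => B p.1 p.2) := by
  unfold B
  fun_prop

theorem isOpen_Cone : IsOpen (Cone E) :=
  isOpen_lt (by fun_prop) (by fun_prop)

theorem fst_pos {X : ℝ × E} (hX : X ∈ Cone E) : 0 < X.1 :=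
  lt_of_le_of_lt (norm_nonneg _) hX

theorem cone_iff {X : ℝ × E} : X ∈ Cone E ↔ 0 < X.1 ∧ B X X < 0 := by
  unfold Cone B
  simp only [Set.mem_setOf_eq, real_inner_self_eq_norm_mul_norm]
  constructor
  · intro h
    have h0 := norm_nonneg X.2
    exact ⟨by linarith, by nlinarith⟩
  · rintro ⟨h0, h1⟩
    by_contra hc
    have h2 := not_lt.1 hc
    nlinarith [norm_nonneg X.2]

theorem cone_smul {X : ℝ × E} (hX : X ∈ Cone E) {t : ℝ} (ht : 0 < t) : t • X ∈ Cone E := by
  have h := hX
  unfold Cone at h ⊢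
  simp only [Set.mem_setOf_eq, Prod.smul_snd, Prod.smul_fst, smul_eq_mul, norm_smul,
    Real.norm_eq_abs, abs_of_pos ht] at h ⊢
  exact mul_lt_mul_of_pos_left h ht

/-- two future vectors have negative product -/
theorem B_neg_of_cone {X Y : ℝ × E} (hX : X ∈ Cone E) (hY : Y ∈ Cone E) : B X Y < 0 := by
  have h1 : inner ℝ X.2 Y.2 ≤ ‖X.2‖ * ‖Y.2‖ := real_inner_le_norm _ _
  have h2 : ‖X.2‖ < X.1 := hX
  have h3 : ‖Y.2‖ < Y.1 := hY
  have h4 : ‖X.2‖ * ‖Y.2‖ < X.1 * Y.1 := by
    nlinarith [norm_nonneg X.2, norm_nonneg Y.2]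
  unfold B
  linarith

/-- the orthogonal complement of a future vector is positive definite -/
theorem B_pos_of_orth {X v : ℝ × E} (hX : X ∈ Cone E) (h : B X v = 0) (hv : v ≠ 0) :
    0 < B v v := by
  have h1 : |inner ℝ X.2 v.2| ≤ ‖X.2‖ * ‖v.2‖ := abs_real_inner_le_norm _ _
  have h2 : ‖X.2‖ < X.1 := hX
  have h0 := fst_pos hX
  have h3 : inner ℝ X.2 v.2 = X.1 * v.1 := by
    unfold B at h
    linarith
  rw [h3, abs_mul, abs_of_pos h0] at h1
  have h4 : |v.1| < ‖v.2‖ := by
    by_cases hz : ‖v.2‖ = 0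
    · rw [hz, mul_zero] at h1
      have h5 : |v.1| = 0 := by
        have := abs_nonneg v.1
        nlinarith
      exfalso
      apply hv
      have h6 : v.1 = 0 := abs_eq_zero.1 h5
      have h7 : v.2 = 0 := norm_eq_zero.1 hz
      exact Prod.ext h6 h7
    · have h5 : 0 < ‖v.2‖ := lt_of_le_of_ne (norm_nonneg _) (Ne.symm hz)
      have h6 : X.1 * |v.1| < X.1 * ‖v.2‖ := by nlinarith
      exact lt_of_mul_lt_mul_left h6 h0.le
  unfold B
  rw [real_inner_self_eq_norm_mul_norm, ← abs_mul_abs_self v.1]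
  nlinarith [abs_nonneg v.1]

theorem B_refl {n : ℝ × E} (hn : B n n = 1) (X Y : ℝ × E) : B (refl n X) (refl n Y) = B X Y := by
  unfold refl
  rw [B_sub_left, B_sub_right, B_sub_right, B_smul_left, B_smul_left, B_smul_right, B_smul_right,
    hn, B_comm n Y]
  ring

theorem B_refl_right {n : ℝ × E} (X : ℝ × E) (Y : ℝ × E) :
    B (refl n X) Y = B X (refl n Y) := by
  unfold refl
  rw [B_sub_left, B_sub_right, B_smul_left, B_smul_right, B_comm n Y]
  ring

theorem B_refl_n {n : ℝ × E} (hn : B n n = 1) (X : ℝ × E) : B (refl n X) n = -B X n := by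
  unfold refl
  rw [B_sub_left, B_smul_left, hn]
  ring

theorem refl_refl {n : ℝ × E} (hn : B n n = 1) (X : ℝ × E) : refl n (refl n X) = X := by
  have h := B_refl_n hn X
  show refl n X - (2 * B (refl n X) n) • n = X
  rw [h]
  unfold refl
  module

theorem refl_eq_self {n X : ℝ × E} (h : B X n = 0) : refl n X = X := by
  simp [refl, h]

theorem refl_smul (n X : ℝ × E) (t : ℝ) : refl n (t • X) = t • refl n X := by
  unfold refl
  rw [B_smul_left, smul_sub, smul_smul]
  congr 2
  ring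

theorem refl_add (n X Y : ℝ × E) : refl n (X + Y) = refl n X + refl n Y := by
  unfold refl
  rw [B_add_left]
  module

theorem refl_cone {n X : ℝ × E} (hn : B n n = 1) (hX : X ∈ Cone E) : refl n X ∈ Cone E := by
  have h1 : B (refl n X) (refl n X) < 0 := by
    rw [B_refl hn]
    exact (cone_iff.1 hX).2
  have h2 : B X (refl n X) < 0 := by
    unfold refl
    rw [B_sub_right, B_smul_right]
    nlinarith [(cone_iff.1 hX).2, sq_nonneg (B X n)]
  rcases lt_trichotomy (refl n X).1 0 with h | h | h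
  · exfalso
    have h3 : -(refl n X) ∈ Cone E := by
      rw [cone_iff]
      refine ⟨by simpa using h, ?_⟩
      rw [B_neg_left, B_neg_right]
      linarith
    have h4 := B_neg_of_cone hX h3
    rw [B_neg_right] at h4
    linarith
  · exfalso
    unfold B at h1
    rw [h, real_inner_self_eq_norm_mul_norm] at h1
    nlinarith [norm_nonneg (refl n X).2]
  · exact cone_iff.2 ⟨h, h1⟩

/-- a unit vector orthogonal to `X` has smaller first coordinate than `X` -/
theorem fst_lt {X N : ℝ × E} (hX : X ∈ Cone E) (h1 : B X X = -1) (hN : B N N = 1)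
    (h : B X N = 0) : N.1 < X.1 := by
  by_contra hc
  have h0 := fst_pos hX
  have hc' := not_lt.1 hc
  have h2 : B (N - X) (N - X) = 0 := by
    rw [B_sub_left, B_sub_right, B_sub_right, hN, h1, h, B_comm, h]
    ring
  have h3 : B X (N - X) = 1 := by
    rw [B_sub_right, h, h1]
    ring
  unfold B at h2 h3
  rw [real_inner_self_eq_norm_mul_norm] at h2
  have h4 : 0 ≤ (N - X).1 := by
    simp only [Prod.fst_sub]
    linarith
  have h5 : ‖(N - X).2‖ = (N - X).1 := by
    nlinarith [norm_nonneg (N - X).2, mul_self_nonneg (‖(N - X).2‖ - (N - X).1),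
      abs_of_nonneg h4, abs_of_nonneg (norm_nonneg (N - X).2),
      (mul_self_eq_mul_self_iff.1 (by linarith : ‖(N - X).2‖ * ‖(N - X).2‖ =
        (N - X).1 * (N - X).1))]
  have h6 : inner ℝ X.2 (N - X).2 ≤ ‖X.2‖ * ‖(N - X).2‖ := real_inner_le_norm _ _
  have h7 : ‖X.2‖ < X.1 := hX
  rw [h5] at h6
  nlinarith

/-- the same for two arbitrary future / spacelike vectors: a plane which separates -/
theorem refl_of_pair {X Y : ℝ × E} (hX : X ∈ Cone E) (hY : Y ∈ Cone E) (h1 : B X X = -1)
    (h2 : B Y Y = -1) (hne : X ≠ Y) :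
    0 < B (X - Y) (X - Y) ∧
      B ((√(B (X - Y) (X - Y)))⁻¹ • (X - Y)) ((√(B (X - Y) (X - Y)))⁻¹ • (X - Y)) = 1 ∧
      0 < B X ((√(B (X - Y) (X - Y)))⁻¹ • (X - Y)) ∧
      refl ((√(B (X - Y) (X - Y)))⁻¹ • (X - Y)) X = Y := by
  have h3 : B (X + Y) (X - Y) = 0 := by
    rw [B_add_left, B_sub_right, B_sub_right, h1, h2, B_comm Y X]
    ring
  have hXY : X + Y ∈ Cone E := by
    have hx : ‖X.2‖ < X.1 := hX
    have hy : ‖Y.2‖ < Y.1 := hY
    show ‖(X + Y).2‖ < (X + Y).1
    have := norm_add_le X.2 Y.2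
    simp only [Prod.snd_add, Prod.fst_add]
    linarith
  have h4 : 0 < B (X - Y) (X - Y) := B_pos_of_orth hXY h3 (sub_ne_zero.2 hne)
  have h5 : B (X - Y) (X - Y) = 2 * B X (X - Y) := by
    have : B X (X - Y) - B Y (X - Y) = B (X - Y) (X - Y) := by rw [B_sub_left X Y]
    have h6 : B X (X - Y) + B Y (X - Y) = 0 := by rw [← B_add_left]; exact h3
    linarith
  set d := B (X - Y) (X - Y) with hd
  have hs : 0 < √d := Real.sqrt_pos.2 h4
  have hss : √d * √d = d := Real.mul_self_sqrt h4.le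
  refine ⟨h4, ?_, ?_, ?_⟩
  · rw [B_smul_left, B_smul_right, ← hd]
    field_simp
    nlinarith
  · rw [B_smul_right]
    have : 0 < B X (X - Y) := by linarith
    positivity
  · unfold refl
    rw [B_smul_right, smul_smul]
    have h6 : 2 * ((√d)⁻¹ * B X (X - Y)) * (√d)⁻¹ = 1 := by
      have h7 : B X (X - Y) = d / 2 := by linarith
      rw [h7]
      field_simp
      nlinarith
    rw [h6]
    module

variable [FiniteDimensional ℝ E]

theorem B_gradL (l : (ℝ × E) →L[ℝ] ℝ) (v : ℝ × E) : B (gradL l) v = l v := by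
  unfold B gradL
  simp only [InnerProductSpace.toDual_symm_apply]
  have h : v = v.1 • ((1 : ℝ), (0 : E)) + ((0 : ℝ), v.2) := by
    ext <;> simp
  conv_rhs => rw [h]
  rw [map_add, map_smul, smul_eq_mul]
  simp only [ContinuousLinearMap.comp_apply, ContinuousLinearMap.inr_apply]
  ring

/-- nondegeneracy of `B` -/
theorem eq_of_B {u v : ℝ × E} (h : ∀ w, B u w = B v w) : u = v := by
  have h1 : ∀ w, B (u - v) w = 0 := fun w => by rw [B_sub_left, h w, sub_self]
  have h2 := h1 (1, 0)
  rw [B_origin] at h2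
  have h3 := h1 (0, (u - v).2)
  unfold B at h3
  simp only [mul_zero, sub_zero] at h3
  have h4 : (u - v).2 = 0 := by rwa [inner_self_eq_zero] at h3
  have h5 : (u - v).1 = 0 := by linarith
  exact sub_eq_zero.1 (Prod.ext h5 h4)

end Pool.Agent.Helper41.ALX
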