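import Pool.Agent.Helper41.ALX.StepB

/-! # ALX, pieces C1, C2, C3, C4, C5: the orthogonality case -/

set_option autoImplicit false
set_option linter.unusedSectionVars false
set_option linter.unusedVariables false

namespace Pool.Agent.Helper41.ALX

open Filter Topology
open scoped ContDiff

variable {E : Type*} [NormedAddCommGroup E] [InnerProductSpace ℝ E] [FiniteDimensional ℝ E]

/-- piece `C1`: tilting the hyperplane along a null direction.
Proof. Suppose `D := D2 F X n n < r := √(qq F X)`. For `ε > 0` let `m = n + ε • (X - N)`: `B m m = 1` exactly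
(`X - N` is null and orthogonal to `n`), `m.1 = n.1 + ε * (X.1 - N.1) > σ` (`fst_lt`), so `QQ F m`. Choose
`μ` with `-1 < μ` and `2 * D + (μ - 1) * r < 0`, and let
`X' = X + (2 ε) • n + (ε ^ 2 * (μ - 1)) • N`. Then `B X' m = ε - ε ^ 3 * (μ - 1) > 0` for small `ε`, and
`refl m X' = X + ε ^ 2 • (-2 • X + (μ + 1) • N) + ε ^ 3 • (2 * (μ - 1)) • n + ε ^ 4 • (2 * (μ - 1)) • (X - N)`.
`F X' < 0` for small `ε > 0`: `crv_sign2` with `v = 2 • n`, `w = (μ - 1) • N`, `s = 1`: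
`D2 F X v v + 2 * D1 F X w = 4 * D + 2 * (μ - 1) * r < 0` (`D1 F X N = r * B N N = r`). And
`F (refl m X') > 0`: `crv_sign2` with `v = 0`, `w = -2 • X + (μ + 1) • N`, `s = -1`:
`2 * D1 F X w = 2 * (μ + 1) * r > 0` (`D1_self`). This contradicts `QQ F m`. -/
theorem tilt {F : ℝ × E → ℝ} (hs : ContDiffOn ℝ 3 F (Cone E))
    (hh : ∀ X ∈ Cone E, ∀ t : ℝ, 0 < t → F (t • X) = F X) {σ : ℝ}
    (hQ : ∀ n : ℝ × E, B n n = 1 → σ < n.1 → QQ F n) {n : ℝ × E} (hn : B n n = 1)
    (hn1 : n.1 = σ) {X : ℝ × E} (hX : X ∈ Cone E) (hXX : B X X = -1) (hF : F X = 0)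
    (hXn : B X n = 0) (hDn : D1 F X n = 0) (hq : 0 < qq F X) {N : ℝ × E} (hN : B N N = 1)
    (hXN : B X N = 0) (hNn : B N n = 0) (hDN : ∀ v, D1 F X v = √(qq F X) * B N v) :
    √(qq F X) ≤ D2 F X n n := by
  by_contra hlt
  rw [not_le] at hlt
  have hr : 0 < √(qq F X) := Real.sqrt_pos.2 hq
  obtain ⟨μ, hμ1, hμ2⟩ : ∃ μ : ℝ, -1 < μ ∧ 2 * D2 F X n n + (μ - 1) * √(qq F X) < 0 := by
    refine ⟨-(D2 F X n n / √(qq F X)), ?_, ?_⟩
    · have : D2 F X n n / √(qq F X) < 1 := (div_lt_one hr).2 hlt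
      linarith
    · have : D2 F X n n / √(qq F X) * √(qq F X) = D2 F X n n := div_mul_cancel₀ _ hr.ne'
      nlinarith
  have hD1N : D1 F X N = √(qq F X) := by rw [hDN, hN, mul_one]
  have hD1X : D1 F X X = 0 := D1_self hs hh hX
  have hnX : B n X = 0 := by rw [B_comm, hXn]
  have hnN : B n N = 0 := by rw [B_comm, hNn]
  have hNX : B N X = 0 := by rw [B_comm, hXN]
  have hfst : N.1 < X.1 := fst_lt hX hXX hN hXN
  have e1 : ∀ᶠ ε in 𝓝[>] (0:ℝ),
      (1 : ℝ) * F (crv X ((2:ℝ) • n) ((μ - 1) • N) 0 0 ε) < 0 := by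
    apply crv_sign2 hs hX hF
    · rw [map_smul, hDn, smul_zero]
    · simp only [map_smul, _root_.smul_apply, smul_eq_mul, hD1N]
      nlinarith
  have e2 : ∀ᶠ ε in 𝓝[>] (0:ℝ),
      (-1 : ℝ) * F (crv X 0 ((-2:ℝ) • X + (μ + 1) • N) ((2 * (μ - 1)) • n)
        ((2 * (μ - 1)) • (X - N)) ε) < 0 := by
    apply crv_sign2 hs hX hF
    · exact map_zero _
    · have h0 : D2 F X 0 0 = 0 := map_zero _
      rw [h0, map_add, map_smul, map_smul, hD1X, hD1N]
      simp only [smul_eq_mul]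
      nlinarith
  have e3 : ∀ᶠ ε in 𝓝[>] (0:ℝ), crv X ((2:ℝ) • n) ((μ - 1) • N) 0 0 ε ∈ Cone E :=
    (crv_cone hX _ _ _ _).filter_mono nhdsWithin_le_nhds
  have e4 : ∀ᶠ ε in 𝓝[>] (0:ℝ), 0 < 1 - ε ^ 2 * (μ - 1) := by
    have hc : ContinuousAt (fun ε : ℝ => 1 - ε ^ 2 * (μ - 1)) 0 := by fun_prop
    exact (hc.eventually (lt_mem_nhds (by norm_num))).filter_mono nhdsWithin_le_nhds
  have e5 : ∀ᶠ ε in 𝓝[>] (0:ℝ), 0 < ε := eventually_mem_nhdsWithin
  obtain ⟨ε, ⟨⟨⟨h1, h2⟩, h3⟩, h4⟩, h5⟩ := ((((e1.and e2).and e3).and e4).and e5).exists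
  have hmm : B (n + ε • (X - N)) (n + ε • (X - N)) = 1 := by
    simp only [B_add_left, B_add_right, B_smul_left, B_smul_right, B_sub_left, B_sub_right,
      hn, hXX, hXn, hN, hXN, hNn, hnX, hnN, hNX]
    ring
  have hm1 : σ < (n + ε • (X - N)).1 := by
    simp only [Prod.fst_add, Prod.smul_fst, Prod.fst_sub, smul_eq_mul]
    rw [hn1]
    have := mul_pos h5 (sub_pos.2 hfst)
    linarith
  have hB : B (crv X ((2:ℝ) • n) ((μ - 1) • N) 0 0 ε) (n + ε • (X - N)) =
      ε * (1 - ε ^ 2 * (μ - 1)) := by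
    unfold crv
    simp only [B_add_left, B_add_right, B_smul_left, B_smul_right, B_sub_right,
      hn, hXX, hXn, hN, hXN, hNn, hnX, hnN, hNX, B_zero_left]
    ring
  have hR : refl (n + ε • (X - N)) (crv X ((2:ℝ) • n) ((μ - 1) • N) 0 0 ε) =
      crv X 0 ((-2:ℝ) • X + (μ + 1) • N) ((2 * (μ - 1)) • n) ((2 * (μ - 1)) • (X - N)) ε := by
    unfold refl
    rw [hB]
    unfold crv
    module
  have h6 := hQ _ hmm hm1 _ h3 (by linarith) (by rw [hB]; exact mul_pos h5 h4)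
  rw [hR] at h6
  linarith

/-- piece `C2`: second and third order conditions for the reflection.
Let `R = refl n`, `r = √(qq F X)`; `R N = N`. Let `D1 F X v = 0`, `β = B v n > 0`,
`w = -(D2 F X v v / (2 r)) • N - κ • N`; the points `X' = crv X v w z 0 ε`, `w`, `z` multiples of `N`, have
`B X' n = ε β > 0` and `R X' = crv X (R v) w z 0 ε` (for small `ε` they are in `Cone E`).
(a) `κ > 0`: `D2 F v v + 2 D1 F w = -2 κ r < 0`, so `F X' < 0` (`crv_sign2`), so `F (R X') ≤ 0`, so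
`D2 F (R v) (R v) + 2 D1 F w ≤ 0` (`crv_sign2`, `s = -1`; `D1 F (R v) = D1 F v - 2 β D1 F n = 0`), i.e.
`D2 F (R v) (R v) - D2 F v v ≤ 2 κ r`; `κ → 0`. -/
theorem refl_a {F : ℝ × E → ℝ} (hs : ContDiffOn ℝ 3 F (Cone E)) {n : ℝ × E} (hn : B n n = 1)
    (hW : WW F n) {X : ℝ × E} (hX : X ∈ Cone E) (hF : F X = 0)
    (hXn : B X n = 0) (hDn : D1 F X n = 0) (hq : 0 < qq F X) {N : ℝ × E} (hN : B N N = 1)
    (hNn : B N n = 0) (hDN : ∀ v, D1 F X v = √(qq F X) * B N v) {v : ℝ × E}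
    (hv : D1 F X v = 0) (hvn : 0 < B v n) :
    D2 F X (refl n v) (refl n v) ≤ D2 F X v v := by
  by_contra hlt
  rw [not_le] at hlt
  have hr : 0 < √(qq F X) := Real.sqrt_pos.2 hq
  obtain ⟨κ, hκ, hκ2⟩ : ∃ κ : ℝ, 0 < κ ∧
      D2 F X v v + 2 * κ * √(qq F X) < D2 F X (refl n v) (refl n v) := by
    refine ⟨(D2 F X (refl n v) (refl n v) - D2 F X v v) / (4 * √(qq F X)), ?_, ?_⟩
    · apply div_pos <;> linarith
    · have h1 : 2 * ((D2 F X (refl n v) (refl n v) - D2 F X v v) / (4 * √(qq F X))) *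
          √(qq F X) = (D2 F X (refl n v) (refl n v) - D2 F X v v) / 2 := by
        field_simp
        ring
      rw [h1]
      linarith
  have hD1N : D1 F X N = √(qq F X) := by rw [hDN, hN, mul_one]
  have hRv : D1 F X (refl n v) = 0 := by
    unfold refl
    rw [map_sub, map_smul, hv, hDn, smul_zero, sub_zero]
  obtain ⟨c, hc⟩ : ∃ c : ℝ, c = -(D2 F X v v / (2 * √(qq F X))) - κ := ⟨_, rfl⟩
  have hw : 2 * D1 F X (c • N) = -(D2 F X v v) - 2 * κ * √(qq F X) := by
    rw [map_smul, hD1N, smul_eq_mul, hc]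
    field_simp
  have e1 : ∀ᶠ ε in 𝓝[>] (0:ℝ), (1 : ℝ) * F (crv X v (c • N) 0 0 ε) < 0 := by
    apply crv_sign2 hs hX hF
    · exact hv
    · rw [hw]
      have := mul_pos hκ hr
      linarith
  have e2 : ∀ᶠ ε in 𝓝[>] (0:ℝ), (-1 : ℝ) * F (crv X (refl n v) (c • N) 0 0 ε) < 0 := by
    apply crv_sign2 hs hX hF
    · exact hRv
    · rw [hw]
      linarith
  have e3 : ∀ᶠ ε in 𝓝[>] (0:ℝ), crv X v (c • N) 0 0 ε ∈ Cone E :=
    (crv_cone hX _ _ _ _).filter_mono nhdsWithin_le_nhds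
  have e5 : ∀ᶠ ε in 𝓝[>] (0:ℝ), 0 < ε := eventually_mem_nhdsWithin
  obtain ⟨ε, ⟨⟨h1, h2⟩, h3⟩, h5⟩ := (((e1.and e2).and e3).and e5).exists
  have hB : B (crv X v (c • N) 0 0 ε) n = ε * B v n := by
    unfold crv
    simp only [B_add_left, B_smul_left, hXn, hNn, B_zero_left]
    ring
  have hR : refl n (crv X v (c • N) 0 0 ε) = crv X (refl n v) (c • N) 0 0 ε := by
    unfold refl
    rw [hB]
    unfold crv
    module
  have h6 := hW _ h3 (by linarith) (by rw [hB]; exact mul_pos h5 hvn)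
  rw [hR] at h6
  linarith

/-- piece `C2`. Proof. `v = e + n` in `refl_a`: `B v n = 1`, `refl n v = e - n`; so
`-4 * D2 F X n e ≤ 0`; the same for `-e`. -/
theorem refl_a' {F : ℝ × E → ℝ} (hs : ContDiffOn ℝ 3 F (Cone E)) {n : ℝ × E} (hn : B n n = 1)
    (hW : WW F n) {X : ℝ × E} (hX : X ∈ Cone E) (hF : F X = 0)
    (hXn : B X n = 0) (hDn : D1 F X n = 0) (hq : 0 < qq F X) {N : ℝ × E} (hN : B N N = 1)
    (hNn : B N n = 0) (hDN : ∀ v, D1 F X v = √(qq F X) * B N v) {e : ℝ × E}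
    (he : D1 F X e = 0) (hen : B e n = 0) : D2 F X n e = 0 := by
  have key : ∀ e' : ℝ × E, D1 F X e' = 0 → B e' n = 0 → 0 ≤ D2 F X n e' := by
    intro e' he' hen'
    have hv : D1 F X (e' + n) = 0 := by rw [map_add, he', hDn, add_zero]
    have hvn : B (e' + n) n = 1 := by rw [B_add_left, hen', hn, zero_add]
    have h := refl_a hs hn hW hX hF hXn hDn hq hN hNn hDN hv (by rw [hvn]; exact one_pos)
    have hR : refl n (e' + n) = e' - n := by
      unfold refl
      rw [hvn]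
      module
    rw [hR] at h
    have hsym := D2_symm hs hX e' n
    simp only [map_add, map_sub, add_apply, sub_apply] at h
    linarith
  have h1 := key e he hen
  have h2 := key (-e) (by rw [map_neg, he, neg_zero]) (by rw [B_neg_left, hen, neg_zero])
  rw [map_neg] at h2
  linarith

/-- piece `C3`: third order condition. As in `refl_a`; `w = -(D2 F X v v / (2 r)) • N`
(`κ = 0`), `z = ζ • N`. `D2 F v v + 2 D1 F w = 0`, and `D2 F (R v) (R v) = D2 F v v` by `refl_a'`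
(`v = e + β • n` with `e = v - β • n`, `R v = e - β • n`), so the second order terms of both curves vanish.
Let `κ > 0` and choose `ζ` with `D3 F v v v + 6 D2 F v w + 6 D1 F z = -κ`. Then `F X' < 0` (`crv_sign3`), so
`F (R X') ≤ 0`, so `D3 F (R v) (R v) (R v) + 6 D2 F (R v) w + 6 D1 F z ≤ 0` (`crv_sign3`, `s = -1`); subtract,
`κ → 0`. -/
theorem refl_b {F : ℝ × E → ℝ} (hs : ContDiffOn ℝ 3 F (Cone E)) {n : ℝ × E} (hn : B n n = 1)
    (hW : WW F n) {X : ℝ × E} (hX : X ∈ Cone E) (hF : F X = 0)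
    (hXn : B X n = 0) (hDn : D1 F X n = 0) (hq : 0 < qq F X) {N : ℝ × E} (hN : B N N = 1)
    (hNn : B N n = 0) (hDN : ∀ v, D1 F X v = √(qq F X) * B N v) {v : ℝ × E}
    (hv : D1 F X v = 0) (hvn : 0 < B v n) :
    D3 F X (refl n v) (refl n v) (refl n v) - 3 * (D2 F X v v / √(qq F X)) * D2 F X (refl n v) N
      ≤ D3 F X v v v - 3 * (D2 F X v v / √(qq F X)) * D2 F X v N := by
  by_contra hlt
  rw [not_le] at hlt
  have hr : 0 < √(qq F X) := Real.sqrt_pos.2 hq
  have hD1N : D1 F X N = √(qq F X) := by rw [hDN, hN, mul_one]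
  have hNn' : B N n = 0 := hNn
  set β : ℝ := B v n with hβ
  have hR : refl n v = v - (2 * β) • n := rfl
  -- second derivative
  have he1 : D1 F X (v - β • n) = 0 := by
    rw [map_sub, map_smul, hv, hDn, smul_zero, sub_zero]
  have he2 : B (v - β • n) n = 0 := by
    rw [B_sub_left, B_smul_left, hn, ← hβ]
    ring
  have he3 : D2 F X n (v - β • n) = 0 := refl_a' hs hn hW hX hF hXn hDn hq hN hNn hDN he1 he2
  have he4 : D2 F X (v - β • n) n = 0 := by rw [D2_symm hs hX]; exact he3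
  have hRR : D2 F X (refl n v) (refl n v) = D2 F X v v := by
    have e1 : refl n v = (v - β • n) - β • n := by
      rw [hR]
      module
    have e2 : v = (v - β • n) + β • n := by module
    have h1 : D2 F X (refl n v) (refl n v) =
        D2 F X (v - β • n) (v - β • n) + β ^ 2 * D2 F X n n := by
      rw [e1]
      generalize v - β • n = e at he3 he4 ⊢
      simp only [map_sub, map_smul, _root_.sub_apply, _root_.smul_apply, smul_eq_mul, he3, he4]
      ring
    have h2 : D2 F X v v = D2 F X (v - β • n) (v - β • n) + β ^ 2 * D2 F X n n := by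
      generalize hh : v - β • n = e at he3 he4 e2 ⊢
      rw [e2]
      simp only [map_add, map_smul, _root_.add_apply, _root_.smul_apply, smul_eq_mul, he3, he4]
      ring
    rw [h1, h2]
  set w : ℝ × E := (-(D2 F X v v / (2 * √(qq F X)))) • N with hw
  have hDw : D1 F X w = -(D2 F X v v / 2) := by
    rw [hw, map_smul, hD1N, smul_eq_mul]
    field_simp
  have hD2w : ∀ u, D2 F X u w = -(D2 F X v v / (2 * √(qq F X))) * D2 F X u N := by
    intro u
    rw [hw, map_smul, smul_eq_mul]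
  set G1 : ℝ := D3 F X v v v - 3 * (D2 F X v v / √(qq F X)) * D2 F X v N with hG1
  set G2 : ℝ := D3 F X (refl n v) (refl n v) (refl n v) -
    3 * (D2 F X v v / √(qq F X)) * D2 F X (refl n v) N with hG2
  set z : ℝ × E := ((-(G1 + G2) / 2) / (6 * √(qq F X))) • N with hz
  have hDz : 6 * D1 F X z = -(G1 + G2) / 2 := by
    rw [hz, map_smul, hD1N, smul_eq_mul]
    field_simp
  have e1 : ∀ᶠ ε in 𝓝[>] (0:ℝ), (1 : ℝ) * F (crv X v w z 0 ε) < 0 := by
    apply crv_sign3 hs hX hF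
    · exact hv
    · rw [hDw]
      ring
    · have : D3 F X v v v + 6 * D2 F X v w + 6 * D1 F X z = (G1 - G2) / 2 := by
        rw [hDz, hD2w]
        have h6 : 6 * (-(D2 F X v v / (2 * √(qq F X))) * D2 F X v N) =
            -(3 * (D2 F X v v / √(qq F X)) * D2 F X v N) := by
          field_simp
          ring
        rw [h6]
        linarith
      rw [this]
      linarith
  have e2 : ∀ᶠ ε in 𝓝[>] (0:ℝ), (-1 : ℝ) * F (crv X (refl n v) w z 0 ε) < 0 := by
    apply crv_sign3 hs hX hF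
    · rw [hR, map_sub, map_smul, hv, hDn, smul_zero, sub_zero]
    · rw [hRR, hDw]
      ring
    · have : D3 F X (refl n v) (refl n v) (refl n v) + 6 * D2 F X (refl n v) w +
          6 * D1 F X z = (G2 - G1) / 2 := by
        rw [hDz, hD2w]
        have h6 : 6 * (-(D2 F X v v / (2 * √(qq F X))) * D2 F X (refl n v) N) =
            -(3 * (D2 F X v v / √(qq F X)) * D2 F X (refl n v) N) := by
          field_simp
          ring
        rw [h6]
        linarith
      rw [this]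
      linarith
  have e3 : ∀ᶠ ε in 𝓝[>] (0:ℝ), crv X v w z 0 ε ∈ Cone E :=
    (crv_cone hX _ _ _ _).filter_mono nhdsWithin_le_nhds
  have e5 : ∀ᶠ ε in 𝓝[>] (0:ℝ), 0 < ε := eventually_mem_nhdsWithin
  obtain ⟨ε, ⟨⟨h1, h2⟩, h3⟩, h5⟩ := (((e1.and e2).and e3).and e5).exists
  have hB : B (crv X v w z 0 ε) n = ε * β := by
    unfold crv
    rw [hw, hz]
    simp only [B_add_left, B_smul_left, hXn, hNn', B_zero_left, ← hβ]
    ring
  have hRX : refl n (crv X v w z 0 ε) = crv X (refl n v) w z 0 ε := by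
    have : refl n (crv X v w z 0 ε) = crv X v w z 0 ε - (2 * (ε * β)) • n := by
      unfold refl
      rw [hB]
    rw [this, hR]
    unfold crv
    module
  have h6 := hW _ h3 (by linarith) (by rw [hB]; exact mul_pos h5 hvn)
  rw [hRX] at h6
  linarith

/-- piece `C3`. Proof. `v = n` in `refl_b`: `refl n n = -n`:
`-D3 n n n + 3 (D / r) D2 n N ≤ D3 n n n - 3 (D / r) D2 n N`. -/
theorem refl_n {F : ℝ × E → ℝ} (hs : ContDiffOn ℝ 3 F (Cone E)) {n : ℝ × E} (hn : B n n = 1)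
    (hW : WW F n) {X : ℝ × E} (hX : X ∈ Cone E) (hF : F X = 0)
    (hXn : B X n = 0) (hDn : D1 F X n = 0) (hq : 0 < qq F X) {N : ℝ × E} (hN : B N N = 1)
    (hNn : B N n = 0) (hDN : ∀ v, D1 F X v = √(qq F X) * B N v) :
    0 ≤ D3 F X n n n - 3 * (D2 F X n n / √(qq F X)) * D2 F X n N := by
  have h := refl_b hs hn hW hX hF hXn hDn hq hN hNn hDN (v := n) hDn (by rw [hn]; norm_num)
  have hR : refl n n = -n := by
    unfold refl
    rw [hn]
    module
  rw [hR] at h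
  simp only [map_neg, _root_.neg_apply, neg_neg] at h
  linarith

/-- piece `C3`. Proof. `v = e + β • n` in `refl_b`, `refl n v = e - β • n`; the difference of both sides is
`2 β * (3 D3 n e e + β ^ 2 D3 n n n) - 6 β * (D2 v v / r) * D2 n N` with `D2 v v = D2 e e + β ^ 2 D2 n n`
(`D3_symm12`, `D3_symm23`, `refl_a'`); divide by `6 β` and let `β → 0+`. -/
theorem refl_e {F : ℝ × E → ℝ} (hs : ContDiffOn ℝ 3 F (Cone E)) {n : ℝ × E} (hn : B n n = 1)
    (hW : WW F n) {X : ℝ × E} (hX : X ∈ Cone E) (hF : F X = 0)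
    (hXn : B X n = 0) (hDn : D1 F X n = 0) (hq : 0 < qq F X) {N : ℝ × E} (hN : B N N = 1)
    (hNn : B N n = 0) (hDN : ∀ v, D1 F X v = √(qq F X) * B N v) {e : ℝ × E}
    (he : D1 F X e = 0) (hen : B e n = 0) :
    0 ≤ D3 F X n e e - (D2 F X e e / √(qq F X)) * D2 F X n N := by
  have hr : 0 < √(qq F X) := Real.sqrt_pos.2 hq
  have hne : D2 F X n e = 0 := refl_a' hs hn hW hX hF hXn hDn hq hN hNn hDN he hen
  have hen2 : D2 F X e n = 0 := by rw [D2_symm hs hX]; exact hne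
  have s1 : D3 F X e n e = D3 F X n e e := D3_symm12 hs hX e n e
  have s2 : D3 F X e e n = D3 F X n e e := by rw [D3_symm23 hs hX e e n, s1]
  have s3 : D3 F X n e n = D3 F X n n e := D3_symm23 hs hX n e n
  have s4 : D3 F X e n n = D3 F X n n e := by rw [D3_symm12 hs hX e n n, s3]
  set r : ℝ := √(qq F X) with hrdef
  set A : ℝ := D3 F X n e e - (D2 F X e e / r) * D2 F X n N with hA
  set C : ℝ := D3 F X n n n / 3 - (D2 F X n n / r) * D2 F X n N with hC
  have key : ∀ β : ℝ, 0 < β → 0 ≤ A + β ^ 2 * C := by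
    intro β hβ
    have hv : D1 F X (e + β • n) = 0 := by
      rw [map_add, map_smul, he, hDn, smul_zero, add_zero]
    have hB : B (e + β • n) n = β := by
      rw [B_add_left, B_smul_left, hen, hn]
      ring
    have h := refl_b hs hn hW hX hF hXn hDn hq hN hNn hDN hv (by rw [hB]; exact hβ)
    have hR : refl n (e + β • n) = e - β • n := by
      unfold refl
      rw [hB]
      module
    rw [hR] at h
    simp only [map_sub, map_add, map_smul, _root_.sub_apply, _root_.add_apply, _root_.smul_apply,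
      smul_eq_mul, hne, hen2, s1, s2, s3, s4] at h
    have h2 : 0 ≤ 6 * β * (A + β ^ 2 * C) := by
      rw [hA, hC]
      rw [← hrdef] at h
      have e1 : ∀ P Q : ℝ, (P + β * (β * Q)) / r = P / r + β * β * (Q / r) := by
        intro P Q
        field_simp
      have e2 : D2 F X e e + β * 0 + β * (0 + β * D2 F X n n) =
          D2 F X e e + β * (β * D2 F X n n) := by ring
      rw [e2, e1] at h
      nlinarith [h]
    have h3 : 0 < 6 * β := by linarith
    exact (mul_nonneg_iff_of_pos_left h3).mp h2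
  by_contra hneg
  rw [not_le] at hneg
  have hC1 : 0 < |C| + 1 := by positivity
  have ht : 0 < -A / (2 * (|C| + 1)) := by
    apply div_pos
    · linarith
    · linarith
  have h := key (√(-A / (2 * (|C| + 1)))) (Real.sqrt_pos.2 ht)
  rw [Real.sq_sqrt ht.le] at h
  have h1 : -A / (2 * (|C| + 1)) * C ≤ -A / (2 * (|C| + 1)) * (|C| + 1) := by
    apply mul_le_mul_of_nonneg_left _ ht.le
    linarith [le_abs_self C]
  have h2 : -A / (2 * (|C| + 1)) * (|C| + 1) = -A / 2 := by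
    field_simp
  linarith

/-- `C4`: the Lorentz gradient as a continuous linear map -/
private theorem C4_gradL {f : ℝ × E → ((ℝ × E) →L[ℝ] ℝ)} {X : ℝ × E} (h : ContDiffAt ℝ 1 f X) :
    ContDiffAt ℝ 1 (fun Y => gradL (f Y)) X := by
  unfold gradL
  apply ContDiffAt.prodMk
  · exact (h.clm_apply contDiffAt_const).neg
  · have h1 : ContDiffAt ℝ 1 (fun Y => (f Y).comp (ContinuousLinearMap.inr ℝ ℝ E)) X :=
      h.clm_comp contDiffAt_const
    exact (InnerProductSpace.toDual ℝ E).symm.toContinuousLinearEquiv.contDiff.contDiffAt.comp X h1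

private theorem C4_B {f g : ℝ × E → ℝ × E} {X : ℝ × E} (hf : ContDiffAt ℝ 1 f X)
    (hg : ContDiffAt ℝ 1 g X) : ContDiffAt ℝ 1 (fun Y => B (f Y) (g Y)) X := by
  unfold B
  exact (hf.snd.inner ℝ hg.snd).sub (hf.fst.mul hg.fst)

private theorem C4_D1 {F : ℝ × E → ℝ} (hs : ContDiffOn ℝ 3 F (Cone E)) {X : ℝ × E}
    (hX : X ∈ Cone E) : ContDiffAt ℝ 1 (fun Y => D1 F Y) X :=
  ((hs.contDiffAt (isOpen_Cone.mem_nhds hX)).fderiv_right (m := 2) (by norm_num)).of_le
    (by norm_num)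

private theorem C4_gen {G : Type*} [NormedAddCommGroup G] [NormedSpace ℝ G] {f : G → ℝ} {X : G}
    (h : ContDiffAt ℝ 3 f X) {u v : G → G} (hu : ContDiffAt ℝ 1 u X) (hv : ContDiffAt ℝ 1 v X) :
    ContDiffAt ℝ 1 (fun Y => fderiv ℝ (fun Z => fderiv ℝ f Z) Y (u Y) (v Y)) X := by
  have h1 : ContDiffAt ℝ 2 (fun Y => fderiv ℝ f Y) X := h.fderiv_right (m := 2) (by norm_num)
  have h2 : ContDiffAt ℝ 1 (fun Y => fderiv ℝ (fun Z => fderiv ℝ f Z) Y) X :=
    h1.fderiv_right (m := 1) (by norm_num)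
  exact (h2.clm_apply hu).clm_apply hv

private theorem C4_D2 {F : ℝ × E → ℝ} (hs : ContDiffOn ℝ 3 F (Cone E)) {X : ℝ × E}
    (hX : X ∈ Cone E) {u v : ℝ × E → ℝ × E} (hu : ContDiffAt ℝ 1 u X) (hv : ContDiffAt ℝ 1 v X) :
    ContDiffAt ℝ 1 (fun Y => D2 F Y (u Y) (v Y)) X :=
  C4_gen (hs.contDiffAt (isOpen_Cone.mem_nhds hX)) hu hv

private theorem C4_trB {F : ℝ × E → ℝ} (hs : ContDiffOn ℝ 3 F (Cone E)) {X : ℝ × E}
    (hX : X ∈ Cone E) : ContDiffAt ℝ 1 (fun Y => trB (D2 F Y)) X := by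
  unfold trB
  refine ContDiffAt.sub (ContDiffAt.sum fun i _ => ?_) ?_
  · exact C4_D2 hs hX contDiffAt_const contDiffAt_const
  · exact C4_D2 hs hX contDiffAt_const contDiffAt_const

private theorem C4_P {a : ℝ} {F : ℝ × E → ℝ} (hs : ContDiffOn ℝ 3 F (Cone E)) {X : ℝ × E}
    (hX : X ∈ Cone E) (hq : 0 < qq F X) :
    ContDiffAt ℝ 1 (fun Y => √(-B Y Y) * Emean a F Y) X := by
  have h1 := C4_D1 hs hX
  have hg : ContDiffAt ℝ 1 (fun Y => gradL (D1 F Y)) X := C4_gradL h1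
  have hqq : ContDiffAt ℝ 1 (fun Y => qq F Y) X := C4_B hg hg
  have hsq : ContDiffAt ℝ 1 (fun Y => √(qq F Y)) X := hqq.sqrt hq.ne'
  have hsq0 : √(qq F X) ≠ 0 := (Real.sqrt_pos.2 hq).ne'
  have hfst : ContDiffAt ℝ 1 (fun Y : ℝ × E => Y.1) X := contDiffAt_fst
  have hB : ContDiffAt ℝ 1 (fun Y : ℝ × E => √(-B Y Y)) X := by
    have h0 : ContDiffAt ℝ 1 (fun Y : ℝ × E => -B Y Y) X :=
      (C4_B contDiffAt_id contDiffAt_id).neg
    exact h0.sqrt (by have := (cone_iff.1 hX).2; linarith [this] : -B X X ≠ 0)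
  have hDg : ContDiffAt ℝ 1 (fun Y => D2 F Y (gradL (D1 F Y)) (gradL (D1 F Y))) X :=
    C4_D2 hs hX hg hg
  have hM : ContDiffAt ℝ 1 (fun Y => Mm F Y) X := by
    unfold Mm
    exact ((C4_trB hs hX).sub (hDg.div hqq hq.ne')).div hsq hsq0
  have hE : ContDiffAt ℝ 1 (fun Y => Emean a F Y) X := by
    unfold Emean
    refine hM.sub ((contDiffAt_const.mul (h1.clm_apply contDiffAt_const)).div (hfst.mul hsq) ?_)
    exact mul_ne_zero (fst_pos hX).ne' hsq0
  exact hB.mul hE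

/-- piece `C4`: `√(-B Y Y) * Emean a F Y` is constant on `{F = 0}`, so its derivative at `X` vanishes on
tangent vectors. Proof. `qq F X > 0`, so `P Y = √(-B Y Y) * Emean a F Y` is `C^1` near `X` (it is an algebraic
expression in `Y`, `D1 F Y`, `D2 F Y`, where `D1 F`, `D2 F` are `C^1`), `P = H` on `{F = F X}` near `X`, so `X`
is a local extremum of `P` on `{Y | F Y = F X}`; `IsLocalExtrOn.exists_multipliers_of_hasStrictFDerivAt_1d`
gives `(a', b') ≠ 0` with `a' • D1 F X + b' • D1 P X = 0`, `b' ≠ 0` as `D1 F X ≠ 0`; apply to `v`. -/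
theorem deriv_zero {a H : ℝ} {F : ℝ × E → ℝ} (hD : Dom a H F) {X : ℝ × E} (hX : X ∈ Cone E)
    (hF : F X = 0) {v : ℝ × E} (hv : D1 F X v = 0) :
    DifferentiableAt ℝ (fun Y => √(-B Y Y) * Emean a F Y) X ∧
      fderiv ℝ (fun Y => √(-B Y Y) * Emean a F Y) X v = 0 := by
  obtain ⟨hq, -⟩ := normal_facts hD.sm hD.hom hX (hD.reg X hX hF)
  have hP := C4_P (a := a) hD.sm hX hq
  have hd : DifferentiableAt ℝ (fun Y => √(-B Y Y) * Emean a F Y) X :=
    hP.differentiableAt (by norm_num)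
  refine ⟨hd, ?_⟩
  have hext : IsLocalExtrOn (fun Y => √(-B Y Y) * Emean a F Y) {Y | F Y = F X} X := by
    left
    have h1 : ∀ᶠ Y in 𝓝[{Y | F Y = F X}] X, Y ∈ Cone E ∧ F Y = F X :=
      (Filter.Eventually.filter_mono nhdsWithin_le_nhds (isOpen_Cone.mem_nhds hX)).and
        eventually_mem_nhdsWithin
    filter_upwards [h1] with Y hY
    have e1 := hD.eq Y hY.1 (by rw [hY.2, hF])
    have e2 := hD.eq X hX hF
    change √(-B X X) * Emean a F X ≤ √(-B Y Y) * Emean a F Y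
    rw [e1, e2]
  have hsF : HasStrictFDerivAt F (D1 F X) X :=
    (hD.sm.contDiffAt (isOpen_Cone.mem_nhds hX)).hasStrictFDerivAt (by norm_num)
  have hsP := hP.hasStrictFDerivAt (by norm_num)
  obtain ⟨a', b', hab, h⟩ := hext.exists_multipliers_of_hasStrictFDerivAt_1d hsF hsP
  have hb : b' ≠ 0 := by
    rintro rfl
    rw [zero_smul, add_zero] at h
    have ha' : a' ≠ 0 := by
      rintro rfl
      exact hab rfl
    rcases smul_eq_zero.1 h with h' | h'
    · exact ha' h'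
    · exact hD.reg X hX hF h'
  have h2 := DFunLike.congr_fun h v
  simp only [_root_.add_apply, _root_.smul_apply, smul_eq_mul, hv, mul_zero, zero_add,
    _root_.zero_apply] at h2
  exact (mul_eq_zero.1 h2).resolve_left hb

/-- C5: `gradL` as a continuous linear map -/
private noncomputable def C5_grad : ((ℝ × E) →L[ℝ] ℝ) →L[ℝ] ℝ × E :=
  LinearMap.toContinuousLinearMap
    { toFun := gradL
      map_add' := fun l m => by
        apply eq_of_B
        intro w
        rw [B_gradL, B_add_left, B_gradL, B_gradL]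
        rfl
      map_smul' := fun t l => by
        apply eq_of_B
        intro w
        rw [B_gradL, B_smul_left, B_gradL]
        rfl }

private theorem C5_grad_apply (l : (ℝ × E) →L[ℝ] ℝ) : C5_grad l = gradL l := rfl

private theorem C5_line {X n : ℝ × E} : HasDerivAt (fun t : ℝ => X + t • n) n 0 := by
  have h1 : HasDerivAt (fun t : ℝ => t • n) ((1:ℝ) • n) 0 := (hasDerivAt_id (0:ℝ)).smul_const n
  have h2 := h1.const_add X
  simpa using h2

private theorem C5_comp {G : Type*} [NormedAddCommGroup G] [NormedSpace ℝ G] {f : ℝ × E → G}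
    {f' : (ℝ × E) →L[ℝ] G} {X n : ℝ × E} (h : HasFDerivAt f f' X) :
    HasDerivAt (fun t : ℝ => f (X + t • n)) (f' n) 0 := by
  have hX0 : X + (0:ℝ) • n = X := by simp
  have h' : HasFDerivAt f f' (X + (0:ℝ) • n) := by rw [hX0]; exact h
  exact h'.comp_hasDerivAt (0:ℝ) C5_line

private theorem C5_comp2 {V G : Type*} [NormedAddCommGroup V] [NormedSpace ℝ V]
    [NormedAddCommGroup G] [NormedSpace ℝ G] {f : V → V →L[ℝ] G}
    {f' : V →L[ℝ] V →L[ℝ] G} {X n : V} (h : HasFDerivAt f f' X) :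
    HasDerivAt (fun t : ℝ => f (X + t • n)) (f' n) 0 := by
  have hX0 : X + (0:ℝ) • n = X := by simp
  have h' : HasFDerivAt f f' (X + (0:ℝ) • n) := by rw [hX0]; exact h
  have h1 : HasDerivAt (fun t : ℝ => t • n) ((1:ℝ) • n) 0 := (hasDerivAt_id (0:ℝ)).smul_const n
  have h2 : HasDerivAt (fun t : ℝ => X + t • n) n 0 := by simpa using h1.const_add X
  exact h'.comp_hasDerivAt (0:ℝ) h2

private theorem C5_clm {G G' : Type*} [NormedAddCommGroup G] [NormedSpace ℝ G]
    [NormedAddCommGroup G'] [NormedSpace ℝ G'] {f : ℝ → G} {f' : G} (l : G →L[ℝ] G')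
    (h : HasDerivAt f f' 0) : HasDerivAt (fun t : ℝ => l (f t)) (l f') 0 :=
  l.hasFDerivAt.comp_hasDerivAt (0:ℝ) h

private theorem C5_B {f g : ℝ → ℝ × E} {f' g' : ℝ × E} (hf : HasDerivAt f f' 0)
    (hg : HasDerivAt g g' 0) :
    HasDerivAt (fun t => B (f t) (g t)) (B f' (g 0) + B (f 0) g') 0 := by
  unfold B
  have f1 : HasDerivAt (fun t => (f t).1) f'.1 0 :=
    (ContinuousLinearMap.fst ℝ ℝ E).hasFDerivAt.comp_hasDerivAt (0:ℝ) hf
  have f2 : HasDerivAt (fun t => (f t).2) f'.2 0 :=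
    (ContinuousLinearMap.snd ℝ ℝ E).hasFDerivAt.comp_hasDerivAt (0:ℝ) hf
  have g1 : HasDerivAt (fun t => (g t).1) g'.1 0 :=
    (ContinuousLinearMap.fst ℝ ℝ E).hasFDerivAt.comp_hasDerivAt (0:ℝ) hg
  have g2 : HasDerivAt (fun t => (g t).2) g'.2 0 :=
    (ContinuousLinearMap.snd ℝ ℝ E).hasFDerivAt.comp_hasDerivAt (0:ℝ) hg
  refine ((f2.inner ℝ g2).sub (f1.mul g1)).congr_deriv ?_
  ring

private theorem C5_ev {f : ℝ → (ℝ × E) →L[ℝ] ℝ} {f' : (ℝ × E) →L[ℝ] ℝ} (hf : HasDerivAt f f' 0)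
    {g : ℝ → ℝ × E} {g' : ℝ × E} (hg : HasDerivAt g g' 0) :
    HasDerivAt (fun t => f t (g t)) (f' (g 0) + f 0 g') 0 :=
  HasDerivAt.clm_apply (𝕜 := ℝ) (F := ℝ × E) (G := ℝ) (c := f) (c' := f') (u := g) (u' := g') hf hg

private theorem C5_ev1 {f : ℝ → (ℝ × E) →L[ℝ] (ℝ × E) →L[ℝ] ℝ}
    {f' : (ℝ × E) →L[ℝ] (ℝ × E) →L[ℝ] ℝ} (hf : HasDerivAt f f' 0)
    {g : ℝ → ℝ × E} {g' : ℝ × E} (hg : HasDerivAt g g' 0) :
    HasDerivAt (fun t => f t (g t)) (f' (g 0) + f 0 g') 0 :=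
  HasDerivAt.clm_apply (𝕜 := ℝ) (F := ℝ × E) (G := (ℝ × E) →L[ℝ] ℝ) (c := f) (c' := f')
    (u := g) (u' := g') hf hg

private theorem C5_ev2 {f : ℝ → (ℝ × E) →L[ℝ] (ℝ × E) →L[ℝ] ℝ}
    {f' : (ℝ × E) →L[ℝ] (ℝ × E) →L[ℝ] ℝ} (hf : HasDerivAt f f' 0)
    {g : ℝ → ℝ × E} {g' : ℝ × E} (hg : HasDerivAt g g' 0) :
    HasDerivAt (fun t => f t (g t) (g t)) (f' (g 0) (g 0) + f 0 g' (g 0) + f 0 (g 0) g') 0 :=
  (C5_ev (C5_ev1 hf hg) hg).congr_deriv rfl

private theorem C5_trB {f : ℝ → (ℝ × E) →L[ℝ] (ℝ × E) →L[ℝ] ℝ}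
    {f' : (ℝ × E) →L[ℝ] (ℝ × E) →L[ℝ] ℝ} (hf : HasDerivAt f f' 0) :
    HasDerivAt (fun t => trB (f t)) (trB f') 0 := by
  unfold trB
  have h : ∀ u v : ℝ × E, HasDerivAt (fun t => f t u v) (f' u v) 0 := by
    intro u v
    have h1 := C5_ev (C5_ev1 hf (hasDerivAt_const (0:ℝ) u)) (hasDerivAt_const (0:ℝ) v)
    simpa using h1
  refine HasDerivAt.sub ?_ (h _ _)
  exact HasDerivAt.fun_sum (fun i _ => h _ _)

/-- piece `C5`: the derivative of the mean curvature in the direction `n`, in an adapted frame.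
Let `r = √(qq F X)`, `κ = D2 F X n N`, `D = D2 F X n n`, `o = (1, 0)`.
Proof. On the line `Y = X + t • n` the function `√(-B Y Y) * Emean a F Y` has derivative `0` at `t = 0`
(`deriv_zero` and the chain rule), `-B Y Y = 1 - t ^ 2`, so the factor `√(-B Y Y)` does not matter.
`Emean a F Y = (T - S / q - a * D1 F Y o / Y.1) / √q` with `T = trB (D2 F Y)`, `S = D2 F Y g g`,
`g = gradL (D1 F Y)`, `q = B g g`. Derivatives at `t = 0`:
`T' = trB (D3 F X n)` `= -D3 n X X + D3 n N N + D3 n n n + ∑ D3 n e e` (`Frame2.tr`, `D3_symm23`), `D3 n X X = 0`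
(`D3_self`). `g' = gradL (D2 F X n) = κ • N + D • n` (`Frame2.ex`: `B g' X = D2 F X n X = -D1 F X n = 0`,
`B g' e = D2 F X n e = 0`). `q' = 2 * B g' g = 2 r κ`. `S' = D3 n g g + 2 * D2 g' g`
`= r ^ 2 * D3 n N N + 2 r * (κ * D2 N N + D * κ)`, `S = r ^ 2 * D2 N N`, so
`(S / q)' = D3 n N N + 2 * κ * D / r`. `(D1 F Y o / Y.1)' = D2 F X n o / X.1 - D1 F X o * n.1 / X.1 ^ 2`,
`D2 F X n o = B g' o = -(κ * N.1 + D * n.1)`, `D1 F X o = -r * N.1`. The value of the numerator at `0` is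
`D + ∑ D2 e e + a * r * N.1 / X.1`. `Emean' = 0` gives `numerator' = numerator * κ / r` and this is the
statement (the terms `a * κ * N.1 / X.1` cancel). -/
theorem pde_deriv {a H : ℝ} {F : ℝ × E → ℝ} (hD : Dom a H F) {X n N : ℝ × E} (hX : X ∈ Cone E)
    (hXX : B X X = -1) (hF : F X = 0) (hn : B n n = 1) (hXn : B X n = 0) (hDn : D1 F X n = 0)
    (hq : 0 < qq F X) (hN : B N N = 1) (hXN : B X N = 0) (hNn : B N n = 0)
    (hg : gradL (D1 F X) = √(qq F X) • N) (hDN : ∀ v, D1 F X v = √(qq F X) * B N v)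
    {m : ℕ} {e : Fin m → ℝ × E} (he : Frame2 X N n e) (hne : ∀ i, D2 F X n (e i) = 0) :
    D3 F X n n n + (∑ i, D3 F X n (e i) (e i)) - 3 * D2 F X n N * D2 F X n n / √(qq F X)
      - D2 F X n N / √(qq F X) * (∑ i, D2 F X (e i) (e i))
      + a * n.1 / X.1 * (D2 F X n n - √(qq F X) * N.1 / X.1) = 0 := by
  have hdz := deriv_zero hD hX hF hDn
  have hs := hD.sm
  have hh := hD.hom
  have hX0 : X + (0:ℝ) • n = X := by simp
  have hr : 0 < √(qq F X) := Real.sqrt_pos.2 hq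
  have hss : √(qq F X) * √(qq F X) = qq F X := Real.mul_self_sqrt hq.le
  set r := √(qq F X) with hrdef
  set κ := D2 F X n N with hκ
  set D := D2 F X n n with hDdef
  have hx1 : 0 < X.1 := fst_pos hX
  -- derivatives along the line
  have dγ : HasDerivAt (fun t : ℝ => X + t • n) n 0 := C5_line
  have d1 : HasDerivAt (fun t : ℝ => D1 F (X + t • n)) (D2 F X n) 0 := 
    C5_comp (f := fun Y => D1 F Y) (f' := D2 F X) (hasD2 hs hX)
  have d2 : HasDerivAt (fun t : ℝ => D2 F (X + t • n)) (D3 F X n) 0 := 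
    C5_comp2 (V := ℝ × E) (G := (ℝ × E) →L[ℝ] ℝ) (f := fun Y => D2 F Y) (f' := D3 F X)
      (hasD3 hs hX)
  -- gradient
  have g'eq : gradL (D2 F X n) = κ • N + D • n := by
    have h := he.ex (gradL (D2 F X n))
    have h1 : B (gradL (D2 F X n)) X = 0 := by
      rw [B_gradL, D2_self hs hh hX, hDn, neg_zero]
    have h2 : ∀ i, B (gradL (D2 F X n)) (e i) = 0 := fun i => by rw [B_gradL, hne i]
    rw [h1, B_gradL, B_gradL] at h
    simp only [h2, zero_smul, neg_zero, Finset.sum_const_zero, zero_add, add_zero] at h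
    exact h
  have dg : HasDerivAt (fun t : ℝ => gradL (D1 F (X + t • n))) (κ • N + D • n) 0 := by
    have h := C5_clm (G := (ℝ × E) →L[ℝ] ℝ) (G' := ℝ × E) (f := fun t => D1 F (X + t • n))
      (f' := D2 F X n) (C5_grad (E := E)) d1
    rw [C5_grad_apply, g'eq] at h
    exact h
  have g0 : gradL (D1 F (X + (0:ℝ) • n)) = r • N := by rw [hX0, hg]
  have hnN : B n N = 0 := by rw [B_comm, hNn]
  have dq : HasDerivAt (fun t : ℝ => qq F (X + t • n)) (2 * r * κ) 0 := by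
    have h := C5_B dg dg
    refine h.congr_deriv ?_
    rw [g0, B_smul_left, B_smul_right, B_add_left, B_add_right]
    simp only [B_smul_left, B_smul_right, hN, hNn, hnN]
    ring
  have dT : HasDerivAt (fun t : ℝ => trB (D2 F (X + t • n))) (trB (D3 F X n)) 0 := C5_trB d2
  have dS : HasDerivAt (fun t : ℝ => D2 F (X + t • n) (gradL (D1 F (X + t • n)))
      (gradL (D1 F (X + t • n))))
      (r ^ 2 * D3 F X n N N + 2 * r * (κ * D2 F X N N + D * κ)) 0 := by
    have h := C5_ev2 d2 dg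
    refine h.congr_deriv ?_
    rw [g0, hX0]
    simp only [map_add, map_smul, _root_.add_apply, _root_.smul_apply,
      smul_eq_mul]
    rw [D2_symm hs hX N n, ← hκ]
    ring
  have dW : HasDerivAt (fun t : ℝ => D1 F (X + t • n) (1, 0)) (D2 F X n (1, 0)) 0 := by
    have h := C5_ev d1 (hasDerivAt_const (0:ℝ) ((1 : ℝ), (0 : E)))
    refine h.congr_deriv ?_
    simp
  have dfst : HasDerivAt (fun t : ℝ => (X + t • n).1) n.1 0 :=
    C5_clm (ContinuousLinearMap.fst ℝ ℝ E) C5_line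
  -- the values at zero
  have v0 : qq F (X + (0:ℝ) • n) = r * r := by rw [hX0, hss]
  have vsq : √(qq F (X + (0:ℝ) • n)) = r := by rw [hX0]
  have vT : trB (D2 F X) = D2 F X N N + D + ∑ i, D2 F X (e i) (e i) := by
    rw [he.tr (D2 F X) (fun u v => D2_symm hs hX u v), D2_self hs hh hX, D1_self hs hh hX]
    ring
  have vT' : trB (D3 F X n) = D3 F X n N N + D3 F X n n n + ∑ i, D3 F X n (e i) (e i) := by
    rw [he.tr (D3 F X n) (fun u v => D3_symm23 hs hX n u v), D3_self hs hh hX, hDn]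
    ring
  have vS : D2 F X (gradL (D1 F X)) (gradL (D1 F X)) = r ^ 2 * D2 F X N N := by
    rw [hg]
    simp only [map_smul, _root_.smul_apply, smul_eq_mul]
    ring
  have vW : D1 F X (1, 0) = -(r * N.1) := by
    rw [hDN, B_origin]
    ring
  have vW' : D2 F X n (1, 0) = -(κ * N.1 + D * n.1) := by
    rw [← B_gradL (D2 F X n) (1, 0), g'eq, B_origin]
    simp
  -- the derivative of the mean curvature
  have dsq : HasDerivAt (fun t : ℝ => √(qq F (X + t • n))) κ 0 := by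
    have h := dq.sqrt (by rw [v0]; positivity)
    refine h.congr_deriv ?_
    rw [vsq]
    field_simp
  have dnum := (dT.sub (dS.div dq (by rw [v0]; positivity))).sub
    ((dW.const_mul a).div dfst (by rw [hX0]; exact hx1.ne'))
  have dE := dnum.div dsq (by rw [vsq]; exact hr.ne')
  have dB : HasDerivAt (fun t : ℝ => √(-B (X + t • n) (X + t • n))) 0 0 := by
    have h1 : HasDerivAt (fun t : ℝ => -B (X + t • n) (X + t • n)) 0 0 := by
      refine (C5_B (C5_line (X := X) (n := n)) (C5_line (X := X) (n := n))).neg.congr_deriv ?_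
      rw [hX0, B_comm n X, hXn]
      simp
    have h2 := h1.sqrt (by rw [hX0, hXX]; norm_num)
    refine h2.congr_deriv ?_
    simp
  have dP := dB.mul dE
  have dP2 : HasDerivAt (fun t : ℝ => √(-B (X + t • n) (X + t • n)) * Emean a F (X + t • n)) 0 0 := by
    have h := C5_comp (f := fun Y => √(-B Y Y) * Emean a F Y) (n := n) hdz.1.hasFDerivAt
    rw [hdz.2] at h
    exact h
  have hfun : (fun t : ℝ => √(-B (X + t • n) (X + t • n)) * Emean a F (X + t • n)) =
      (fun t : ℝ => √(-B (X + t • n) (X + t • n))) * (((((fun t => trB (D2 F (X + t • n))) -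
        (fun t => ((D2 F (X + t • n)) (gradL (D1 F (X + t • n)))) (gradL (D1 F (X + t • n)))) /
          fun t => qq F (X + t • n)) -
      (fun y => a * (D1 F (X + y • n)) (1, 0)) / fun t => (X + t • n).1)) /
      (fun t : ℝ => √(qq F (X + t • n)))) := by
    funext t
    simp only [Pi.mul_apply, Pi.div_apply, Pi.sub_apply]
    unfold Emean Mm
    rw [← div_div, ← sub_div]
  rw [hfun] at dP2
  have hu := dP2.unique dP
  simp only [Pi.div_apply, Pi.sub_apply, hX0, hXX, neg_neg, Real.sqrt_one, zero_mul, one_mul,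
    zero_add] at hu
  rw [vT, vT', vS, vW, vW', ← hrdef, ← hss] at hu
  have hr0 : r ≠ 0 := hr.ne'
  have hx0 : X.1 ≠ 0 := hx1.ne'
  generalize (∑ i, D3 F X n (e i) (e i)) = S3 at hu ⊢
  generalize (∑ i, D2 F X (e i) (e i)) = S2 at hu ⊢
  generalize D3 F X n n n = t1 at hu ⊢
  generalize D3 F X n N N = t2 at hu ⊢
  generalize D2 F X N N = t3 at hu ⊢
  generalize n.1 = n1 at hu ⊢
  generalize N.1 = N1 at hu ⊢
  generalize X.1 = x1 at hu ⊢ hx0
  clear_value r κ D
  field_simp at hu ⊢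
  linear_combination (-1) * hu

private theorem c6_unit {a H : ℝ} {F : ℝ × E → ℝ} (hD : Dom a H F) (ha : 0 < a) {σ : ℝ}
    (hσ : 0 < σ) (hQ : ∀ n : ℝ × E, B n n = 1 → σ < n.1 → QQ F n) {n : ℝ × E} (hn : B n n = 1)
    (hn1 : n.1 = σ) (hW : WW F n) {X : ℝ × E} (hX : X ∈ Cone E) (hXX : B X X = -1)
    (hF : F X = 0) (hXn : B X n = 0) (hDn : D1 F X n = 0) : False := by
  obtain ⟨hq, N, hN, hXN, hg, hDN⟩ := normal_facts hD.sm hD.hom hX (hD.reg X hX hF)
  have hr : 0 < √(qq F X) := Real.sqrt_pos.2 hq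
  have hNn : B N n = 0 := by
    have h1 := hDN n
    rw [hDn] at h1
    rcases mul_eq_zero.1 h1.symm with h2 | h2
    · exact absurd h2 hr.ne'
    · exact h2
  obtain ⟨m, e, he⟩ := exists_frame2 hX hXX hN hXN hn hXn hNn
  have hDe : ∀ i, D1 F X (e i) = 0 := fun i => by rw [hDN, he.oN, mul_zero]
  have hen : ∀ i, B (e i) n = 0 := fun i => by rw [B_comm, he.on]
  have hne : ∀ i, D2 F X n (e i) = 0 := fun i =>
    refl_a' hD.sm hn hW hX hF hXn hDn hq hN hNn hDN (hDe i) (hen i)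
  have h1 := pde_deriv hD hX hXX hF hn hXn hDn hq hN hXN hNn hg hDN he hne
  have h2 := refl_n hD.sm hn hW hX hF hXn hDn hq hN hNn hDN
  have h3 : 0 ≤ ∑ i, (D3 F X n (e i) (e i) - (D2 F X (e i) (e i) / √(qq F X)) * D2 F X n N) :=
    Finset.sum_nonneg fun i _ => refl_e hD.sm hn hW hX hF hXn hDn hq hN hNn hDN (hDe i) (hen i)
  have h4 : ∑ i, (D3 F X n (e i) (e i) - (D2 F X (e i) (e i) / √(qq F X)) * D2 F X n N) =
      (∑ i, D3 F X n (e i) (e i)) - D2 F X n N / √(qq F X) * (∑ i, D2 F X (e i) (e i)) := by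
    rw [Finset.sum_sub_distrib, Finset.mul_sum]
    congr 1
    apply Finset.sum_congr rfl
    intro i _
    ring
  rw [h4] at h3
  have h5 := tilt hD.sm hD.hom hQ hn hn1 hX hXX hF hXn hDn hq hN hXN hNn hDN
  have h6 := fst_lt hX hXX hN hXN
  have h7 := fst_pos hX
  have h8 : √(qq F X) * N.1 / X.1 < √(qq F X) := by
    rw [div_lt_iff₀ h7]
    exact mul_lt_mul_of_pos_left h6 hr
  have h9 : 0 < a * n.1 / X.1 * (D2 F X n n - √(qq F X) * N.1 / X.1) := by
    have : 0 < n.1 := by rw [hn1]; exact hσ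
    apply mul_pos
    · positivity
    · linarith
  have h10 : 3 * D2 F X n N * D2 F X n n / √(qq F X) =
      3 * (D2 F X n n / √(qq F X)) * D2 F X n N := by ring
  rw [h10] at h1
  linarith

/-- piece `C6`: orthogonality is impossible.
Proof. Let `X ∈ Cone E`, `F X = 0`, `B X n = 0`; wlog `B X X = -1` (rescale, `D1_smul`).
`0 ≤ D1 F X n` (`0 ≤` is `weak_pos`; here it is the hypothesis `hw`); suppose `D1 F X n = 0`.
`normal_facts`: `N`, `B N n = 0`. `exists_frame2`: `e`. `D1 F X (e i) = √q * B N (e i) = 0`. `refl_a'`: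
`D2 F X n (e i) = 0`. `pde_deriv`, `refl_n`, `refl_e` (sum over `i`): the first four terms of `pde_deriv` are
`≥ 0`, so `a * n.1 / X.1 * (D2 F X n n - √q * N.1 / X.1) ≤ 0`. But `D2 F X n n ≥ √q` (`tilt`), `N.1 < X.1`
(`fst_lt`), `a, n.1, X.1 > 0`: the left side is `> 0`. -/
theorem stepC {a H : ℝ} {F : ℝ × E → ℝ} (hD : Dom a H F) (ha : 0 < a) {σ : ℝ} (hσ : 0 < σ)
    (hQ : ∀ n : ℝ × E, B n n = 1 → σ < n.1 → QQ F n) {n : ℝ × E} (hn : B n n = 1)
    (hn1 : n.1 = σ) (hW : WW F n)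
    (hw : ∀ X ∈ Cone E, F X = 0 → B X n = 0 → 0 ≤ D1 F X n) : PP F n := by
  intro X hX hF hXn
  rcases (hw X hX hF hXn).lt_or_eq with h | h
  · exact h
  · exfalso
    have hneg : B X X < 0 := (cone_iff.1 hX).2
    set t : ℝ := (√(-B X X))⁻¹ with ht
    have hs : 0 < √(-B X X) := Real.sqrt_pos.2 (by linarith)
    have htp : 0 < t := inv_pos.2 hs
    have hX' : t • X ∈ Cone E := cone_smul hX htp
    have hss : √(-B X X) * √(-B X X) = -B X X := Real.mul_self_sqrt (by linarith)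
    have hXX : B (t • X) (t • X) = -1 := by
      rw [B_smul_left, B_smul_right, ht]
      field_simp
      nlinarith
    refine c6_unit hD ha hσ hQ hn hn1 hW hX' hXX ?_ ?_ ?_
    · rw [hD.hom X hX t htp, hF]
    · rw [B_smul_left, hXn, mul_zero]
    · rw [D1_smul hD.sm hD.hom hX htp]
      change t⁻¹ • (D1 F X n) = 0
      rw [← h, smul_zero]

end Pool.Agent.Helper41.ALX
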