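import Pool.Agent.Helper41.ALX.StepA
import Pool.Agent.Helper41.ALX.StepC

/-! # ALX: the moving plane argument -/

set_option autoImplicit false
set_option linter.unusedSectionVars false
set_option linter.unusedVariables false

namespace Pool.Agent.Helper41.ALX

open Filter Topology
open scoped ContDiff

variable {E : Type*} [NormedAddCommGroup E] [InnerProductSpace ℝ E] [FiniteDimensional ℝ E]

theorem all_planes {a H : ℝ} {F : ℝ × E → ℝ} (hD : Dom a H F) (ha : 0 < a) (n : ℝ × E)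
    (hn : B n n = 1) (hn0 : 0 < n.1) : QQ F n := by
  by_contra hc
  set S : Set ℝ := {σ | 0 < σ ∧ ∀ n : ℝ × E, B n n = 1 → σ ≤ n.1 → PP F n ∧ QQ F n} with hS
  have hbdd : BddBelow S := ⟨0, fun x hx => hx.1.le⟩
  have hne : S.Nonempty := by
    obtain ⟨σ, h1, h2⟩ := exists_large hD
    exact ⟨σ, h1, h2⟩
  set σ := sInf S with hσ
  have hlow : ∀ x ∈ S, n.1 < x := by
    intro x hx
    by_contra h
    exact hc (hx.2 n hn (not_lt.1 h)).2
  have hσn : n.1 ≤ σ := le_csInf hne fun x hx => (hlow x hx).le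
  have hσ0 : 0 < σ := lt_of_lt_of_le hn0 hσn
  have hgt : ∀ m : ℝ × E, B m m = 1 → σ < m.1 → PP F m ∧ QQ F m := by
    intro m hm hm1
    obtain ⟨x, hx, hx2⟩ := exists_lt_of_csInf_lt hne hm1
    exact hx.2 m hm hx2.le
  have hge : ∀ m : ℝ × E, B m m = 1 → σ ≤ m.1 → PP F m ∧ QQ F m := by
    intro m hm hm1
    rcases lt_or_eq_of_le hm1 with h | h
    · exact hgt m hm h
    · have hW : WW F m := weak_of_strict hD.sm (fun k hk hk1 => (hgt k hk hk1).2) hm h.symm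
      refine ⟨stepC hD ha hσ0 (fun k hk hk1 => (hgt k hk hk1).2) hm h.symm hW
        (fun X hX hF hXn => weak_pos hD.sm hm hW hX hF hXn),
        stepB hD ha hσ0 (fun k hk hk1 => (hgt k hk hk1).1) hm h.symm hW⟩
  obtain ⟨σ', h1, h2, h3⟩ := exists_smaller hD hσ0 hge
  have : σ ≤ σ' := csInf_le hbdd ⟨h1, h3⟩
  linarith

theorem round [Nontrivial E] {a H : ℝ} {F : ℝ × E → ℝ} (hD : Dom a H F) (ha : 0 < a)
    (hne : ∃ X ∈ Cone E, F X < 0) :
    ∃ R : ℝ, 0 < R ∧ R < 1 ∧ ∀ X ∈ Cone E,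
      (F X < 0 ↔ ‖X.2‖ < R * X.1) ∧ (F X = 0 ↔ ‖X.2‖ = R * X.1) :=
  concl hD (fun n hn hn0 => all_planes hD ha n hn hn0) hne

end Pool.Agent.Helper41.ALX
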