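import Pool.Agent.Helper41.ALX.Crv

/-! # ALX, pieces A1, A2, A3: closedness, openness, large distances -/

set_option autoImplicit false
set_option linter.unusedSectionVars false
set_option linter.unusedVariables false

namespace Pool.Agent.Helper41.ALX

open Filter Topology
open scoped ContDiff

variable {E : Type*} [NormedAddCommGroup E] [InnerProductSpace ℝ E] [FiniteDimensional ℝ E]

/-- piece `A1`. Proof. With `ν s = (s, (√(1 + s ^ 2) / √(1 + σ ^ 2)) • n.2)` we have `B (ν s) (ν s) = 1`,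
`(ν s).1 = s`, `ν σ = n`, `ν` is continuous. For `s > σ` close to `σ` one has `0 < B X (ν s)`, so
`F (refl (ν s) X) < 0`; let `s → σ+` (`F` is continuous on the open set `Cone E`, which contains
`refl n X`). -/
theorem weak_of_strict {F : ℝ × E → ℝ} (hs : ContDiffOn ℝ 3 F (Cone E)) {σ : ℝ}
    (hQ : ∀ n : ℝ × E, B n n = 1 → σ < n.1 → QQ F n) {n : ℝ × E} (hn : B n n = 1) (hn1 : n.1 = σ) :
    WW F n := by
  intro X hX hFX hB
  have hnn : inner ℝ n.2 n.2 = 1 + σ ^ 2 := by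
    unfold B at hn
    rw [hn1] at hn
    linarith [sq σ]
  have hp : ∀ s : ℝ, 0 < 1 + s ^ 2 := fun s => by positivity
  have hνB : ∀ s : ℝ, B ((s, (√(1 + s ^ 2) / √(1 + σ ^ 2)) • n.2) : ℝ × E)
      (s, (√(1 + s ^ 2) / √(1 + σ ^ 2)) • n.2) = 1 := by
    intro s
    unfold B
    simp only [real_inner_smul_left, real_inner_smul_right, hnn]
    have h1 : √(1 + s ^ 2) * √(1 + s ^ 2) = 1 + s ^ 2 := Real.mul_self_sqrt (hp s).le
    have h2 : √(1 + σ ^ 2) * √(1 + σ ^ 2) = 1 + σ ^ 2 := Real.mul_self_sqrt (hp σ).le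
    have h3 : √(1 + σ ^ 2) ≠ 0 := (Real.sqrt_pos.2 (hp σ)).ne'
    have h4 : √(1 + s ^ 2) / √(1 + σ ^ 2) * (√(1 + s ^ 2) / √(1 + σ ^ 2) * (1 + σ ^ 2)) =
        1 + s ^ 2 := by
      nth_rewrite 3 [← h2]
      field_simp
      linarith
    rw [h4]
    ring
  have hνσ : ((σ, (√(1 + σ ^ 2) / √(1 + σ ^ 2)) • n.2) : ℝ × E) = n := by
    rw [div_self (Real.sqrt_pos.2 (hp σ)).ne', one_smul]
    exact Prod.ext hn1.symm rfl
  have hνc : Continuous fun s : ℝ => ((s, (√(1 + s ^ 2) / √(1 + σ ^ 2)) • n.2) : ℝ × E) := by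
    fun_prop
  have hcB : Continuous fun s : ℝ => B X ((s, (√(1 + s ^ 2) / √(1 + σ ^ 2)) • n.2) : ℝ × E) :=
    continuous_B.comp (continuous_const.prodMk hνc)
  have hcr : Continuous fun s : ℝ =>
      refl ((s, (√(1 + s ^ 2) / √(1 + σ ^ 2)) • n.2) : ℝ × E) X := by
    unfold refl
    exact continuous_const.sub ((continuous_const.mul hcB).smul hνc)
  have hF : ContinuousAt F (refl n X) :=
    hs.continuousOn.continuousAt (isOpen_Cone.mem_nhds (refl_cone hn hX))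
  have ht : Tendsto (fun s : ℝ => F (refl ((s, (√(1 + s ^ 2) / √(1 + σ ^ 2)) • n.2) : ℝ × E) X))
      (𝓝[>] σ) (𝓝 (F (refl n X))) := by
    have h1 : Tendsto (fun s : ℝ => refl ((s, (√(1 + s ^ 2) / √(1 + σ ^ 2)) • n.2) : ℝ × E) X)
        (𝓝 σ) (𝓝 (refl n X)) := by
      have h2 := hcr.tendsto σ
      rwa [hνσ] at h2
    exact (hF.tendsto.comp h1).mono_left nhdsWithin_le_nhds
  have hev : ∀ᶠ s in 𝓝[>] σ,
      F (refl ((s, (√(1 + s ^ 2) / √(1 + σ ^ 2)) • n.2) : ℝ × E) X) ≤ 0 := by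
    have h1 : ∀ᶠ s in 𝓝 σ, 0 < B X ((s, (√(1 + s ^ 2) / √(1 + σ ^ 2)) • n.2) : ℝ × E) := by
      have h2 := hcB.tendsto σ
      rw [hνσ] at h2
      exact h2.eventually (isOpen_Ioi.mem_nhds hB)
    filter_upwards [nhdsWithin_le_nhds h1, self_mem_nhdsWithin] with s h2 h3
    exact (hQ _ (hνB s) h3 X hX hFX h2).le
  exact le_of_tendsto ht hev

/-- piece `A1`: the weak form of `PP`.
Proof. If `D1 F X n < 0` then `X' = X + ε • n` (`crv_sign1`, `s = 1`, `v = n`) has `F X' < 0`,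
`B X' n = ε > 0`, `refl n X' = X - ε • n`, and `F (X - ε • n) > 0` (`crv_sign1` with `v = -n`, `s = -1`):
contradiction to `WW F n`. -/
theorem weak_pos {F : ℝ × E → ℝ} (hs : ContDiffOn ℝ 3 F (Cone E)) {n : ℝ × E} (hn : B n n = 1)
    (hW : WW F n) {X : ℝ × E} (hX : X ∈ Cone E) (hF : F X = 0) (hXn : B X n = 0) :
    0 ≤ D1 F X n := by
  by_contra hc
  rw [not_le] at hc
  have h1 := crv_sign1 hs hX hF (v := n) 0 0 0 (s := 1) (by rw [one_mul]; exact hc)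
  have h2 := crv_sign1 hs hX hF (v := -n) 0 0 0 (s := -1) (by rw [map_neg]; linarith)
  have h3 : ∀ᶠ ε in 𝓝[>] (0:ℝ), crv X n 0 0 0 ε ∈ Cone E :=
    nhdsWithin_le_nhds (crv_cone hX n 0 0 0)
  have h3' : ∀ᶠ ε in 𝓝[>] (0:ℝ), 0 < ε := self_mem_nhdsWithin
  obtain ⟨ε, h4, h5, h6, h7⟩ := (h1.and (h2.and (h3.and h3'))).exists
  have hε : 0 < ε := h7
  have h8 : B (crv X n 0 0 0 ε) n = ε := by
    simp [crv, B_add_left, B_smul_left, hXn, hn]
  have h9 : refl n (crv X n 0 0 0 ε) = crv X (-n) 0 0 0 ε := by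
    unfold refl
    rw [h8]
    simp only [crv, smul_zero, add_zero]
    module
  have h10 := hW _ h6 (by linarith) (by rw [h8]; exact hε)
  rw [h9] at h10
  linarith

private theorem A2_neg {R : ℝ} (hR0 : 0 ≤ R) (hR : R < 1) {X n : ℝ × E} (hX1 : 0 < X.1)
    (hX : ‖X.2‖ ≤ R * X.1) (hn : B n n = 1) (h : 1 / (1 - R) ≤ n.1) : B X n < 0 := by
  have hr : 0 < 1 - R := by linarith
  have h1 : 1 ≤ n.1 * (1 - R) := (div_le_iff₀ hr).mp h
  have hn0 : 0 < n.1 := lt_of_lt_of_le (by positivity) h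
  have hn1 : 1 ≤ n.1 := by nlinarith
  have h2 : ‖n.2‖ ^ 2 = 1 + n.1 ^ 2 := by
    have h3 : inner ℝ n.2 n.2 - n.1 * n.1 = 1 := hn
    rw [real_inner_self_eq_norm_sq] at h3
    linarith
  have h4 : R * ‖n.2‖ < n.1 := by
    by_contra hc
    push Not at hc
    have h5 : n.1 ^ 2 ≤ (R * ‖n.2‖) ^ 2 := pow_le_pow_left₀ hn0.le hc 2
    rw [mul_pow, h2] at h5
    have h6 : 1 ≤ n.1 ^ 2 * (1 - R ^ 2) := by
      have h7 : n.1 ^ 2 * (1 - R ^ 2) = (n.1 * (1 - R)) * (n.1 * (1 + R)) := by ring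
      rw [h7]
      have h8 : 1 ≤ n.1 * (1 + R) := by nlinarith
      nlinarith
    nlinarith
  have h9 : inner ℝ X.2 n.2 ≤ ‖X.2‖ * ‖n.2‖ := real_inner_le_norm _ _
  have h10 : ‖X.2‖ * ‖n.2‖ ≤ R * X.1 * ‖n.2‖ := mul_le_mul_of_nonneg_right hX (norm_nonneg _)
  have h11 : X.1 * (R * ‖n.2‖) < X.1 * n.1 := mul_lt_mul_of_pos_left h4 hX1
  unfold B
  linarith [mul_comm R X.1, mul_assoc X.1 R ‖n.2‖, mul_assoc R X.1 ‖n.2‖]

/-- piece `A2`: far away hyperplanes do not meet the closure of the domain.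
Proof. If `F X ≤ 0` then `‖X.2‖ ≤ R * X.1`, and
`B X n ≤ ‖X.2‖ * ‖n.2‖ - X.1 * n.1 ≤ X.1 * (R * √(1 + n.1 ^ 2) - n.1) < 0` if `n.1` is large
(wlog `0 ≤ R`; `R ^ 2 * (1 + n.1 ^ 2) < n.1 ^ 2` if `n.1 ^ 2 > R ^ 2 / (1 - R ^ 2)`). -/
theorem exists_large {a H : ℝ} {F : ℝ × E → ℝ} (hD : Dom a H F) :
    ∃ σ : ℝ, 0 < σ ∧ ∀ n : ℝ × E, B n n = 1 → σ ≤ n.1 → PP F n ∧ QQ F n := by
  obtain ⟨R, hR, hb⟩ := hD.bd
  have hR' : max R 0 < 1 := max_lt hR one_pos
  have h1 : 0 < 1 - max R 0 := by linarith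
  have key : ∀ n : ℝ × E, B n n = 1 → 1 / (1 - max R 0) ≤ n.1 → ∀ X ∈ Cone E, F X ≤ 0 →
      B X n < 0 := by
    intro n hn hn1 X hX hF
    have hX1 : 0 < X.1 := lt_of_le_of_lt (norm_nonneg _) hX
    refine A2_neg (le_max_right _ _) hR' hX1 ((hb X hX hF).trans ?_) hn hn1
    exact mul_le_mul_of_nonneg_right (le_max_left _ _) hX1.le
  refine ⟨1 / (1 - max R 0), by positivity, fun n hn hn1 => ⟨?_, ?_⟩⟩
  · intro X hX hF hXn
    have := key n hn hn1 X hX hF.le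
    linarith
  · intro X hX hF hXn
    have := key n hn hn1 X hX hF
    linarith

/-- bad pairs of a hyperplane and a point -/
private def A3_bad (F : ℝ × E → ℝ) (n X : ℝ × E) : Prop :=
  (F X = 0 ∧ B X n = 0 ∧ D1 F X n ≤ 0) ∨ (F X ≤ 0 ∧ 0 < B X n ∧ 0 ≤ F (refl n X))

private lemma A3_cont_B : Continuous (fun p : (ℝ × E) × (ℝ × E) => B p.2 p.1) :=
  continuous_B.comp (continuous_snd.prodMk continuous_fst)

private lemma A3_cont_refl : Continuous (fun p : (ℝ × E) × (ℝ × E) => refl p.1 p.2) := by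
  unfold refl
  exact continuous_snd.sub ((continuous_const.mul A3_cont_B).smul continuous_fst)

private lemma A3_local {F : ℝ × E → ℝ} (hs : ContDiffOn ℝ 3 F (Cone E)) {n X : ℝ × E}
    (hn : B n n = 1) (hX : X ∈ Cone E) (hP : PP F n) (hQ : QQ F n) :
    ∀ᶠ p : (ℝ × E) × (ℝ × E) in 𝓝 (n, X), ¬ A3_bad F p.1 p.2 := by
  have cB : ContinuousAt (fun p : (ℝ × E) × (ℝ × E) => B p.2 p.1) (n, X) :=
    A3_cont_B.continuousAt
  have cF : ContinuousAt (fun p : (ℝ × E) × (ℝ × E) => F p.2) (n, X) :=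
    ContinuousAt.comp (f := Prod.snd) (g := F) (x := (n, X)) (hasD1 hs hX).continuousAt
      continuousAt_snd
  have cR0 : ContinuousAt (fun p : (ℝ × E) × (ℝ × E) => refl p.1 p.2) (n, X) :=
    A3_cont_refl.continuousAt
  have cR : ContinuousAt (fun p : (ℝ × E) × (ℝ × E) => F (refl p.1 p.2)) (n, X) :=
    ContinuousAt.comp (f := fun p : (ℝ × E) × (ℝ × E) => refl p.1 p.2) (g := F) (x := (n, X))
      (hasD1 hs (refl_cone hn hX)).continuousAt cR0
  rcases lt_or_ge 0 (F X) with h1 | h1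
  · filter_upwards [cF.eventually_const_lt (u := 0) h1] with p hp hb
    rcases hb with hb | hb
    · exact hp.ne' hb.1
    · exact absurd hb.1 (not_le.2 hp)
  rcases lt_or_ge (B X n) 0 with h2 | h2
  · filter_upwards [cB.eventually_lt_const (u := 0) h2] with p hp hb
    rcases hb with hb | hb
    · exact hp.ne hb.2.1
    · exact absurd hb.2.1 (not_lt.2 hp.le)
  rcases h2.eq_or_lt with h3 | h3
  · -- `B X n = 0`
    have hr : refl n X = X := refl_eq_self h3.symm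
    rcases h1.eq_or_lt with h4 | h4
    · -- `F X = 0`
      have hpos : 0 < D1 F X n := hP X hX h4 h3.symm
      have cD : ContinuousAt (fun p : (ℝ × E) × (ℝ × E) => D1 F p.2 p.1) (n, X) := by
        have c1 : ContinuousAt (fun p : (ℝ × E) × (ℝ × E) => D1 F p.2) (n, X) :=
          ContinuousAt.comp (f := Prod.snd) (g := fun Y => D1 F Y) (x := (n, X))
            (hasD2 hs hX).continuousAt continuousAt_snd
        exact c1.clm_apply continuousAt_fst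
      have e1 : ∀ᶠ p : (ℝ × E) × (ℝ × E) in 𝓝 (n, X), 0 < D1 F p.2 p.1 ∧ p.2 ∈ Cone E :=
        (cD.eventually_const_lt (u := 0) hpos).and
          (continuousAt_snd.eventually_mem (isOpen_Cone.mem_nhds hX))
      obtain ⟨δ, hδ, hball⟩ := Metric.eventually_nhds_iff_ball.1 e1
      have e2 : ∀ᶠ p : (ℝ × E) × (ℝ × E) in 𝓝 (n, X), p.1 ∈ Metric.ball n δ ∧
          p.2 ∈ Metric.ball X δ ∧ refl p.1 p.2 ∈ Metric.ball X δ :=
        (continuousAt_fst.eventually_mem (Metric.ball_mem_nhds n hδ)).and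
          ((continuousAt_snd.eventually_mem (Metric.ball_mem_nhds X hδ)).and
            (cR0.eventually_mem (by
              show Metric.ball X δ ∈ 𝓝 (refl n X)
              rw [hr]
              exact Metric.ball_mem_nhds X hδ)))
      filter_upwards [e2] with p hp hb
      obtain ⟨m, Y⟩ := p
      obtain ⟨hm, hY, hY'⟩ := hp
      simp only at hm hY hY' hb
      have key : ∀ Z ∈ Metric.ball X δ, 0 < D1 F Z m ∧ Z ∈ Cone E := fun Z hZ =>
        hball (m, Z) (by rw [← ball_prod_same]; exact ⟨hm, hZ⟩)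
      rcases hb with hb | hb
      · exact absurd (key Y hY).1 (not_lt.2 hb.2.2)
      · obtain ⟨b1, b2, b3⟩ := hb
        have hw : Y - refl m Y = (2 * B Y m) • m := by
          unfold refl
          rw [sub_sub_cancel]
        have hseg : ∀ t ∈ Set.Icc (0:ℝ) 1, refl m Y + t • ((2 * B Y m) • m) ∈ Metric.ball X δ := by
          intro t ht
          rw [← hw]
          exact (convex_ball X δ).add_smul_sub_mem hY' hY ht
        have hder : ∀ t ∈ Set.Icc (0:ℝ) 1,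
            HasDerivAt (fun t : ℝ => F (refl m Y + t • ((2 * B Y m) • m)))
              (D1 F (refl m Y + t • ((2 * B Y m) • m)) ((2 * B Y m) • m)) t := by
          intro t ht
          have d1 : HasDerivAt (fun t : ℝ => refl m Y + t • ((2 * B Y m) • m))
              ((2 * B Y m) • m) t := by
            have := ((hasDerivAt_id t).smul_const ((2 * B Y m) • m)).const_add (refl m Y)
            simpa using this
          exact (hasD1 hs (key _ (hseg t ht)).2).comp_hasDerivAt t d1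
        obtain ⟨c, hc, hceq⟩ := exists_hasDerivAt_eq_slope
          (fun t : ℝ => F (refl m Y + t • ((2 * B Y m) • m)))
          (fun t : ℝ => D1 F (refl m Y + t • ((2 * B Y m) • m)) ((2 * B Y m) • m))
          one_pos (fun t ht => (hder t ht).continuousAt.continuousWithinAt)
          (fun t ht => hder t (Set.Ioo_subset_Icc_self ht))
        have h5 := (key _ (hseg c (Set.Ioo_subset_Icc_self hc))).1
        have h6 : refl m Y + (1:ℝ) • ((2 * B Y m) • m) = Y := by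
          rw [one_smul, ← hw]
          abel
        have h7 : refl m Y + (0:ℝ) • ((2 * B Y m) • m) = refl m Y := by
          rw [zero_smul, add_zero]
        simp only [map_smul, smul_eq_mul, h6, h7, sub_zero, div_one] at hceq
        have h8 : 0 < 2 * B Y m * D1 F (refl m Y + c • ((2 * B Y m) • m)) m := by
          have := b2
          positivity
        rw [hceq] at h8
        linarith
    · filter_upwards [cF.eventually_lt_const (u := 0) h4,
        cR.eventually_lt_const (u := 0) (by show F (refl n X) < 0; rw [hr]; exact h4)] with p hp hp' hb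
      rcases hb with hb | hb
      · exact hp.ne hb.1
      · exact absurd hb.2.2 (not_le.2 hp')
  · filter_upwards [cB.eventually_const_lt (u := 0) h3,
      cR.eventually_lt_const (u := 0) (hQ X hX h1 h3)] with p hp hp' hb
    rcases hb with hb | hb
    · exact hp.ne' hb.2.1
    · exact absurd hb.2.2 (not_le.2 hp')

private lemma A3_exists_bad {a H : ℝ} {F : ℝ × E → ℝ} (hD : Dom a H F) {R : ℝ}
    (hR : ∀ X ∈ Cone E, F X ≤ 0 → ‖X.2‖ ≤ R * X.1) {n : ℝ × E} (hn : B n n = 1)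
    (h : ¬ (PP F n ∧ QQ F n)) : ∃ X : ℝ × E, X.1 = 1 ∧ ‖X.2‖ ≤ R ∧ A3_bad F n X := by
  have h1 : ∃ X ∈ Cone E, F X ≤ 0 ∧ A3_bad F n X := by
    by_cases hP : PP F n
    · have hQ : ¬ QQ F n := fun hQ => h ⟨hP, hQ⟩
      unfold QQ at hQ
      push Not at hQ
      obtain ⟨X, hX, h1, h2, h3⟩ := hQ
      exact ⟨X, hX, h1, Or.inr ⟨h1, h2, h3⟩⟩
    · unfold PP at hP
      push Not at hP
      obtain ⟨X, hX, h1, h2, h3⟩ := hP
      exact ⟨X, hX, h1.le, Or.inl ⟨h1, h2, h3⟩⟩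
  obtain ⟨X, hX, hF, hb⟩ := h1
  have h0 := fst_pos hX
  have ht : 0 < X.1⁻¹ := inv_pos.2 h0
  refine ⟨X.1⁻¹ • X, ?_, ?_, ?_⟩
  · rw [Prod.smul_fst, smul_eq_mul, inv_mul_cancel₀ h0.ne']
  · have h2 := hR X hX hF
    rw [Prod.smul_snd, norm_smul, Real.norm_eq_abs, abs_of_pos ht, inv_mul_le_iff₀ h0, mul_comm]
    exact h2
  · rcases hb with hb | hb
    · left
      obtain ⟨b1, b2, b3⟩ := hb
      refine ⟨by rw [hD.hom X hX _ ht, b1], by rw [B_smul_left, b2, mul_zero], ?_⟩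
      rw [D1_smul hD.sm hD.hom hX ht, inv_inv, _root_.smul_apply, smul_eq_mul]
      exact mul_nonpos_of_nonneg_of_nonpos h0.le b3
    · right
      obtain ⟨b1, b2, b3⟩ := hb
      refine ⟨by rw [hD.hom X hX _ ht]; exact b1, by rw [B_smul_left]; exact mul_pos ht b2, ?_⟩
      rw [refl_smul, hD.hom _ (refl_cone hn hX) _ ht]
      exact b3

/-- piece `A3`: openness.
Proof. Otherwise for all `k` there are `n_k` with `B n_k n_k = 1`, `σ - σ / (k + 2) ≤ (n_k).1 < σ`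
(it is `< σ` because of `h`) and `X_k = (1, z_k)` (rescale, `hD.hom`, `refl_smul`), `F X_k ≤ 0`, hence
`‖z_k‖ ≤ R < 1`, such that either (1) `F X_k = 0`, `B X_k n_k = 0`, `D1 F X_k n_k ≤ 0`, or
(2) `0 < B X_k n_k`, `0 ≤ F (refl n_k X_k)`. `‖(n_k).2‖ ^ 2 = 1 + (n_k).1 ^ 2` is bounded, so after passing to
a subsequence `n_k → n`, `X_k → X` (`IsCompact.tendsto_subseq`), `B n n = 1`, `n.1 = σ`, `X ∈ Cone E`
(closed ball of radius `R < 1`), `F X ≤ 0`, and one of the two cases occurs for infinitely many `k`.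
Case (1): in the limit `F X = 0`, `B X n = 0`, `D1 F X n ≤ 0` contradicts `PP F n`. Case (2): in the limit
`0 ≤ B X n`, `0 ≤ F (refl n X)`. If `0 < B X n` this contradicts `QQ F n`. If `B X n = 0` then
`refl n X = X`, `F X = 0`, so `0 < D1 F X n` by `PP F n`; by the mean value theorem on the segment between
`refl n_k X_k` and `X_k` (it lies in the convex set `Cone E` and both ends converge to `X`)
`F X_k - F (refl n_k X_k) = 2 * B X_k n_k * D1 F Y_k n_k` for some `Y_k` of the segment, and the right side is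
`> 0` for large `k` (`D1 F` is continuous at `X`), so `F (refl n_k X_k) < F X_k ≤ 0`: contradiction. -/
theorem exists_smaller {a H : ℝ} {F : ℝ × E → ℝ} (hD : Dom a H F) {σ : ℝ} (hσ : 0 < σ)
    (h : ∀ n : ℝ × E, B n n = 1 → σ ≤ n.1 → PP F n ∧ QQ F n) :
    ∃ σ' : ℝ, 0 < σ' ∧ σ' < σ ∧ ∀ n : ℝ × E, B n n = 1 → σ' ≤ n.1 → PP F n ∧ QQ F n := by
  obtain ⟨R, hR1, hR⟩ := hD.bd
  by_contra hcon
  have hcon' : ∀ σ' : ℝ, 0 < σ' → σ' < σ → ∃ n : ℝ × E, B n n = 1 ∧ σ' ≤ n.1 ∧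
      ¬ (PP F n ∧ QQ F n) := by
    intro σ' h1 h2
    by_contra h3
    refine hcon ⟨σ', h1, h2, fun n hn h4 => ?_⟩
    by_contra h5
    exact h3 ⟨n, hn, h4, h5⟩
  have hk : ∀ k : ℕ, ∃ p : (ℝ × E) × (ℝ × E), (B p.1 p.1 = 1 ∧ 0 ≤ p.1.1 ∧ p.1.1 ≤ σ ∧
      p.2.1 = 1 ∧ ‖p.2.2‖ ≤ R) ∧ σ - σ / ((k : ℝ) + 2) ≤ p.1.1 ∧ A3_bad F p.1 p.2 := by
    intro k
    have hk2 : (0:ℝ) < (k : ℝ) + 2 := by positivity
    have hs1 : 0 < σ / ((k : ℝ) + 2) := div_pos hσ hk2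
    have hs2 : σ / ((k : ℝ) + 2) < σ := by
      rw [div_lt_iff₀ hk2]
      nlinarith [(Nat.cast_nonneg k : (0:ℝ) ≤ k)]
    obtain ⟨n, hn, hn1, hn2⟩ := hcon' (σ - σ / ((k : ℝ) + 2)) (by linarith) (by linarith)
    have hn3 : n.1 < σ := by
      by_contra h4
      exact hn2 (h n hn (not_lt.1 h4))
    obtain ⟨X, hX1, hX2, hX3⟩ := A3_exists_bad hD hR hn hn2
    exact ⟨(n, X), ⟨hn, by show 0 ≤ n.1; linarith, hn3.le, hX1, hX2⟩, hn1, hX3⟩
  choose p hpK hpσ hpb using hk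
  let K : Set ((ℝ × E) × (ℝ × E)) := {p | B p.1 p.1 = 1 ∧ 0 ≤ p.1.1 ∧ p.1.1 ≤ σ ∧
      p.2.1 = 1 ∧ ‖p.2.2‖ ≤ R}
  have hcl : IsClosed K := by
    refine IsClosed.and (isClosed_eq (continuous_B.comp (continuous_fst.prodMk continuous_fst))
      continuous_const) (IsClosed.and (isClosed_le (by fun_prop) (by fun_prop))
      (IsClosed.and (isClosed_le (by fun_prop) (by fun_prop))
      (IsClosed.and (isClosed_eq (by fun_prop) (by fun_prop))
        (isClosed_le (by fun_prop) (by fun_prop)))))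
  have hbd : Bornology.IsBounded K := by
    refine (Metric.isBounded_closedBall (x := (0 : (ℝ × E) × (ℝ × E))) (r := 1 + σ)).subset ?_
    rintro ⟨⟨n1, n2⟩, ⟨x1, x2⟩⟩ ⟨h1, h2, h3, h4, h5⟩
    simp only [B] at h1 h2 h3 h4 h5
    rw [real_inner_self_eq_norm_sq] at h1
    have h6 : ‖n2‖ ≤ 1 + σ := by
      apply le_of_sq_le_sq _ (by positivity)
      nlinarith
    rw [mem_closedBall_zero_iff, Prod.norm_def, Prod.norm_def, Prod.norm_def]
    refine max_le (max_le ?_ h6) (max_le ?_ ?_)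
    · show ‖n1‖ ≤ 1 + σ
      rw [Real.norm_eq_abs, abs_of_nonneg h2]
      linarith
    · show ‖x1‖ ≤ 1 + σ
      rw [h4, norm_one]
      linarith
    · show ‖x2‖ ≤ 1 + σ
      linarith
  have hK : IsCompact K := Metric.isCompact_of_isClosed_isBounded hcl hbd
  obtain ⟨A, hA, φ, hφ, hlim⟩ := hK.tendsto_subseq (x := p) fun k => hpK k
  obtain ⟨hA1, hA2, hA3, hA4, hA5⟩ := hA
  have h1 : Tendsto (fun k => (p (φ k)).1.1) atTop (𝓝 A.1.1) :=
    ((continuous_fst.comp continuous_fst).tendsto A).comp hlim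
  have h2 : Tendsto (fun k => σ - σ / ((φ k : ℝ) + 2)) atTop (𝓝 σ) := by
    have h3 : Tendsto (fun k => ((φ k : ℕ) : ℝ) + 2) atTop atTop :=
      tendsto_atTop_add_const_right _ _ (tendsto_natCast_atTop_atTop.comp hφ.tendsto_atTop)
    have h4 := (tendsto_const_nhds (x := σ)).sub ((tendsto_const_nhds (x := σ)).div_atTop h3)
    rw [sub_zero] at h4
    exact h4
  have h3 : σ ≤ A.1.1 := le_of_tendsto_of_tendsto' h2 h1 fun k => hpσ (φ k)
  have hAc : A.2 ∈ Cone E := by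
    show ‖A.2.2‖ < A.2.1
    rw [hA4]
    linarith
  obtain ⟨hP, hQ⟩ := h A.1 hA1 h3
  have h4 := hlim.eventually (A3_local hD.sm hA1 hAc hP hQ)
  obtain ⟨k, hk⟩ := h4.exists
  exact hk (hpb (φ k))

private theorem A4_key {F : ℝ × E → ℝ}
    (hh : ∀ X ∈ Cone E, ∀ t : ℝ, 0 < t → F (t • X) = F X)
    (hQ : ∀ n : ℝ × E, B n n = 1 → 0 < n.1 → QQ F n) {X Y : ℝ × E} (hX : X ∈ Cone E)
    (hY : Y ∈ Cone E) (hF : F X ≤ 0) (hr : ‖Y.2‖ / Y.1 < ‖X.2‖ / X.1) : F Y < 0 := by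
  have norm1 : ∀ Z : ℝ × E, Z ∈ Cone E → ∃ c : ℝ, 0 < c ∧ B (c • Z) (c • Z) = -1 ∧
      (c * Z.1) ^ 2 * (1 - (‖Z.2‖ / Z.1) ^ 2) = 1 := by
    intro Z hZ
    have hneg : 0 < -B Z Z := by linarith [(cone_iff.1 hZ).2]
    have h0 := fst_pos hZ
    have hs : 0 < √(-B Z Z) := Real.sqrt_pos.2 hneg
    have hss : √(-B Z Z) * √(-B Z Z) = -B Z Z := Real.mul_self_sqrt hneg.le
    have hBZ : -B Z Z = Z.1 * Z.1 - ‖Z.2‖ * ‖Z.2‖ := by
      unfold B
      rw [real_inner_self_eq_norm_mul_norm]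
      ring
    refine ⟨(√(-B Z Z))⁻¹, inv_pos.2 hs, ?_, ?_⟩
    · rw [B_smul_left, B_smul_right]
      field_simp
      nlinarith
    · have h1 : ((√(-B Z Z))⁻¹ * Z.1) ^ 2 * (1 - (‖Z.2‖ / Z.1) ^ 2) =
          (Z.1 * Z.1 - ‖Z.2‖ * ‖Z.2‖) / (√(-B Z Z) * √(-B Z Z)) := by
        field_simp
      rw [h1, hss, hBZ, div_self]
      rw [← hBZ]
      exact hneg.ne'
  obtain ⟨c, hc, hcB, hc1⟩ := norm1 X hX
  obtain ⟨e, he, heB, he1⟩ := norm1 Y hY
  have hX0 := fst_pos hX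
  have hY0 := fst_pos hY
  have hrY : 0 ≤ ‖Y.2‖ / Y.1 := div_nonneg (norm_nonneg _) hY0.le
  have hrX : ‖X.2‖ / X.1 < 1 := (div_lt_one hX0).2 hX
  have hlt : e * Y.1 < c * X.1 := by
    have h1 : (e * Y.1) ^ 2 < (c * X.1) ^ 2 := by
      by_contra hcon
      rw [not_lt] at hcon
      have h2 : 0 < 1 - (‖X.2‖ / X.1) ^ 2 := by nlinarith
      have h3 : 1 - (‖X.2‖ / X.1) ^ 2 < 1 - (‖Y.2‖ / Y.1) ^ 2 := by nlinarith
      have h4 : 0 < (e * Y.1) ^ 2 := by positivity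
      nlinarith [mul_le_mul_of_nonneg_right hcon h2.le, mul_lt_mul_of_pos_left h3 h4]
    exact lt_of_pow_lt_pow_left₀ 2 (by positivity) h1
  have hcX := cone_smul hX hc
  have heY := cone_smul hY he
  have hne : c • X ≠ e • Y := by
    intro h
    have := congrArg Prod.fst h
    simp only [Prod.smul_fst, smul_eq_mul] at this
    linarith
  obtain ⟨h1, h2, h3, h4⟩ := refl_of_pair hcX heY hcB heB hne
  have h5 : 0 < ((√(B (c • X - e • Y) (c • X - e • Y)))⁻¹ • (c • X - e • Y)).1 := by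
    simp only [Prod.smul_fst, Prod.fst_sub, smul_eq_mul]
    exact mul_pos (inv_pos.2 (Real.sqrt_pos.2 h1)) (by linarith)
  have h6 := hQ _ h2 h5 (c • X) hcX (by rw [hh X hX c hc]; exact hF) h3
  rw [h4, hh Y hY e he] at h6
  exact h6

/-- piece `A4`: the conclusion.
Proof. Let `X, Y ∈ Cone E` with `F X ≤ 0` and `‖Y.2‖ / Y.1 < ‖X.2‖ / X.1`. Rescale to `B X X = B Y Y = -1`
(multiply by `(√(-B X X))⁻¹`; `F` and the quotients do not change), then `Y.1 < X.1`, since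
`X.1 ^ 2 * (1 - (‖X.2‖ / X.1) ^ 2) = 1`. `refl_of_pair`: `n = (√d)⁻¹ • (X - Y)` has `0 < n.1`, `0 < B X n`,
`refl n X = Y`, so `F Y < 0`. Hence with `R = sup {‖X.2‖ / X.1 | X ∈ Cone E, F X ≤ 0}` (`< 1` by `hD.bd`;
`> 0`: `{F < 0}` is open and nonempty, so it contains points with `X.2 ≠ 0`; here `E` is nontrivial):
`‖Y.2‖ < R * Y.1` implies `F Y < 0`, and `R * Y.1 < ‖Y.2‖` implies `0 < F Y`. If `‖Y.2‖ = R * Y.1` then
`F Y ≤ 0` by continuity along `(Y.1, t • Y.2)`, `t → 1-`, and `F Y < 0` is impossible since near `Y` there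
are points with `R * Y.1 < ‖Y.2‖` (`t → 1+`). -/
theorem concl [Nontrivial E] {a H : ℝ} {F : ℝ × E → ℝ} (hD : Dom a H F)
    (hQ : ∀ n : ℝ × E, B n n = 1 → 0 < n.1 → QQ F n) (hne : ∃ X ∈ Cone E, F X < 0) :
    ∃ R : ℝ, 0 < R ∧ R < 1 ∧ ∀ X ∈ Cone E,
      (F X < 0 ↔ ‖X.2‖ < R * X.1) ∧ (F X = 0 ↔ ‖X.2‖ = R * X.1) := by
  obtain ⟨R0, hR0, hb⟩ := hD.bd
  set S : Set ℝ := {r | ∃ X ∈ Cone E, F X ≤ 0 ∧ r = ‖X.2‖ / X.1} with hS
  have hbd : BddAbove S := by
    refine ⟨R0, ?_⟩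
    rintro r ⟨X, hX, hF, rfl⟩
    exact (div_le_iff₀ (fst_pos hX)).2 (hb X hX hF)
  have hcont : ∀ X ∈ Cone E, ContinuousAt F X := fun X hX =>
    hD.sm.continuousOn.continuousAt (isOpen_Cone.mem_nhds hX)
  -- a point with positive quotient
  obtain ⟨r, hrS, hr0⟩ : ∃ r ∈ S, 0 < r := by
    obtain ⟨X, hX, hFX⟩ := hne
    by_cases h0 : X.2 = 0
    · obtain ⟨e, he⟩ := exists_ne (0 : E)
      have hc : Continuous fun t : ℝ => ((X.1, t • e) : ℝ × E) := by fun_prop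
      have hc0 : ((X.1, (0 : ℝ) • e) : ℝ × E) = X := by
        rw [zero_smul]; exact Prod.ext rfl h0.symm
      have h1 : ∀ᶠ t in 𝓝[>] (0 : ℝ), ((X.1, t • e) : ℝ × E) ∈ Cone E := by
        apply nhdsWithin_le_nhds
        have := hc.tendsto 0
        rw [hc0] at this
        exact this.eventually (isOpen_Cone.mem_nhds hX)
      have h2 : ∀ᶠ t in 𝓝[>] (0 : ℝ), F ((X.1, t • e) : ℝ × E) < 0 := by
        apply nhdsWithin_le_nhds
        have := hc.tendsto 0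
        rw [hc0] at this
        exact ((hcont X hX).tendsto.comp this).eventually (isOpen_Iio.mem_nhds hFX)
      have h3 : ∀ᶠ t in 𝓝[>] (0 : ℝ), 0 < t := self_mem_nhdsWithin
      obtain ⟨t, ht1, ht2, ht3⟩ := (h1.and (h2.and h3)).exists
      refine ⟨_, ⟨_, ht1, ht2.le, rfl⟩, ?_⟩
      apply div_pos _ (fst_pos ht1)
      exact norm_pos_iff.2 (smul_ne_zero ht3.ne' he)
    · exact ⟨_, ⟨X, hX, hFX.le, rfl⟩, div_pos (norm_pos_iff.2 h0) (fst_pos hX)⟩
  have hSne : S.Nonempty := ⟨r, hrS⟩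
  have hR0' : 0 < sSup S := lt_of_lt_of_le hr0 (le_csSup hbd hrS)
  have hR1 : sSup S < 1 := by
    refine lt_of_le_of_lt (csSup_le hSne ?_) hR0
    rintro r ⟨X, hX, hF, rfl⟩
    exact (div_le_iff₀ (fst_pos hX)).2 (hb X hX hF)
  have hin : ∀ Y ∈ Cone E, ‖Y.2‖ < sSup S * Y.1 → F Y < 0 := by
    intro Y hY hlt
    have h1 : ‖Y.2‖ / Y.1 < sSup S := (div_lt_iff₀ (fst_pos hY)).2 hlt
    obtain ⟨_, ⟨X, hX, hF, rfl⟩, h2⟩ := exists_lt_of_lt_csSup hSne h1
    exact A4_key hD.hom hQ hX hY hF h2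
  have hout : ∀ Y ∈ Cone E, sSup S * Y.1 < ‖Y.2‖ → 0 < F Y := by
    intro Y hY hlt
    by_contra hcon
    have h1 : ‖Y.2‖ / Y.1 ≤ sSup S := le_csSup hbd ⟨Y, hY, not_lt.1 hcon, rfl⟩
    have h2 := (div_le_iff₀ (fst_pos hY)).1 h1
    linarith
  have hon : ∀ Y ∈ Cone E, ‖Y.2‖ = sSup S * Y.1 → F Y = 0 := by
    intro Y hY heq
    have hY0 := fst_pos hY
    have hpos : 0 < sSup S * Y.1 := mul_pos hR0' hY0
    have hc : Continuous fun t : ℝ => ((Y.1, t • Y.2) : ℝ × E) := by fun_prop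
    have hc1 : ((Y.1, (1 : ℝ) • Y.2) : ℝ × E) = Y := by rw [one_smul]
    have hct : Tendsto (fun t : ℝ => ((Y.1, t • Y.2) : ℝ × E)) (𝓝 1) (𝓝 Y) := by
      have := hc.tendsto 1
      rwa [hc1] at this
    have hFt : Tendsto (fun t : ℝ => F ((Y.1, t • Y.2) : ℝ × E)) (𝓝 1) (𝓝 (F Y)) :=
      (hcont Y hY).tendsto.comp hct
    have hcone : ∀ᶠ t in 𝓝 (1 : ℝ), ((Y.1, t • Y.2) : ℝ × E) ∈ Cone E :=
      hct.eventually (isOpen_Cone.mem_nhds hY)
    have hposn : ∀ᶠ t in 𝓝 (1 : ℝ), (0 : ℝ) < t := lt_mem_nhds one_pos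
    apply le_antisymm
    · refine le_of_tendsto (hFt.mono_left nhdsWithin_le_nhds : Tendsto _ (𝓝[<] (1 : ℝ)) _) ?_
      have h3 : ∀ᶠ t in 𝓝[<] (1 : ℝ), t < 1 := self_mem_nhdsWithin
      filter_upwards [h3, nhdsWithin_le_nhds hcone, nhdsWithin_le_nhds hposn] with t ht1 ht2 ht3
      refine (hin _ ht2 ?_).le
      change ‖t • Y.2‖ < sSup S * Y.1
      rw [norm_smul, Real.norm_eq_abs, abs_of_pos ht3, heq]
      nlinarith
    · refine ge_of_tendsto (hFt.mono_left nhdsWithin_le_nhds : Tendsto _ (𝓝[>] (1 : ℝ)) _) ?_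
      have h3 : ∀ᶠ t in 𝓝[>] (1 : ℝ), 1 < t := self_mem_nhdsWithin
      filter_upwards [h3, nhdsWithin_le_nhds hcone, nhdsWithin_le_nhds hposn] with t ht1 ht2 ht3
      refine (hout _ ht2 ?_).le
      change sSup S * Y.1 < ‖t • Y.2‖
      rw [norm_smul, Real.norm_eq_abs, abs_of_pos ht3, heq]
      nlinarith
  refine ⟨sSup S, hR0', hR1, fun X hX => ⟨⟨fun h => ?_, hin X hX⟩, ⟨fun h => ?_, hon X hX⟩⟩⟩
  · rcases lt_trichotomy ‖X.2‖ (sSup S * X.1) with h1 | h1 | h1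
    · exact h1
    · have := hon X hX h1; linarith
    · have := hout X hX h1; linarith
  · rcases lt_trichotomy ‖X.2‖ (sSup S * X.1) with h1 | h1 | h1
    · have := hin X hX h1; linarith
    · exact h1
    · have := hout X hX h1; linarith

end Pool.Agent.Helper41.ALX
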