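import Pool.Agent.Helper41.ALX.Crv

/-! # ALX, pieces B1, B2, B3, B4: interior touching -/

set_option autoImplicit false
set_option linter.unusedSectionVars false
set_option linter.unusedVariables false

namespace Pool.Agent.Helper41.ALX

open Filter Topology
open scoped ContDiff

variable {E : Type*} [NormedAddCommGroup E] [InnerProductSpace ℝ E] [FiniteDimensional ℝ E]

private theorem B1_curve {F G : ℝ × E → ℝ} {Y : ℝ × E} (v w z y : ℝ × E)
    (h : ∀ᶠ Z in 𝓝 Y, G Z < 0 → F Z ≤ 0)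
    (h1 : ∀ᶠ ε in 𝓝[>] (0:ℝ), 1 * G (crv Y v w z y ε) < 0)
    (h2 : ∀ᶠ ε in 𝓝[>] (0:ℝ), (-1) * F (crv Y v w z y ε) < 0) : False := by
  have hc : Tendsto (crv Y v w z y) (𝓝 0) (𝓝 Y) := by
    have h3 := (crv_cont Y v w z y).tendsto 0
    rwa [crv_zero] at h3
  have h4 : ∀ᶠ ε in 𝓝[>] (0:ℝ), G (crv Y v w z y ε) < 0 → F (crv Y v w z y ε) ≤ 0 :=
    (hc.mono_left nhdsWithin_le_nhds).eventually h
  obtain ⟨ε, ⟨h5, h6⟩, h7⟩ := ((h1.and h2).and h4).exists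
  rw [one_mul] at h5
  have h8 := h7 h5
  linarith

/-- piece `B1`: `{G < 0} ⊆ {F ≤ 0}` near a common boundary point `Y`.
Proof. Write `ℓ = D1 F Y`, `m = D1 G Y`. (1) `m v < 0 → ℓ v ≤ 0`: by `crv_sign1` for `G` (`s = 1`) the curve
`Y + ε v` has `G < 0`, so `F ≤ 0` on it for small `ε > 0`, and `ℓ v > 0` would give `F > 0`
(`crv_sign1` for `F`, `s = -1`). (2) Choose `w₀` with `m w₀ = -1`. If `m v = 0` then `m (v + δ w₀) < 0` for
all `δ > 0`, so `ℓ v + δ ℓ w₀ ≤ 0` and `ℓ v ≤ 0`; the same for `-v`, so `ℓ v = 0`. Hence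
`ℓ v = -(ℓ w₀) * m v` for all `v` (apply (2) to `v + (m v) • w₀`), `μ := -(ℓ w₀) ≥ 0`, and `μ ≠ 0` since
`ℓ ≠ 0`. So `m = μ⁻¹ • ℓ`, `l = μ⁻¹`. (3) Let `ℓ v = 0` and `κ > 0`, `w = (D2 G v v / 2 + κ) • w₀`. Then
`D2 G v v + 2 m w = -2 κ < 0`, so `G < 0` on `crv Y v w 0 0 ε` for small `ε > 0` (`crv_sign2`), so `F ≤ 0`, so
`D2 F v v + 2 ℓ w ≤ 0` (`crv_sign2` with `s = -1`), i.e. `D2 F v v ≤ l⁻¹ * (D2 G v v + 2 κ)`; `κ → 0`. -/
theorem tangency {F G : ℝ × E → ℝ} (hF : ContDiffOn ℝ 3 F (Cone E)) (hG : ContDiffOn ℝ 3 G (Cone E))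
    {Y : ℝ × E} (hY : Y ∈ Cone E) (hF0 : F Y = 0) (hG0 : G Y = 0) (hDF : D1 F Y ≠ 0)
    (hDG : D1 G Y ≠ 0) (h : ∀ᶠ Z in 𝓝 Y, G Z < 0 → F Z ≤ 0) :
    ∃ l : ℝ, 0 < l ∧ (∀ v, D1 G Y v = l * D1 F Y v) ∧
      ∀ v, D1 F Y v = 0 → l * D2 F Y v v ≤ D2 G Y v v := by
  have hkey1 : ∀ v, D1 G Y v < 0 → D1 F Y v ≤ 0 := by
    intro v hv
    by_contra hcon
    have hcon' : 0 < D1 F Y v := not_le.1 hcon
    exact B1_curve v 0 0 0 h (crv_sign1 hG hY hG0 0 0 0 (by linarith))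
      (crv_sign1 hF hY hF0 0 0 0 (by linarith))
  obtain ⟨u, hu⟩ : ∃ u, D1 G Y u ≠ 0 := by
    by_contra hcon
    push Not at hcon
    exact hDG (ContinuousLinearMap.ext hcon)
  obtain ⟨w₀, hw₀⟩ : ∃ w₀, D1 G Y w₀ = -1 := by
    refine ⟨(-(D1 G Y u)⁻¹) • u, ?_⟩
    rw [map_smul, smul_eq_mul, neg_mul, inv_mul_cancel₀ hu]
  have hle : ∀ v, D1 G Y v = 0 → D1 F Y v ≤ 0 := by
    intro v hv
    by_contra hcon
    obtain ⟨δ, hδ, hδ2⟩ := exists_pos_mul_lt (not_le.1 hcon) (-(D1 F Y w₀))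
    have h1 : D1 G Y (v + δ • w₀) < 0 := by
      rw [map_add, map_smul, smul_eq_mul, hv, hw₀]
      linarith
    have h2 := hkey1 _ h1
    rw [map_add, map_smul, smul_eq_mul] at h2
    linarith
  have hker : ∀ v, D1 G Y v = 0 → D1 F Y v = 0 := by
    intro v hv
    have h1 := hle v hv
    have h2 := hle (-v) (by rw [map_neg, hv, neg_zero])
    rw [map_neg] at h2
    linarith
  have hlin : ∀ v, D1 F Y v = -(D1 F Y w₀) * D1 G Y v := by
    intro v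
    have h1 := hker (v + (D1 G Y v) • w₀) (by
      rw [map_add, map_smul, smul_eq_mul, hw₀]
      ring)
    rw [map_add, map_smul, smul_eq_mul] at h1
    linarith
  obtain ⟨μ, hμ⟩ : ∃ μ, μ = -(D1 F Y w₀) := ⟨_, rfl⟩
  rw [← hμ] at hlin
  have hμ0 : 0 ≤ μ := by
    have h1 := hkey1 w₀ (by rw [hw₀]; norm_num)
    linarith
  have hμne : μ ≠ 0 := by
    intro h0
    apply hDF
    apply ContinuousLinearMap.ext
    intro v
    rw [hlin v, h0, zero_mul]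
    rfl
  have hμpos : 0 < μ := lt_of_le_of_ne hμ0 (Ne.symm hμne)
  refine ⟨μ⁻¹, inv_pos.2 hμpos, ?_, ?_⟩
  · intro v
    rw [hlin v, inv_mul_cancel_left₀ hμne]
  · intro v hv
    have hGv : D1 G Y v = 0 := by
      have h1 := hlin v
      rw [hv] at h1
      rcases mul_eq_zero.1 h1.symm with h2 | h2
      · exact absurd h2 hμne
      · exact h2
    by_contra hcon
    have hcon' : D2 G Y v v < μ⁻¹ * D2 F Y v v := not_le.1 hcon
    obtain ⟨κ, hκ⟩ : ∃ κ, κ = (μ⁻¹ * D2 F Y v v - D2 G Y v v) / 4 := ⟨_, rfl⟩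
    have hκpos : 0 < κ := by rw [hκ]; linarith
    have hw1 : D1 G Y ((D2 G Y v v / 2 + κ) • w₀) = -(D2 G Y v v / 2 + κ) := by
      rw [map_smul, smul_eq_mul, hw₀]
      ring
    have hw2 : D1 F Y ((D2 G Y v v / 2 + κ) • w₀) = -(μ * (D2 G Y v v / 2 + κ)) := by
      rw [map_smul, smul_eq_mul, hμ]
      ring
    have hmm : D2 F Y v v = μ * (D2 G Y v v + 4 * κ) := by
      have h1 : μ * (μ⁻¹ * D2 F Y v v) = D2 F Y v v := mul_inv_cancel_left₀ hμne _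
      rw [← h1]
      congr 1
      rw [hκ]
      ring
    refine B1_curve v ((D2 G Y v v / 2 + κ) • w₀) 0 0 h
      (crv_sign2 hG hY hG0 0 0 hGv ?_) (crv_sign2 hF hY hF0 0 0 hv ?_)
    · rw [hw1]
      linarith
    · rw [hw2, hmm]
      have h1 : 0 < μ * κ := mul_pos hμpos hκpos
      nlinarith

/-- piece `B2`: basic facts on `qq` and the unit normal `N = (√(qq F X))⁻¹ • gradL (D1 F X)`.
Proof. `B (gradL l) v = l v` (`B_gradL`); `gradL (D1 F X) ≠ 0` as `D1 F X ≠ 0`; it is orthogonal to `X`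
(`D1_self`), so `B_pos_of_orth`. -/
theorem normal_facts {F : ℝ × E → ℝ} (hs : ContDiffOn ℝ 3 F (Cone E))
    (hh : ∀ X ∈ Cone E, ∀ t : ℝ, 0 < t → F (t • X) = F X) {X : ℝ × E} (hX : X ∈ Cone E)
    (hne : D1 F X ≠ 0) :
    0 < qq F X ∧ ∃ N : ℝ × E, B N N = 1 ∧ B X N = 0 ∧ gradL (D1 F X) = √(qq F X) • N ∧
      ∀ v, D1 F X v = √(qq F X) * B N v := by
  have h1 : B X (gradL (D1 F X)) = 0 := by
    rw [B_comm, B_gradL, D1_self hs hh hX]
  have h2 : gradL (D1 F X) ≠ 0 := by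
    intro h0
    apply hne
    refine ContinuousLinearMap.ext fun v => ?_
    rw [← B_gradL (D1 F X) v, h0, B_zero_left]
    rfl
  have h3 : 0 < qq F X := B_pos_of_orth hX h1 h2
  have hs0 : 0 < √(qq F X) := Real.sqrt_pos.2 h3
  have hss : √(qq F X) * √(qq F X) = qq F X := Real.mul_self_sqrt h3.le
  have hg : gradL (D1 F X) = √(qq F X) • ((√(qq F X))⁻¹ • gradL (D1 F X)) := by
    rw [smul_smul, mul_inv_cancel₀ hs0.ne', one_smul]
  refine ⟨h3, (√(qq F X))⁻¹ • gradL (D1 F X), ?_, ?_, hg, ?_⟩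
  · rw [B_smul_left, B_smul_right]
    change (√(qq F X))⁻¹ * ((√(qq F X))⁻¹ * qq F X) = 1
    rw [← mul_assoc, ← mul_inv, hss, inv_mul_cancel₀ h3.ne']
  · rw [B_smul_right, h1, mul_zero]
  · intro v
    rw [B_smul_left, B_gradL, ← mul_assoc, mul_inv_cancel₀ hs0.ne', one_mul]

/-- piece `B2`: the mean curvature in an adapted frame.
Proof. `trB` by `Frame1.tr`; `D2 F X X X = -D1 F X X = 0`;
`D2 F X (gradL ..) (gradL ..) / qq F X = D2 F X N N`. -/
theorem Mm_frame {F : ℝ × E → ℝ} (hs : ContDiffOn ℝ 3 F (Cone E))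
    (hh : ∀ X ∈ Cone E, ∀ t : ℝ, 0 < t → F (t • X) = F X) {X : ℝ × E} (hX : X ∈ Cone E)
    (hq : 0 < qq F X) {N : ℝ × E} (hg : gradL (D1 F X) = √(qq F X) • N) {m : ℕ}
    {e : Fin m → ℝ × E} (he : Frame1 X N e) :
    Mm F X = (∑ i, D2 F X (e i) (e i)) / √(qq F X) := by
  have h1 : trB (D2 F X) = -D2 F X X X + D2 F X N N + ∑ i, D2 F X (e i) (e i) :=
    he.tr (D2 F X) (fun u v => D2_symm hs hX u v)
  have h2 : D2 F X X X = 0 := by
    rw [D2_self hs hh hX, D1_self hs hh hX, neg_zero]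
  have hss : √(qq F X) * √(qq F X) = qq F X := Real.mul_self_sqrt hq.le
  have h3 : D2 F X (gradL (D1 F X)) (gradL (D1 F X)) / qq F X = D2 F X N N := by
    rw [hg, map_smul, map_smul, _root_.smul_apply, smul_eq_mul, smul_eq_mul,
      ← mul_assoc, hss, mul_div_cancel_left₀ _ hq.ne']
  unfold Mm
  rw [h3, h1, h2]
  congr 1
  ring

/-- piece `B2`: comparison of the mean curvatures.
Proof. `normal_facts` for `F`: `N`; `gradL (D1 G Y) = l • gradL (D1 F Y)`, `qq G Y = l ^ 2 * qq F Y`,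
`√(qq G Y) = l * √(qq F Y)`; `Mm_frame` for both with the same frame (`exists_frame1`);
`D1 F Y (e i) = √(qq F Y) * B N (e i) = 0`. -/
theorem Mm_le {F G : ℝ × E → ℝ} (hF : ContDiffOn ℝ 3 F (Cone E)) (hG : ContDiffOn ℝ 3 G (Cone E))
    (hhF : ∀ X ∈ Cone E, ∀ t : ℝ, 0 < t → F (t • X) = F X)
    (hhG : ∀ X ∈ Cone E, ∀ t : ℝ, 0 < t → G (t • X) = G X)
    {Y : ℝ × E} (hY : Y ∈ Cone E) (hYY : B Y Y = -1) (hne : D1 F Y ≠ 0) {l : ℝ} (hl : 0 < l)
    (h1 : ∀ v, D1 G Y v = l * D1 F Y v)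
    (h2 : ∀ v, D1 F Y v = 0 → l * D2 F Y v v ≤ D2 G Y v v) : Mm F Y ≤ Mm G Y := by
  obtain ⟨hq, N, hNN, hYN, hg, hD⟩ := normal_facts hF hhF hY hne
  have hs0 : 0 < √(qq F Y) := Real.sqrt_pos.2 hq
  have hgG : gradL (D1 G Y) = l • gradL (D1 F Y) := by
    apply eq_of_B
    intro w
    rw [B_gradL, h1, B_smul_left, B_gradL]
  have hqG : qq G Y = l ^ 2 * qq F Y := by
    unfold qq
    rw [hgG, B_smul_left, B_smul_right]
    ring
  have hqG0 : 0 < qq G Y := by rw [hqG]; positivity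
  have hsG : √(qq G Y) = l * √(qq F Y) := by
    rw [hqG, Real.sqrt_mul (sq_nonneg l), Real.sqrt_sq hl.le]
  obtain ⟨m, e, he⟩ := exists_frame1 hY hYY hNN hYN
  have hF1 := Mm_frame hF hhF hY hq hg he
  have hgG' : gradL (D1 G Y) = √(qq G Y) • N := by
    rw [hgG, hg, smul_smul, hsG]
  have hG1 := Mm_frame hG hhG hY hqG0 hgG' he
  rw [hF1, hG1, hsG]
  have h3 : l * ∑ i, D2 F Y (e i) (e i) ≤ ∑ i, D2 G Y (e i) (e i) := by
    rw [Finset.mul_sum]
    refine Finset.sum_le_sum fun i _ => ?_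
    apply h2
    rw [hD, he.oN i, mul_zero]
  rw [div_le_div_iff₀ hs0 (by positivity)]
  nlinarith

/-- the reflection as a continuous linear map -/
private noncomputable def B3_R (n : ℝ × E) : (ℝ × E) →L[ℝ] (ℝ × E) :=
  LinearMap.toContinuousLinearMap
    { toFun := refl n
      map_add' := refl_add n
      map_smul' := fun t X => refl_smul n X t }

private theorem B3_R_apply (n X : ℝ × E) : B3_R n X = refl n X := rfl

private theorem B3_hasD1 {F : ℝ × E → ℝ} (hs : ContDiffOn ℝ 3 F (Cone E)) {n : ℝ × E}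
    (hn : B n n = 1) {Y : ℝ × E} (hY : Y ∈ Cone E) :
    HasFDerivAt (fun Z => F (refl n Z)) ((D1 F (refl n Y)).comp (B3_R n)) Y := by
  have h1 : HasFDerivAt F (D1 F (B3_R n Y)) (B3_R n Y) := hasD1 hs (refl_cone hn hY)
  exact h1.comp Y (B3_R n).hasFDerivAt

private theorem B3_hasD2 {F : ℝ × E → ℝ} (hs : ContDiffOn ℝ 3 F (Cone E)) {n : ℝ × E}
    (hn : B n n = 1) {Y : ℝ × E} (hY : Y ∈ Cone E) (u v : ℝ × E) :
    D2 (fun Z => F (refl n Z)) Y u v = D2 F (refl n Y) (refl n u) (refl n v) := by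
  have h1 : HasFDerivAt (fun Z => D1 F Z) (D2 F (B3_R n Y)) (B3_R n Y) :=
    hasD2 hs (refl_cone hn hY)
  have h2 : HasFDerivAt (fun Z => D1 F (B3_R n Z)) ((D2 F (B3_R n Y)).comp (B3_R n)) Y :=
    HasFDerivAt.comp (g := fun Z => D1 F Z) (f := fun Z => B3_R n Z) Y h1 (B3_R n).hasFDerivAt
  have h3 : HasFDerivAt (fun Z => (D1 F (B3_R n Z)).comp (B3_R n)) _ Y :=
    h2.clm_comp (hasFDerivAt_const (B3_R n) Y)
  have h4 : (fun Z => D1 (fun W => F (refl n W)) Z) =ᶠ[𝓝 Y]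
      (fun Z => (D1 F (B3_R n Z)).comp (B3_R n)) := by
    filter_upwards [isOpen_Cone.mem_nhds hY] with Z hZ
    exact (B3_hasD1 hs hn hZ).fderiv
  have h5 : D2 (fun Z => F (refl n Z)) Y = _ := (h3.congr_of_eventuallyEq h4).fderiv
  rw [h5]
  simp [B3_R_apply]

/-- piece `B3`: the reflected function `G Z = F (refl n Z)`.
Proof. `refl n` is a continuous linear map `R` (bundle it) which maps `Cone E` into itself (`refl_cone`);
chain rule. -/
theorem refl_derivs {F : ℝ × E → ℝ} (hs : ContDiffOn ℝ 3 F (Cone E)) {n : ℝ × E} (hn : B n n = 1) :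
    ContDiffOn ℝ 3 (fun Z => F (refl n Z)) (Cone E) ∧
    (∀ Y ∈ Cone E, ∀ v, D1 (fun Z => F (refl n Z)) Y v = D1 F (refl n Y) (refl n v)) ∧
    (∀ Y ∈ Cone E, ∀ u v, D2 (fun Z => F (refl n Z)) Y u v =
      D2 F (refl n Y) (refl n u) (refl n v)) := by
  refine ⟨?_, ?_, ?_⟩
  · exact hs.comp (B3_R n).contDiff.contDiffOn (fun X hX => refl_cone hn hX)
  · intro Y hY v
    have h := (B3_hasD1 hs hn hY).fderiv
    show fderiv ℝ (fun Z => F (refl n Z)) Y v = _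
    rw [h]
    rfl
  · intro Y hY u v
    exact B3_hasD2 hs hn hY u v

/-- piece `B3`: invariance of the mean curvature.
Proof. `gradL (D1 G Y) = refl n (gradL (D1 F (refl n Y)))` (`eq_of_B`, `B_gradL`, `B_refl_right`),
so `qq G Y = qq F (refl n Y)` and the term `D2 G (gradL ..) (gradL ..)` agrees (`refl_refl`); `trB_refl`. -/
theorem Mm_refl {F : ℝ × E → ℝ} (hs : ContDiffOn ℝ 3 F (Cone E)) {n : ℝ × E} (hn : B n n = 1)
    {Y : ℝ × E} (hY : Y ∈ Cone E) :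
    Mm (fun Z => F (refl n Z)) Y = Mm F (refl n Y) ∧
      qq (fun Z => F (refl n Z)) Y = qq F (refl n Y) := by
  obtain ⟨h1, h2, h3⟩ := refl_derivs hs hn
  have hg : gradL (D1 (fun Z => F (refl n Z)) Y) = refl n (gradL (D1 F (refl n Y))) := by
    apply eq_of_B
    intro w
    rw [B_gradL, B_refl_right, B_gradL, h2 Y hY]
  have hq : qq (fun Z => F (refl n Z)) Y = qq F (refl n Y) := by
    unfold qq
    rw [hg, B_refl hn]
  refine ⟨?_, hq⟩
  unfold Mm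
  rw [hq, trB_refl hn (D2 F (refl n Y)) (D2 (fun Z => F (refl n Z)) Y)
    (fun u v => D2_symm hs (refl_cone hn hY) u v) (fun u v => h3 Y hY u v), h3 Y hY, hg,
    refl_refl hn]

/-- the case `B X X = -1` -/
private theorem stepB_aux {a H : ℝ} {F : ℝ × E → ℝ} (hD : Dom a H F) (ha : 0 < a) {σ : ℝ}
    (hσ : 0 < σ) (hP : ∀ n : ℝ × E, B n n = 1 → σ < n.1 → PP F n) {n : ℝ × E} (hn : B n n = 1)
    (hn1 : n.1 = σ) (hW : WW F n) {X : ℝ × E} (hX : X ∈ Cone E) (hXX : B X X = -1)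
    (hFX : F X ≤ 0) (hb : 0 < B X n) : F (refl n X) < 0 := by
  have hY : refl n X ∈ Cone E := refl_cone hn hX
  obtain ⟨Y, hYd⟩ : ∃ Y, Y = refl n X := ⟨_, rfl⟩
  rw [← hYd] at hY ⊢
  have hXY : refl n Y = X := by rw [hYd, refl_refl hn]
  have hFY : F Y ≤ 0 := by rw [hYd]; exact hW X hX hFX hb
  have hYn : B Y n = -B X n := by rw [hYd, B_refl_n hn]
  by_contra hcon
  have hFY0 : F Y = 0 := le_antisymm hFY (not_lt.1 hcon)
  have hcr : Continuous (refl n : ℝ × E → ℝ × E) := (B3_R n).continuous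
  have hcB : Continuous (fun Z : ℝ × E => B (refl n Z) n) :=
    continuous_B.comp (hcr.prodMk continuous_const)
  have hpos : ∀ᶠ Z in 𝓝 Y, 0 < B (refl n Z) n := by
    apply hcB.continuousAt.eventually_const_lt
    change 0 < B (refl n Y) n
    rw [hXY]
    exact hb
  have hcone : ∀ᶠ Z in 𝓝 Y, Z ∈ Cone E := isOpen_Cone.mem_nhds hY
  have hle : ∀ᶠ Z in 𝓝 Y, F (refl n Z) < 0 → F Z ≤ 0 := by
    filter_upwards [hpos, hcone] with Z h1 h2 h3
    have h4 := hW (refl n Z) (refl_cone hn h2) h3.le h1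
    rwa [refl_refl hn] at h4
  have hneY : D1 F Y ≠ 0 := hD.reg Y hY hFY0
  -- `F X = 0`
  have hFX0 : F X = 0 := by
    by_contra hne
    have hlt : F X < 0 := lt_of_le_of_ne hFX hne
    have hcX : ContinuousAt F X := (hD.sm.continuousOn).continuousAt (isOpen_Cone.mem_nhds hX)
    have hcX' : ContinuousAt (fun Z => F (refl n Z)) Y := by
      apply ContinuousAt.comp (f := fun Z => refl n Z) (g := F)
      · rw [hXY]; exact hcX
      · exact hcr.continuousAt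
    have hneg : ∀ᶠ Z in 𝓝 Y, F (refl n Z) < 0 := by
      apply hcX'.eventually_lt_const
      change F (refl n Y) < 0
      rw [hXY]
      exact hlt
    have hmax : IsLocalMax F Y := by
      filter_upwards [hneg, hle] with Z h1 h2
      rw [hFY0]
      exact h2 h1
    exact hneY hmax.fderiv_eq_zero
  have hneX : D1 F X ≠ 0 := hD.reg X hX hFX0
  obtain ⟨hG, hG1, hG2⟩ := refl_derivs hD.sm hn
  have hG1' : ∀ v, D1 (fun Z => F (refl n Z)) Y v = D1 F X (refl n v) := by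
    intro v; rw [hG1 Y hY, hXY]
  have hneG : D1 (fun Z => F (refl n Z)) Y ≠ 0 := by
    intro h0
    apply hneX
    refine ContinuousLinearMap.ext fun v => ?_
    have h1 := hG1' (refl n v)
    rw [h0, refl_refl hn] at h1
    simpa using h1.symm
  have hG0 : (fun Z => F (refl n Z)) Y = 0 := by
    change F (refl n Y) = 0
    rw [hXY]; exact hFX0
  obtain ⟨l, hl, h1, h2⟩ := tangency hD.sm hG hY hFY0 hG0 hneY hneG hle
  have hhG : ∀ X ∈ Cone E, ∀ t : ℝ, 0 < t →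
      (fun Z => F (refl n Z)) (t • X) = (fun Z => F (refl n Z)) X := by
    intro Z hZ t ht
    change F (refl n (t • Z)) = F (refl n Z)
    rw [refl_smul]
    exact hD.hom _ (refl_cone hn hZ) t ht
  have hYY : B Y Y = -1 := by rw [hYd, B_refl hn, hXX]
  have hM := Mm_le hD.sm hG hD.hom hhG hY hYY hneY hl h1 h2
  obtain ⟨hM2, hq2⟩ := Mm_refl hD.sm hn hY
  rw [hXY] at hM2 hq2
  rw [hM2] at hM
  obtain ⟨hqY, -⟩ := normal_facts hD.sm hD.hom hY hneY
  have hqG : qq (fun Z => F (refl n Z)) Y = l ^ 2 * qq F Y := by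
    have hgG : gradL (D1 (fun Z => F (refl n Z)) Y) = l • gradL (D1 F Y) := by
      apply eq_of_B
      intro w
      rw [B_gradL, h1, B_smul_left, B_gradL]
    unfold qq
    rw [hgG, B_smul_left, B_smul_right]
    ring
  have hsX : √(qq F X) = l * √(qq F Y) := by
    rw [← hq2, hqG, Real.sqrt_mul (sq_nonneg l), Real.sqrt_sq hl.le]
  obtain ⟨q, hq⟩ : ∃ q, q = √(qq F Y) := ⟨_, rfl⟩
  have hq0 : 0 < q := by rw [hq]; exact Real.sqrt_pos.2 hqY
  have hX0 : 0 < X.1 := fst_pos hX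
  have hY0 : 0 < Y.1 := fst_pos hY
  have hEX : Emean a F X = H := by
    have := hD.eq X hX hFX0
    rwa [hXX, neg_neg, Real.sqrt_one, one_mul] at this
  have hEY : Emean a F Y = H := by
    have := hD.eq Y hY hFY0
    rwa [hYY, neg_neg, Real.sqrt_one, one_mul] at this
  unfold Emean at hEX hEY
  rw [hsX, ← hq] at hEX
  rw [← hq] at hEY
  -- the derivatives
  have hv : ∀ v, D1 F X (refl n v) = l * D1 F Y v := by
    intro v; rw [← hG1', h1]
  have hon : B ((1 : ℝ), (0 : E)) n = -n.1 := by rw [B_comm, B_origin]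
  have hro : refl n ((1 : ℝ), (0 : E)) = ((1 : ℝ), (0 : E)) + (2 * n.1) • n := by
    unfold refl
    rw [hon]
    module
  have hrn : refl n n = -n := by
    unfold refl
    rw [hn]
    module
  have e1 : D1 F X n = -(l * D1 F Y n) := by
    have := hv n
    rw [hrn, map_neg] at this
    linarith
  have e2 : D1 F X (1, 0) = l * (D1 F Y (1, 0) + 2 * n.1 * D1 F Y n) := by
    have h := hv (refl n (1, 0))
    rw [refl_refl hn, hro, map_add, map_smul, smul_eq_mul] at h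
    exact h
  have e3 : Y.1 = X.1 - 2 * B X n * n.1 := by
    rw [hYd]
    simp [refl]
  obtain ⟨α, hα⟩ : ∃ α, α = D1 F X (1, 0) := ⟨_, rfl⟩
  obtain ⟨β, hβ⟩ : ∃ β, β = D1 F Y (1, 0) := ⟨_, rfl⟩
  obtain ⟨γ, hγ⟩ : ∃ γ, γ = D1 F Y n := ⟨_, rfl⟩
  obtain ⟨ν, hν⟩ : ∃ ν, ν = D1 F X n := ⟨_, rfl⟩
  obtain ⟨b, hbd⟩ : ∃ b, b = B X n := ⟨_, rfl⟩
  rw [← hα] at hEX
  rw [← hβ] at hEY
  rw [← hν, ← hγ] at e1
  rw [← hα, ← hβ, ← hγ] at e2
  rw [← hbd] at e3 hb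
  have hn0 : 0 < n.1 := by rw [hn1]; exact hσ
  have k1 : a * β / (Y.1 * q) ≤ a * α / (X.1 * (l * q)) := by linarith
  have k2 : β * X.1 ≤ (β + 2 * n.1 * γ) * Y.1 := by
    rw [e2, div_le_div_iff₀ (by positivity) (by positivity)] at k1
    have h3 : 0 < a * l * q := by positivity
    have h4 : a * l * q * (β * X.1) ≤ a * l * q * ((β + 2 * n.1 * γ) * Y.1) := by
      nlinarith [k1]
    exact le_of_mul_le_mul_left h4 h3
  have k3 : b * β ≤ γ * Y.1 := by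
    have hXe : X.1 = Y.1 + 2 * b * n.1 := by linarith
    rw [hXe] at k2
    have h3 : 0 < 2 * n.1 := by positivity
    have h4 : 2 * n.1 * (b * β) ≤ 2 * n.1 * (γ * Y.1) := by nlinarith
    exact le_of_mul_le_mul_left h4 h3
  have k4 : X.1 * ν + b * α ≤ 0 := by
    have h3 : X.1 * ν + b * α = l * (b * β - γ * Y.1) := by
      rw [e1, e2, e3]; ring
    rw [h3]
    nlinarith
  -- the new hyperplane
  obtain ⟨Z, hZ⟩ : ∃ Z, Z = X.1 • n + b • ((1 : ℝ), (0 : E)) := ⟨_, rfl⟩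
  have hXZ : B X Z = 0 := by
    rw [hZ, B_add_right, B_smul_right, B_smul_right, B_origin, ← hbd]
    ring
  have hZ0 : Z ≠ 0 := by
    intro h0
    have h3 : Z.2 = 0 := by rw [h0]; rfl
    rw [hZ] at h3
    simp only [Prod.snd_add, Prod.smul_snd, smul_zero, add_zero] at h3
    have h4 : n.2 = 0 := by
      rcases smul_eq_zero.1 h3 with h5 | h5
      · exact absurd h5 hX0.ne'
      · exact h5
    have h5 := hn
    unfold B at h5
    rw [h4, inner_zero_left] at h5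
    nlinarith
  have hd0 : 0 < B Z Z := B_pos_of_orth hX hXZ hZ0
  have hd : B Z Z = X.1 ^ 2 - 2 * X.1 * b * n.1 - b ^ 2 := by
    have h3 : B ((1 : ℝ), (0 : E)) ((1 : ℝ), (0 : E)) = -1 := by simp [B]
    rw [hZ, B_add_left, B_add_right, B_add_right, B_smul_left, B_smul_left, B_smul_left,
      B_smul_left, B_smul_right, B_smul_right, B_smul_right, B_smul_right, hn, hon, B_comm n, hon,
      h3]
    ring
  obtain ⟨d, hdd⟩ : ∃ d, d = B Z Z := ⟨_, rfl⟩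
  rw [← hdd] at hd0 hd
  have hs0 : 0 < √d := Real.sqrt_pos.2 hd0
  have hss : √d * √d = d := Real.mul_self_sqrt hd0.le
  have hN1 : B ((√d)⁻¹ • Z) ((√d)⁻¹ • Z) = 1 := by
    rw [B_smul_left, B_smul_right, ← hdd, ← mul_assoc, ← mul_inv, hss, inv_mul_cancel₀ hd0.ne']
  have hN2 : σ < ((√d)⁻¹ • Z).1 := by
    rw [hZ]
    simp only [Prod.smul_fst, Prod.fst_add, smul_eq_mul, mul_one]
    rw [← hn1, lt_inv_mul_iff₀ hs0]
    apply lt_of_pow_lt_pow_left₀ 2 (by positivity)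
    have h3 : (√d * n.1) ^ 2 = d * n.1 ^ 2 := by rw [mul_pow, sq √d, hss]
    rw [h3, hd]
    have h4 : 0 < X.1 * b := by positivity
    nlinarith [mul_pos h4 hn0, pow_pos hb 2, mul_pos h4 (pow_pos hn0 3),
      mul_pos (pow_pos hn0 2) (pow_pos hb 2)]
  have hfin := hP _ hN1 hN2 X hX hFX0 (by rw [B_smul_right, hXZ, mul_zero])
  rw [map_smul, smul_eq_mul, hZ, map_add, map_smul, map_smul, smul_eq_mul, smul_eq_mul, ← hν,
    ← hα] at hfin
  have h5 : 0 < X.1 * ν + b * α := by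
    by_contra h6
    have := mul_nonpos_of_nonneg_of_nonpos (inv_pos.2 hs0).le (not_lt.1 h6)
    linarith
  linarith

/-- piece `B4`: interior touching is impossible.
Proof. Let `X ∈ Cone E`, `F X ≤ 0`, `0 < B X n`; wlog `B X X = -1` (rescale: `hD.hom`, `refl_smul`).
`Y = refl n X`, `F Y ≤ 0` by `hW`; suppose `F Y = 0`. If `F X < 0` then for `Z` near `Y` the point `refl n Z`
is near `X`, so `F (refl n Z) < 0`, `0 < B (refl n Z) n`, and `F Z ≤ 0` by `hW` (`refl_refl`): `Y` is a local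
maximum of `F`, `D1 F Y = 0` (`IsLocalMax.fderiv_eq_zero`), contradiction to `hD.reg`. So `F X = 0`.
`G Z = F (refl n Z)`: near `Y`, `G Z < 0 → F Z ≤ 0` (by `hW` at `refl n Z`). `tangency`: `l`. `Mm_le` and
`Mm_refl`: `Mm F Y ≤ Mm F X`. `hD.eq` at `X` and at `Y` (`B X X = B Y Y = -1`):
`Mm F X - a * D1 F X o / (X.1 * √(qq F X)) = H = Mm F Y - a * D1 F Y o / (Y.1 * √(qq F Y))`, `o = (1, 0)`.
Hence (`a > 0`) `D1 F Y o / (Y.1 * √(qq F Y)) ≤ D1 F X o / (X.1 * √(qq F X))`. Here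
`D1 F X o = D1 G Y (refl n o) = l * D1 F Y (refl n o)` and `√(qq F X) = √(qq G Y) = l * √(qq F Y)`, so
`D1 F Y o / Y.1 ≤ D1 F Y (refl n o) / X.1`, `refl n o = o + (2 * n.1) • n` (`B o n = -n.1`),
`X.1 = Y.1 - 2 * B Y n * n.1`. Multiply by `X.1 * Y.1 > 0`:
`0 ≤ 2 * n.1 * D1 F Y (Y.1 • n + (B Y n) • o)`. With `Z X = X.1 • n + (B X n) • o` one has
`refl n (Z Y) = -Z X`, so `D1 F Y (Z Y) = l⁻¹ * D1 F X (refl n (Z Y)) = -l⁻¹ * D1 F X (Z X)`, and therefore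
`D1 F X (Z X) ≤ 0`. But `B X (Z X) = 0`, `Z X ≠ 0`, `d = B (Z X) (Z X) = X.1 ^ 2 - 2 * X.1 * b * n.1 - b ^ 2 > 0`,
`b = B X n > 0` (`B_pos_of_orth`), and `n* = (√d)⁻¹ • Z X` has `B n* n* = 1`,
`n*.1 = (X.1 * n.1 + b) / √d > n.1` because `(X.1 * n.1 + b) ^ 2 > n.1 ^ 2 * d`. So `PP F n*` gives
`0 < D1 F X (Z X)`: contradiction. -/
theorem stepB {a H : ℝ} {F : ℝ × E → ℝ} (hD : Dom a H F) (ha : 0 < a) {σ : ℝ} (hσ : 0 < σ)
    (hP : ∀ n : ℝ × E, B n n = 1 → σ < n.1 → PP F n) {n : ℝ × E} (hn : B n n = 1)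
    (hn1 : n.1 = σ) (hW : WW F n) : QQ F n := by
  intro X hX hFX hXn
  have hneg : B X X < 0 := (cone_iff.1 hX).2
  have hs0 : 0 < √(-B X X) := Real.sqrt_pos.2 (by linarith)
  have hss : √(-B X X) * √(-B X X) = -B X X := Real.mul_self_sqrt (by linarith)
  have ht : 0 < (√(-B X X))⁻¹ := inv_pos.2 hs0
  have h1 : B ((√(-B X X))⁻¹ • X) ((√(-B X X))⁻¹ • X) = -1 := by
    rw [B_smul_left, B_smul_right, ← mul_assoc, ← mul_inv, hss, inv_neg, neg_mul,
      inv_mul_cancel₀ hneg.ne]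
  have h2 := stepB_aux hD ha hσ hP hn hn1 hW (cone_smul hX ht) h1
    (by rw [hD.hom X hX _ ht]; exact hFX) (by rw [B_smul_left]; exact mul_pos ht hXn)
  rwa [refl_smul, hD.hom _ (refl_cone hn hX) _ ht] at h2

end Pool.Agent.Helper41.ALX
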